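import Pool.Agent.Lib_helper77.KSZ.Main

/-!
# OPN (MP_2c2240_ag): Zariski-general Fano complete intersections; interface between T1 and T3
-/

namespace Pool.Agent.OPN

open MvPolynomial Pool.Agent.KSS Pool.Agent.KSX Filter Topology
open scoped ENNReal

/-- index set of the coefficients of forms of degrees `d i` in `v` variables -/
abbrev CI {a : ℕ} (d : Fin a → ℕ) (v : ℕ) : Type :=
  Σ i : Fin a, {α : Fin v →₀ ℕ // α.degree = d i}

/-- value of an integral polynomial `H` in the coefficients at the forms `f` -/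
noncomputable def Hv {a v : ℕ} {d : Fin a → ℕ} {κ : Type} [Field κ]
    (H : MvPolynomial (CI d v) ℤ) (f : Fin a → MvPolynomial (Fin v) κ) : κ :=
  aeval (fun c : CI d v => (f c.1).coeff c.2.1) H

/-- smoothness outside the vertex: at every common zero `≠ 0` over every extension field the
gradients are linearly independent -/
def Sm {a v : ℕ} {F : Type} [Field F] (f : Fin a → MvPolynomial (Fin v) F) : Prop :=
  ∀ (κ : Type) [Field κ] [Algebra F κ] (pt : Fin v → κ), pt ≠ 0 → (∀ i, aeval pt (f i) = 0) →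
    LinearIndependent κ (fun i => grad f pt i)

/-- a jet in characteristic `p` -/
structure Viol (n k : ℕ) where
  p : ℕ
  F : Type
  κ : Type
  [fieldF : Field F]
  [fieldκ : Field κ]
  [alg : Algebra F κ]
  [cp : CharP F p]
  [hp : Fact p.Prime]
  [ac : IsAlgClosed F]
  f : Fin k → MvPolynomial (Fin (n + k + 1)) F
  A : ℕ
  L : ℕ
  x : Fin (n + k + 1) → Fin L → κ

attribute [instance] Viol.fieldF Viol.fieldκ Viol.alg Viol.cp Viol.hp Viol.ac

/-- the jet `x` of the cone over `X_f` has codimension at most `A`, does not start at the vertex,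
is long, and its filtration is large at all levels `m ≤ M` -/
structure Viol.Ok {n k : ℕ} (d : Fin k → ℕ) (g : ℕ → ℝ) (M T : ℕ) (ε : ℝ) (V : Viol n k) :
    Prop where
  hom : ∀ j, (V.f j).IsHomogeneous (d j)
  sm : Sm V.f
  A1 : 1 ≤ V.A
  L_ge : T * V.A ≤ V.L
  p_ge : T ≤ V.p
  c0 : c0J V.x = 0
  van : ∀ j, (PowerSeries.X : PowerSeries V.κ) ^ V.L ∣ ev V.x (V.f j)
  cod : (n + 1) * V.L ≤ tauJ V.F V.x + V.A
  lev : ∀ m ≤ M, (1 - ε) * (V.A * g m) ≤ ∑ l ∈ Finset.Icc 1 V.L,
    ((Module.finrank V.F (Fil V.F V.x m l) : ℝ) - (NN d (n + k + 1) ∅ m : ℝ)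
      + (NN d (n + k + 1) Finset.univ m : ℝ))

end Pool.Agent.OPN
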