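import Mathlib

namespace Pool.Agent.OPN.UAD

theorem aux {k : Type} [Field k] (Λ : ℕ) : ∀ (V : Type) [AddCommGroup V] [Module k V]
    [Module.Finite k V] (n : ℕ) (_ : Module.finrank k V = n)
    (Fl : ℕ → Submodule k V) (_ : Antitone Fl) (_ : Fl 0 = ⊤),
    ∃ (b : Fin n → V) (o : Fin n → ℕ),
      LinearIndependent k b ∧ (∀ j, o j ≤ Λ) ∧ (∀ j, b j ∈ Fl (o j)) ∧
      ∑ j, o j = ∑ l ∈ Finset.Icc 1 Λ, Module.finrank k (Fl l) := by
  induction Λ with
  | zero =>
    intro V _ _ _ n hn Fl _ h0
    subst hn
    refine ⟨Module.finBasis k V, fun _ => 0, (Module.finBasis k V).linearIndependent,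
      fun _ => le_rfl, fun j => by rw [h0]; trivial, by simp⟩
  | succ Λ ih =>
    intro V _ _ _ n hn Fl hanti h0
    classical
    obtain ⟨b', o', hb', ho', hF', hs'⟩ := ih (Fl 1) (Module.finrank k (Fl 1)) rfl
      (fun l => (Fl (l + 1)).comap (Fl 1).subtype)
      (fun a c hac => Submodule.comap_mono (hanti (by omega)))
      (by
        rw [Submodule.comap_subtype_eq_top])
    obtain ⟨C, hC⟩ := Submodule.exists_isCompl (Fl 1)
    have hsum : Module.finrank k (Fl 1) + Module.finrank k C = n := by
      rw [← hn]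
      exact Submodule.finrank_add_eq_of_isCompl hC
    let e : Fin (Module.finrank k (Fl 1)) ⊕ Fin (Module.finrank k C) ≃ Fin n :=
      finSumFinEquiv.trans (finCongr hsum)
    let B : Fin (Module.finrank k (Fl 1)) ⊕ Fin (Module.finrank k C) → V :=
      Sum.elim (fun i => (b' i : V)) (fun i => (Module.finBasis k C i : V))
    let O : Fin (Module.finrank k (Fl 1)) ⊕ Fin (Module.finrank k C) → ℕ :=
      Sum.elim (fun i => o' i + 1) (fun _ => 0)
    have hB : LinearIndependent k B := by
      apply LinearIndependent.sum_type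
      · exact hb'.map' (Fl 1).subtype (Submodule.ker_subtype _)
      · exact (Module.finBasis k C).linearIndependent.map' C.subtype (Submodule.ker_subtype _)
      · refine hC.disjoint.mono ?_ ?_
        · rw [Submodule.span_le]
          rintro _ ⟨i, rfl⟩
          exact (b' i).2
        · rw [Submodule.span_le]
          rintro _ ⟨i, rfl⟩
          exact (Module.finBasis k C i).2
    refine ⟨B ∘ e.symm, O ∘ e.symm, hB.comp _ e.symm.injective, ?_, ?_, ?_⟩
    · intro j
      obtain ⟨i, rfl⟩ := e.surjective j
      simp only [Function.comp_apply, Equiv.symm_apply_apply]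
      rcases i with i | i
      · exact Nat.succ_le_succ (ho' i)
      · exact Nat.zero_le _
    · intro j
      obtain ⟨i, rfl⟩ := e.surjective j
      simp only [Function.comp_apply, Equiv.symm_apply_apply]
      rcases i with i | i
      · exact hF' i
      · show _ ∈ Fl 0
        rw [h0]; trivial
    · have h1 : ∑ j, (O ∘ e.symm) j = ∑ i, O i := Equiv.sum_comp e.symm O
      rw [h1, Fintype.sum_sum_type]
      simp only [O, Sum.elim_inl, Sum.elim_inr, Finset.sum_const_zero, add_zero,
        Finset.sum_add_distrib, Finset.sum_const, Finset.card_univ, Fintype.card_fin, smul_eq_mul,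
        mul_one]
      rw [hs']
      have h2 : ∀ l ∈ Finset.Icc 1 Λ, Module.finrank k
          ((Fl (l + 1)).comap (Fl 1).subtype : Submodule k (Fl 1)) =
            Module.finrank k (Fl (l + 1)) := by
        intro l hl
        have hle : Fl (l + 1) ≤ Fl 1 := hanti (by omega)
        exact LinearEquiv.finrank_eq (Submodule.comapSubtypeEquivOfLe hle)
      rw [Finset.sum_congr rfl h2]
      have h3 : Finset.Icc 1 (Λ + 1) = insert 1 ((Finset.Icc 1 Λ).image (· + 1)) := by
        ext x
        simp only [Finset.mem_Icc, Finset.mem_insert, Finset.mem_image]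
        constructor
        · rintro ⟨h1, h2⟩
          rcases Nat.lt_or_ge 1 x with h | h
          · right; exact ⟨x - 1, ⟨by omega, by omega⟩, by omega⟩
          · left; omega
        · rintro (rfl | ⟨y, ⟨h1, h2⟩, rfl⟩)
          · exact ⟨le_rfl, by omega⟩
          · exact ⟨by omega, by omega⟩
      rw [h3, Finset.sum_insert, Finset.sum_image]
      · ring
      · intro a _ b _ hab
        exact Nat.succ_injective hab
      · simp only [Finset.mem_image, Finset.mem_Icc]
        rintro ⟨y, ⟨h1, _⟩, h2⟩
        omega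

theorem adapted_pr {k V : Type} [Field k] [AddCommGroup V] [Module k V] [Module.Finite k V]
    (n : ℕ) (hn : Module.finrank k V = n)
    (Fl : ℕ → Submodule k V) (hanti : Antitone Fl) (h0 : Fl 0 = ⊤) (Λ : ℕ) :
    ∃ (b : Fin n → V) (o : Fin n → ℕ),
      LinearIndependent k b ∧ (∀ j, o j ≤ Λ) ∧ (∀ j, b j ∈ Fl (o j)) ∧
      ∑ j, o j = ∑ l ∈ Finset.Icc 1 Λ, Module.finrank k (Fl l) :=
  aux Λ V n hn Fl hanti h0

end Pool.Agent.OPN.UAD

namespace Pool.Agent.OPN

alias adapted := UAD.adapted_pr

end Pool.Agent.OPN
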