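import Pool.Agent.Lib_helper77.OPF.Defs
import Pool.Agent.Lib_helper80.OPF.L1
/-!
# OPN, block UAF: an algebraically closed valued field containing the power series
-/

namespace Pool.Agent.OPN.UAF

open MvPolynomial Pool.Agent.KSS Pool.Agent.KSX Filter Topology
open scoped ENNReal

/-- the order of a power series as a Laurent series -/
theorem orderTop_coe {κ : Type} [Field κ] (f : PowerSeries κ) :
    (HahnSeries.ofPowerSeries ℤ κ f).orderTop.map (Int.castAddHom ℝ) = OPT.oR f := by
  by_cases h0 : f = 0
  · subst h0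
    rw [map_zero, HahnSeries.orderTop_zero, OPT.oR, PowerSeries.order_zero]
    rfl
  · have hn : f.order = ((f.order.toNat : ℕ) : ℕ∞) :=
      (ENat.natCast_toNat (PowerSeries.order_finite_iff_ne_zero.mpr h0).ne).symm
    have h1 : PowerSeries.coeff f.order.toNat f ≠ 0 := PowerSeries.coeff_order h0
    have h2 : (HahnSeries.ofPowerSeries ℤ κ f).orderTop = (((f.order.toNat : ℕ) : ℤ) :
        WithTop ℤ) := by
      apply HahnSeries.orderTop_eq_of_le
      · rw [HahnSeries.mem_support, LaurentSeries.coeff_coe_powerSeries]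
        exact h1
      · intro g' hg'
        rw [HahnSeries.mem_support, PowerSeries.coeff_coe] at hg'
        by_cases h3 : g' < 0
        · rw [if_pos h3] at hg'
          exact absurd rfl hg'
        · rw [if_neg h3] at hg'
          have h4 : f.order ≤ (g'.natAbs : ℕ∞) := PowerSeries.order_le _ hg'
          rw [hn] at h4
          have h5 : f.order.toNat ≤ g'.natAbs := by exact_mod_cast h4
          omega
    rw [h2, OPT.oR, WithTop.map_coe]
    conv_rhs => rw [hn]
    rfl

theorem arc_field_pr (κ : Type) [Field κ] : ∃ (Ω : Type) (_ : Field Ω) (_ : IsAlgClosed Ω)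
    (ι : PowerSeries κ →+* Ω) (w : AddValuation Ω (WithTop ℝ)), ∀ f, w (ι f) = OPT.oR f := by
  obtain ⟨w, hw⟩ := OPT.val_ext (F := LaurentSeries κ) (E := AlgebraicClosure (LaurentSeries κ))
    ((HahnSeries.addVal ℤ κ).map (Int.castAddHom ℝ).withTopMap (by simp)
      (WithTop.monotone_map_iff.mpr (fun a b h => Int.cast_le.mpr h)))
  refine ⟨AlgebraicClosure (LaurentSeries κ), inferInstance, inferInstance,
    (algebraMap (LaurentSeries κ) (AlgebraicClosure (LaurentSeries κ))).comp
      (HahnSeries.ofPowerSeries ℤ κ), w, fun f => ?_⟩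
  rw [RingHom.comp_apply, hw]
  refine Eq.trans ?_ (orderTop_coe f)
  exact congrArg (WithTop.map (Int.castAddHom ℝ))
    (HahnSeries.addVal_apply (Γ := ℤ) (R := κ) (x := HahnSeries.ofPowerSeries ℤ κ f))

end Pool.Agent.OPN.UAF

namespace Pool.Agent.OPN

alias arc_field := UAF.arc_field_pr

end Pool.Agent.OPN
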