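import Pool.Agent.Lib_helper77.OPF.UVL
import Pool.Agent.Lib_helper80.OPF.L12
/-!
# OPN, block UAJ: approximation of a sequence of jets by one jet over the ultraproduct
-/

namespace Pool.Agent.OPN

open MvPolynomial Pool.Agent.KSS Pool.Agent.KSX Filter Topology
open scoped ENNReal

attribute [local instance] upAlg

theorem appx_jets_pr {v : ℕ} (hv : 0 < v) (U : Ultrafilter ℕ) (F κ : ℕ → Type) [∀ i, Field (F i)]
    [∀ i, Field (κ i)] [∀ i, Algebra (F i) (κ i)] [∀ i, IsAlgClosed (F i)]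
    [CharZero (UP U F)] (A L : ℕ → ℕ) (hA : ∀ i, 1 ≤ A i)
    (x : ∀ i, Fin v → Fin (L i) → κ i) (C : ℝ)
    (hC : ∀ᶠ i in (U : Filter ℕ), (v * L i : ℝ) ≤ tauJ (F i) (x i) + C * A i)
    {I : Type} [Finite I] (m : I → ℕ) (s : I → ∀ i, MvPolynomial (Fin v) (F i))
    (hs : ∀ a i, (s a i).IsHomogeneous (m a)) (lam : I → ℝ)
    (hord : ∀ a, ∀ᶠ i in (U : Filter ℕ), ∃ l : ℕ, l ≤ L i ∧ lam a * A i ≤ l ∧
      (PowerSeries.X : PowerSeries (κ i)) ^ l ∣ ev (x i) (s a i))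
    (hc0 : ∀ᶠ i in (U : Filter ℕ), 0 < L i ∧ c0J (x i) = 0) (η : ℝ) (hη : 0 < η) (N0 : ℕ) :
    ∃ N : ℕ, N0 ≤ N ∧ ∀ L' : ℕ,
      ∃ (κ' : Type) (_ : Field κ') (_ : Algebra (UP U F) κ') (x' : Fin v → Fin L' → κ'),
        (v * L' : ℝ) ≤ tauJ (UP U F) x' + N * (C + η) ∧
        (∀ a, ∀ l : ℕ, l ≤ L' → (l : ℝ) ≤ N * (lam a - η) →
          (PowerSeries.X : PowerSeries κ') ^ l ∣ ev x' (uh U (m a) (s a))) ∧
        (0 < L' → c0J x' = 0) := by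
  classical
  obtain ⟨Ω, _, _, _, z, w, hK, hind, hΓ, hz0, hord', hc⟩ := vlim U F κ A L hA x C hC
  haveI : IsAlgClosed (UP U F) := up_algClosed U
  cases nonempty_fintype I
  obtain ⟨q, hq⟩ := hc hv hc0
  obtain ⟨N, _, hN, h⟩ := OPT.lift_jets w hK z hz0 (id : Fin v → Fin v) Function.injective_id hind
    (fun a => OPT.subset_acl _ ⟨a, a.2, rfl⟩) C hΓ
    (Finset.univ.image fun a => uh U (m a) (s a)) η hη N0
  refine ⟨N, hN, fun L' => ?_⟩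
  obtain ⟨κ', _, _, y, h1, h2, h3, h4⟩ := h L'
  refine ⟨κ', _, _, y, h2, ?_, fun hL => h4 q hq hL⟩
  intro a l hl hl'
  exact h3 _ (Finset.mem_image_of_mem _ (Finset.mem_univ a)) (lam a) l
    (hord' (m a) (s a) (lam a) (hs a) (hord a)) hl hl'

alias appx_jets := appx_jets_pr

end Pool.Agent.OPN
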