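import Pool.Agent.Lib_helper77.OPF.UP
import Pool.Agent.Lib_helper80.OPF.Defs
/-!
# OPN, block UCK: coefficients of a power series close to an algebraic element
-/

set_option autoImplicit false

namespace Pool.Agent.OPN.UCK

open Pool.Agent

theorem uck_oR_nonneg {κ : Type} [Semiring κ] (a : PowerSeries κ) : 0 ≤ OPT.oR a := by
  unfold OPT.oR
  induction h : (a.order : WithTop ℕ) using WithTop.recTopCoe with
  | top => exact le_top
  | coe n =>
    show ((0 : ℝ) : WithTop ℝ) ≤ ((n : ℝ) : WithTop ℝ)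
    exact WithTop.coe_le_coe.2 (Nat.cast_nonneg n)

theorem uck_oR_pos {κ : Type} [Semiring κ] {a : PowerSeries κ} (h : 0 < OPT.oR a) :
    PowerSeries.constantCoeff a = 0 := by
  by_contra h0
  have h1 : a.order = 0 := by
    refine le_antisymm ?_ bot_le
    have := PowerSeries.order_le (φ := a) 0 (by
      rw [PowerSeries.coeff_zero_eq_constantCoeff_apply]; exact h0)
    simpa using this
  unfold OPT.oR at h
  rw [h1] at h
  change (0 : WithTop ℝ) < (((0 : ℕ) : ℝ) : WithTop ℝ) at h
  simp at h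

theorem uck_oR_X {κ : Type} [Semiring κ] [Nontrivial κ] (n : ℕ) :
    OPT.oR ((PowerSeries.X : PowerSeries κ) ^ n) = ((n : ℝ) : WithTop ℝ) := by
  unfold OPT.oR
  rw [PowerSeries.order_X_pow]
  rfl

/-- the subring of the elements of nonnegative value -/
def uck_O {Ω : Type} [Field Ω] (w : AddValuation Ω (WithTop ℝ)) : Subring Ω where
  carrier := {x | 0 ≤ w x}
  mul_mem' := by
    intro a b ha hb
    show 0 ≤ w (a * b)
    rw [AddValuation.map_mul]
    exact add_nonneg ha hb
  one_mem' := by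
    show 0 ≤ w 1
    rw [AddValuation.map_one]
  add_mem' := by
    intro a b ha hb
    exact (le_min ha hb).trans (w.map_add a b)
  zero_mem' := by
    show 0 ≤ w 0
    rw [AddValuation.map_zero]
    exact le_top
  neg_mem' := by
    intro a ha
    show 0 ≤ w (-a)
    rw [AddValuation.map_neg]
    exact ha

theorem clk_pr {κ Ω : Type} [Field κ] [Field Ω] (T : Subfield κ)
    (hT : ∀ a : κ, IsAlgebraic T a → a ∈ T) (ι : PowerSeries κ →+* Ω)
    (w : AddValuation Ω (WithTop ℝ)) (hw : ∀ f, w (ι f) = OPT.oR f) (z : PowerSeries κ)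
    (β : Ω) (Q : Polynomial (PowerSeries κ)) (hQ : Q ≠ 0)
    (hQT : ∀ i n, PowerSeries.coeff n (Q.coeff i) ∈ T) (hβ : Q.eval₂ ι β = 0) (μ : ℕ)
    (hμ : ((μ : ℝ) : WithTop ℝ) < w (ι z - β)) :
    PowerSeries.coeff μ z ∈ T := by
  classical
  induction μ using Nat.strong_induction_on with
  | _ μ ih =>
  have ih' : ∀ n, n < μ → PowerSeries.coeff n z ∈ T := by
    intro n hn
    refine ih n hn (lt_trans ?_ hμ)
    exact WithTop.coe_lt_coe.2 (by exact_mod_cast hn)
  set ψ : PowerSeries T →+* PowerSeries κ := PowerSeries.map T.subtype with hψ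
  have hψinj : Function.Injective ψ := PowerSeries.map_injective _ T.subtype_injective
  have hψc : ∀ (n : ℕ) (f : PowerSeries T), PowerSeries.coeff n (ψ f) = (PowerSeries.coeff n f : T) := by
    intro n f
    rw [hψ, PowerSeries.coeff_map]
    rfl
  set J : PowerSeries T →+* Ω := ι.comp ψ with hJ
  -- lift of `Q`
  obtain ⟨Q', hQ'⟩ : ∃ Q' : Polynomial (PowerSeries T), Q'.map ψ = Q := by
    rw [← Polynomial.mem_lifts, Polynomial.lifts_iff_coeff_lifts]
    intro i
    refine ⟨PowerSeries.mk fun n => ⟨PowerSeries.coeff n (Q.coeff i), hQT i n⟩, ?_⟩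
    ext n
    rw [hψc, PowerSeries.coeff_mk]
  have hQ'0 : Q' ≠ 0 := by
    rintro rfl
    rw [Polynomial.map_zero] at hQ'
    exact hQ hQ'.symm
  have hβ' : Q'.eval₂ J β = 0 := by
    rw [hJ, ← Polynomial.eval₂_map, hQ']
    exact hβ
  -- the truncation of `z`
  set y' : PowerSeries T := PowerSeries.mk fun n =>
    if h : n < μ then (⟨PowerSeries.coeff n z, ih' n h⟩ : T) else 0 with hy'
  have hdvd : (PowerSeries.X : PowerSeries κ) ^ μ ∣ z - ψ y' := by
    rw [PowerSeries.X_pow_dvd_iff]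
    intro m hm
    rw [map_sub, hψc, hy', PowerSeries.coeff_mk, dif_pos hm, sub_self]
  obtain ⟨z', hz'⟩ := hdvd
  have hzc : PowerSeries.coeff μ z = PowerSeries.constantCoeff z' := by
    have h1 : z = ψ y' + PowerSeries.X ^ μ * z' := by rw [← hz']; ring
    rw [h1, map_add, hψc, hy', PowerSeries.coeff_mk, dif_neg (lt_irrefl μ)]
    have h2 : PowerSeries.coeff μ ((PowerSeries.X : PowerSeries κ) ^ μ * z') =
        PowerSeries.coeff 0 z' := by
      have := PowerSeries.coeff_X_pow_mul z' μ 0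
      rwa [zero_add] at this
    rw [h2, PowerSeries.coeff_zero_eq_constantCoeff_apply]
    simp
  -- values of the powers of `t`
  have hwX : ∀ n : ℕ, w (ι ((PowerSeries.X : PowerSeries κ) ^ n)) = ((n : ℝ) : WithTop ℝ) :=
    fun n => by rw [hw, uck_oR_X]
  have hιX : ∀ n : ℕ, ι ((PowerSeries.X : PowerSeries κ) ^ n) ≠ 0 := by
    intro n h
    have h1 := hwX n
    rw [h, AddValuation.map_zero] at h1
    exact WithTop.coe_ne_top h1.symm
  have hψX : ∀ n : ℕ, ψ (PowerSeries.X ^ n) = PowerSeries.X ^ n := by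
    intro n
    rw [map_pow, hψ, PowerSeries.map_X]
  -- the element `β'`
  set β' : Ω := (β - J y') / ι (PowerSeries.X ^ μ) with hβ'd
  have hβ'1 : J y' + ι (PowerSeries.X ^ μ) * β' = β := by
    rw [hβ'd, mul_div_cancel₀ _ (hιX μ)]
    ring
  -- the polynomial `Q1`
  set L : Polynomial (PowerSeries T) :=
    Polynomial.C y' + Polynomial.C (PowerSeries.X ^ μ) * Polynomial.X with hL
  set Q1 : Polynomial (PowerSeries T) := Q'.comp L with hQ1
  have hL1 : L.coeff 1 = PowerSeries.X ^ μ := by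
    rw [hL, Polynomial.coeff_add, Polynomial.coeff_C_succ, zero_add, Polynomial.coeff_C_mul,
      Polynomial.coeff_X_one, mul_one]
  have hQ10 : Q1 ≠ 0 := by
    rw [hQ1]
    intro h
    rw [Polynomial.comp_eq_zero_iff] at h
    rcases h with h | ⟨-, h⟩
    · exact hQ'0 h
    · have h1 := congrArg (fun p => Polynomial.coeff p 1) h
      simp only [hL1, Polynomial.coeff_C_succ] at h1
      exact pow_ne_zero μ PowerSeries.X_ne_zero h1
  have hQ1β : Q1.eval₂ J β' = 0 := by
    rw [hQ1, Polynomial.eval₂_comp]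
    have h1 : L.eval₂ J β' = β := by
      rw [hL, Polynomial.eval₂_add, Polynomial.eval₂_mul, Polynomial.eval₂_C, Polynomial.eval₂_C,
        Polynomial.eval₂_X, ← hβ'1]
      congr 2
      show ι (ψ _) = _
      rw [hψX]
    rw [h1]
    exact hβ'
  -- the exponent `e`
  have hex : ∃ n, ∃ i, PowerSeries.coeff n (Q1.coeff i) ≠ 0 := by
    by_contra hcon
    push Not at hcon
    apply hQ10
    ext i n
    rw [hcon n i]
    simp
  set e := Nat.find hex with he
  obtain ⟨i0, hi0⟩ := Nat.find_spec hex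
  rw [← he] at hi0
  have hmin : ∀ n, n < e → ∀ i, PowerSeries.coeff n (Q1.coeff i) = 0 := by
    intro n hn i
    have h1 := Nat.find_min hex hn
    push Not at h1
    exact h1 i
  obtain ⟨Q2, hQ2⟩ : Polynomial.C ((PowerSeries.X : PowerSeries T) ^ e) ∣ Q1 := by
    rw [Polynomial.C_dvd_iff_dvd_coeff]
    intro i
    rw [PowerSeries.X_pow_dvd_iff]
    intro m hm
    exact hmin m hm i
  set q : Polynomial T := Q2.map PowerSeries.constantCoeff with hq
  have hq0 : q ≠ 0 := by
    intro h
    have h1 := congrArg (fun p => Polynomial.coeff p i0) h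
    simp only [hq, Polynomial.coeff_map, Polynomial.coeff_zero] at h1
    apply hi0
    rw [hQ2, Polynomial.coeff_C_mul]
    have h2 := PowerSeries.coeff_X_pow_mul (Q2.coeff i0) e 0
    rw [zero_add] at h2
    rw [h2, PowerSeries.coeff_zero_eq_constantCoeff_apply]
    exact h1
  have hQ2β : Q2.eval₂ J β' = 0 := by
    rw [hQ2, Polynomial.eval₂_mul, Polynomial.eval₂_C] at hQ1β
    have h1 : J (PowerSeries.X ^ e) ≠ 0 := by
      show ι (ψ _) ≠ 0
      rw [hψX]
      exact hιX e
    exact (mul_eq_zero.1 hQ1β).resolve_left h1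
  -- values
  have hdiff : ι (PowerSeries.X ^ μ) * (ι z' - β') = ι z - β := by
    have h1 : z = ψ y' + PowerSeries.X ^ μ * z' := by rw [← hz']; ring
    have h2 : ι z = J y' + ι (PowerSeries.X ^ μ) * ι z' := by
      rw [h1, map_add, map_mul]
      rfl
    rw [h2, ← hβ'1]
    ring
  have hpos : 0 < w (ι z' - β') := by
    rw [← hdiff, AddValuation.map_mul, hwX] at hμ
    by_contra hcon
    push Not at hcon
    have h1 : ((μ : ℝ) : WithTop ℝ) + w (ι z' - β') ≤ ((μ : ℝ) : WithTop ℝ) + 0 :=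
      add_le_add le_rfl hcon
    rw [add_zero] at h1
    exact absurd hμ (not_lt.2 h1)
  have hz'0 : 0 ≤ w (ι z') := by rw [hw]; exact uck_oR_nonneg _
  have hβ'0 : 0 ≤ w β' := by
    have h1 : β' = ι z' + -(ι z' - β') := by ring
    rw [h1]
    refine (le_min hz'0 ?_).trans (w.map_add _ _)
    rw [AddValuation.map_neg]
    exact hpos.le
  -- the polynomial over the valuation ring
  have hJO : ∀ f, J f ∈ uck_O w := by
    intro f
    show 0 ≤ w (ι (ψ f))
    rw [hw]
    exact uck_oR_nonneg _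
  set φ : PowerSeries T →+* uck_O w := J.codRestrict (uck_O w) hJO with hφ
  set P : Polynomial (uck_O w) := Q2.map φ with hP
  set a : uck_O w := ⟨ι z', hz'0⟩ with ha
  set b : uck_O w := ⟨β', hβ'0⟩ with hb
  have hcoe : ∀ x : uck_O w, ((P.eval x : uck_O w) : Ω) = Q2.eval₂ J (x : Ω) := by
    intro x
    rw [hP, Polynomial.eval_map]
    have h1 := Polynomial.hom_eval₂ Q2 φ (uck_O w).subtype x
    exact h1
  have hPb : P.eval b = 0 := by
    apply Subtype.ext
    rw [hcoe]
    exact hQ2β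
  obtain ⟨k, hk⟩ := Polynomial.sub_dvd_eval_sub a b P
  rw [hPb, sub_zero] at hk
  have hval : 0 < w (Q2.eval₂ J (ι z')) := by
    have h1 : Q2.eval₂ J (ι z') = (ι z' - β') * (k : Ω) := by
      rw [← hcoe a, hk]
      rfl
    rw [h1, AddValuation.map_mul]
    exact lt_of_lt_of_le hpos (le_add_of_nonneg_right k.2)
  have hval2 : Q2.eval₂ J (ι z') = ι (Q2.eval₂ ψ z') := by
    rw [Polynomial.hom_eval₂]
  rw [hval2, hw] at hval
  have hc0 := uck_oR_pos hval
  rw [Polynomial.hom_eval₂] at hc0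
  have halg : IsAlgebraic T (PowerSeries.constantCoeff z') := by
    refine ⟨q, hq0, ?_⟩
    rw [Polynomial.aeval_def, hq, Polynomial.eval₂_map]
    rw [← hc0]
    congr 1
  rw [hzc]
  exact hT _ halg

end Pool.Agent.OPN.UCK

namespace Pool.Agent.OPN

alias clk := UCK.clk_pr

end Pool.Agent.OPN
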