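import Pool.Agent.Lib_helper77.OPF.UCK
import Pool.Agent.Lib_helper77.OPF.Defs
import Pool.Agent.Lib_helper80.OPF.L0
/-! # OPN block UCL: counting lemma -/

namespace Pool.Agent.OPN.UCL

open MvPolynomial Pool.Agent.KSS Pool.Agent.KSX Filter Topology
open scoped ENNReal

/-- an element of `acl K s` is a root of a nonzero polynomial with coefficients in `K[s]` -/
theorem ucl_alg {K E : Type} [Field K] [Field E] [Algebra K E] {s : Set E} {x : E}
    (hx : x ∈ OPT.acl K s) :
    ∃ p : Polynomial E, p ≠ 0 ∧ (∀ i, p.coeff i ∈ Algebra.adjoin K s) ∧ p.eval x = 0 := by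
  rw [OPT.mem_acl] at hx
  open scoped IntermediateField.algebraAdjoinAdjoin in
  rw [← IsFractionRing.isAlgebraic_iff (Algebra.adjoin K s) (IntermediateField.adjoin K s) E] at hx
  obtain ⟨q, hq, hqx⟩ := hx
  have hinj : Function.Injective (algebraMap (Algebra.adjoin K s) E) := Subtype.val_injective
  refine ⟨q.map (algebraMap (Algebra.adjoin K s) E), ?_, ?_, ?_⟩
  · rwa [Ne, Polynomial.map_eq_zero_iff hinj]
  · intro i
    rw [Polynomial.coeff_map]
    exact (q.coeff i).2
  · rw [Polynomial.eval_map]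
    exact hqx

theorem ucl_of_alg {K E : Type} [Field K] [Field E] [Algebra K E] {t : Set E} {x : E}
    (p : Polynomial E) (hp : p ≠ 0) (hc : ∀ i, p.coeff i ∈ OPT.acl K t) (hx : p.eval x = 0) :
    x ∈ OPT.acl K t := by
  apply OPT.acl_closed
  have h1 : p ∈ Polynomial.lifts (algebraMap (OPT.acl K t) E) := by
    rw [Polynomial.lifts_iff_coeff_lifts]
    intro n
    exact ⟨⟨p.coeff n, hc n⟩, rfl⟩
  obtain ⟨q, hq⟩ := h1
  rw [Polynomial.coe_mapRingHom] at hq
  refine ⟨q, ?_, ?_⟩
  · rintro rfl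
    rw [Polynomial.map_zero] at hq
    exact hp hq.symm
  · rw [Polynomial.aeval_def, ← Polynomial.eval_map, hq, hx]

/-- finite character of the algebraic closure for increasing unions -/
theorem ucl_fin {K E : Type} [Field K] [Field E] [Algebra K E] (S : ℕ → Set E) (hS : Monotone S)
    {x : E} (hx : x ∈ OPT.acl K (⋃ M, S M)) : ∃ M, x ∈ OPT.acl K (S M) := by
  obtain ⟨p, hp, hc, hpx⟩ := ucl_alg hx
  have h1 : ∀ y ∈ Algebra.adjoin K (⋃ M, S M), ∃ M, y ∈ Algebra.adjoin K (S M) := by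
    intro y hy
    induction hy using Algebra.adjoin_induction with
    | mem y hy =>
      obtain ⟨M, hM⟩ := Set.mem_iUnion.1 hy
      exact ⟨M, Algebra.subset_adjoin hM⟩
    | algebraMap r => exact ⟨0, Subalgebra.algebraMap_mem _ r⟩
    | add y z hy hz h1 h2 =>
      obtain ⟨M, h1⟩ := h1
      obtain ⟨N, h2⟩ := h2
      exact ⟨max M N, add_mem (Algebra.adjoin_mono (hS (le_max_left _ _)) h1)
        (Algebra.adjoin_mono (hS (le_max_right _ _)) h2)⟩
    | mul y z hy hz h1 h2 =>
      obtain ⟨M, h1⟩ := h1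
      obtain ⟨N, h2⟩ := h2
      exact ⟨max M N, mul_mem (Algebra.adjoin_mono (hS (le_max_left _ _)) h1)
        (Algebra.adjoin_mono (hS (le_max_right _ _)) h2)⟩
  choose f hf using fun i => h1 _ (hc i)
  refine ⟨p.support.sup f, ucl_of_alg p hp ?_ hpx⟩
  intro i
  by_cases hi : i ∈ p.support
  · have h2 := Algebra.adjoin_mono (hS (Finset.le_sup (f := f) hi)) (hf i)
    rw [OPT.mem_acl]
    exact isAlgebraic_algebraMap
      (⟨p.coeff i, IntermediateField.algebra_adjoin_le_adjoin K _ h2⟩ :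
        IntermediateField.adjoin K (S (p.support.sup f)))
  · rw [Polynomial.notMem_support_iff.1 hi]
    exact zero_mem _

/-- polynomial relation over power series with coefficients in `acl` -/
theorem ucl_rel {F κ Ω : Type} [Field F] [Field κ] [Algebra F κ] [Field Ω] [Algebra F Ω]
    (ι : PowerSeries κ →+* Ω)
    (hι : ∀ a : F, ι (PowerSeries.C (algebraMap F κ a)) = algebraMap F Ω a)
    {v : ℕ} (z : Fin v → PowerSeries κ) (j : Fin v) (β : Ω)
    (hβ : β ∈ OPT.Om F (fun l => ι (z l)) j) :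
    ∃ Q : Polynomial (PowerSeries κ), Q ≠ 0 ∧
      (∀ i n, PowerSeries.coeff n (Q.coeff i) ∈
        OPT.acl F {e : κ | ∃ (l : Fin v) (n : ℕ), l < j ∧ e = PowerSeries.coeff n (z l)}) ∧
      Q.eval₂ ι β = 0 := by
  obtain ⟨p, hp, hc, hpx⟩ := ucl_alg hβ
  set T := OPT.acl F {e : κ | ∃ (l : Fin v) (n : ℕ), l < j ∧ e = PowerSeries.coeff n (z l)} with hT
  have h1 : ∀ y ∈ Algebra.adjoin F ((fun l => ι (z l)) '' {i : Fin v | (i : ℕ) < j}),
      ∃ f : PowerSeries κ, (∀ n, PowerSeries.coeff n f ∈ T) ∧ ι f = y := by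
    intro y hy
    induction hy using Algebra.adjoin_induction with
    | mem y hy =>
      obtain ⟨l, hl, rfl⟩ := hy
      exact ⟨z l, fun n => OPT.subset_acl _ ⟨l, n, hl, rfl⟩, rfl⟩
    | algebraMap r =>
      refine ⟨PowerSeries.C (algebraMap F κ r), fun n => ?_, hι r⟩
      rw [PowerSeries.coeff_C]
      split_ifs
      · exact T.algebraMap_mem r
      · exact zero_mem _
    | add y z hy hz h1 h2 =>
      obtain ⟨f, hf, rfl⟩ := h1
      obtain ⟨g, hg, rfl⟩ := h2
      refine ⟨f + g, fun n => ?_, map_add _ _ _⟩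
      rw [map_add]
      exact add_mem (hf n) (hg n)
    | mul y z hy hz h1 h2 =>
      obtain ⟨f, hf, rfl⟩ := h1
      obtain ⟨g, hg, rfl⟩ := h2
      refine ⟨f * g, fun n => ?_, map_mul _ _ _⟩
      rw [PowerSeries.coeff_mul]
      exact sum_mem fun q _ => mul_mem (hf _) (hg _)
  choose f hf1 hf2 using fun i => h1 _ (hc i)
  refine ⟨∑ i ∈ p.support, Polynomial.monomial i (f i), ?_, ?_, ?_⟩
  · intro h
    apply hp
    have h2 : (∑ i ∈ p.support, Polynomial.monomial i (f i)).map ι = p := by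
      rw [Polynomial.map_sum]
      conv_rhs => rw [p.as_sum_support]
      apply Finset.sum_congr rfl
      intro i _
      rw [Polynomial.map_monomial, hf2]
    rw [← h2, h, Polynomial.map_zero]
  · intro i n
    rw [Polynomial.finsetSum_coeff, map_sum]
    apply sum_mem
    intro k _
    rw [Polynomial.coeff_monomial]
    split_ifs
    · exact hf1 k n
    · rw [map_zero]
      exact zero_mem _
  · have h2 : (∑ i ∈ p.support, Polynomial.monomial i (f i)).map ι = p := by
      rw [Polynomial.map_sum]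
      conv_rhs => rw [p.as_sum_support]
      apply Finset.sum_congr rfl
      intro i _
      rw [Polynomial.map_monomial, hf2]
    rw [← Polynomial.eval_map, h2, hpx]

theorem count_pr {F κ Ω : Type} [Field F] [Field κ] [Algebra F κ] [Field Ω] [Algebra F Ω]
    (ι : PowerSeries κ →+* Ω)
    (hι : ∀ a : F, ι (PowerSeries.C (algebraMap F κ a)) = algebraMap F Ω a)
    (w : AddValuation Ω (WithTop ℝ)) (hw : ∀ f, w (ι f) = OPT.oR f) {v L c : ℕ}
    (z : Fin v → PowerSeries κ)
    (hz : ∀ M, L ≤ M → v * M ≤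
      tau F (fun p : Fin v × Fin M => PowerSeries.coeff (p.2 : ℕ) (z p.1)) + c)
    (β : Fin v → Ω) (hβ : ∀ j : Fin v, β j ∈ OPT.Om F (fun l => ι (z l)) j) (b : Fin v → ℕ)
    (hb : ∀ (j : Fin v) (μ : ℕ), μ < b j → ((μ : ℝ) : WithTop ℝ) < w (ι (z j) - β j)) :
    ∑ j, b j ≤ c := by
  classical
  -- the coefficients of small index are algebraic over the previous ones
  have h1 : ∀ (j : Fin v) (μ : ℕ), μ < b j → PowerSeries.coeff μ (z j) ∈
      OPT.acl F {e : κ | ∃ (l : Fin v) (n : ℕ), l < j ∧ e = PowerSeries.coeff n (z l)} := by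
    intro j μ hμ
    obtain ⟨Q, hQ, hQT, hQβ⟩ := ucl_rel ι hι z j (β j) (hβ j)
    exact clk (OPT.acl F {e : κ | ∃ (l : Fin v) (n : ℕ), l < j ∧
      e = PowerSeries.coeff n (z l)}).toSubfield (fun a ha => OPT.acl_closed _ a ha) ι w hw (z j)
      (β j) Q hQ hQT hQβ μ (hb j μ hμ)
  -- finite character
  have h2 : ∀ (j : Fin v) (μ : ℕ), ∃ M, μ < b j → PowerSeries.coeff μ (z j) ∈
      OPT.acl F {e : κ | ∃ (l : Fin v) (n : ℕ), l < j ∧ n < M ∧ e = PowerSeries.coeff n (z l)} := by
    intro j μ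
    by_cases hμ : μ < b j
    · have h3 := h1 j μ hμ
      have h4 : {e : κ | ∃ (l : Fin v) (n : ℕ), l < j ∧ e = PowerSeries.coeff n (z l)} =
          ⋃ M : ℕ, {e : κ | ∃ (l : Fin v) (n : ℕ), l < j ∧ n < M ∧
            e = PowerSeries.coeff n (z l)} := by
        ext e
        simp only [Set.mem_iUnion, Set.mem_ofPred_eq]
        constructor
        · rintro ⟨l, n, hl, he⟩
          exact ⟨n + 1, l, n, hl, Nat.lt_succ_self n, he⟩
        · rintro ⟨M, l, n, hl, -, he⟩
          exact ⟨l, n, hl, he⟩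
      rw [h4] at h3
      obtain ⟨M, hM⟩ := ucl_fin _ (by
        intro M N hMN e
        rintro ⟨l, n, hl, hn, he⟩
        exact ⟨l, n, hl, lt_of_lt_of_le hn hMN, he⟩) h3
      exact ⟨M, fun _ => hM⟩
    · exact ⟨0, fun h => absurd h hμ⟩
  choose Mf hMf using h2
  obtain ⟨M, hML, hMb, hMM⟩ : ∃ M, L ≤ M ∧ (∀ j, b j ≤ M) ∧ ∀ j, ∀ μ < b j, Mf j μ ≤ M := by
    refine ⟨L + ∑ j, b j + ∑ j, ∑ μ ∈ Finset.range (b j), Mf j μ, ?_, ?_, ?_⟩
    · omega
    · intro j
      have := Finset.single_le_sum (f := b) (fun i _ => Nat.zero_le _) (Finset.mem_univ j)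
      omega
    · intro j μ hμ
      have h3 := Finset.single_le_sum (f := fun μ => Mf j μ) (fun i _ => Nat.zero_le _)
        (Finset.mem_range.2 hμ)
      have h4 := Finset.single_le_sum (f := fun j => ∑ μ ∈ Finset.range (b j), Mf j μ)
        (fun i _ => Nat.zero_le _) (Finset.mem_univ j)
      have h5 : Mf j μ ≤ ∑ j, ∑ μ ∈ Finset.range (b j), Mf j μ := h3.trans h4
      omega
  set S : Finset (Fin v × Fin M) := Finset.univ.filter fun q => b q.1 ≤ (q.2 : ℕ) with hS
  set zz : Fin v × Fin M → κ := fun p => PowerSeries.coeff (p.2 : ℕ) (z p.1) with hzz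
  have h3 : ∀ (j : ℕ) (hj : j < v) (n : Fin M), zz (⟨j, hj⟩, n) ∈ OPT.acl F (zz '' (S : Set _)) := by
    intro j
    induction j using Nat.strong_induction_on with
    | _ j ih =>
      intro hj n
      by_cases hn : b ⟨j, hj⟩ ≤ (n : ℕ)
      · apply OPT.subset_acl
        exact ⟨(⟨j, hj⟩, n), by simpa [hS] using hn, rfl⟩
      · push Not at hn
        have h4 := hMf ⟨j, hj⟩ n hn
        refine OPT.acl_le ?_ h4
        rintro e ⟨l, m, hl, hm, rfl⟩
        exact ih l hl l.2 ⟨m, lt_of_lt_of_le hm (hMM _ _ hn)⟩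
  have h4 := OPT.tau_le_of_acl (K := F) zz S (fun q => h3 q.1 q.1.2 q.2)
  have h5 : S.card = ∑ j : Fin v, (M - b j) := by
    rw [hS, Finset.card_filter, Fintype.sum_prod_type]
    apply Finset.sum_congr rfl
    intro j _
    rw [← Finset.card_filter]
    have h6 : (Finset.univ.filter fun n : Fin M => b j ≤ (n : ℕ)).card =
        (Finset.Ico (b j) M).card := by
      apply Finset.card_bij (fun (n : Fin M) _ => (n : ℕ))
      · intro n hn
        rw [Finset.mem_filter] at hn
        rw [Finset.mem_Ico]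
        exact ⟨hn.2, n.2⟩
      · intro n _ m _ h
        exact Fin.ext h
      · intro n hn
        rw [Finset.mem_Ico] at hn
        exact ⟨⟨n, hn.2⟩, by simpa using hn.1, rfl⟩
    rw [h6, Nat.card_Ico]
  have h6 := hz M hML
  have h7 : ∑ j : Fin v, (M - b j) + ∑ j, b j = v * M := by
    rw [← Finset.sum_add_distrib]
    rw [Finset.sum_congr rfl (fun j _ => Nat.sub_add_cancel (hMb j))]
    simp
  have h8 : tau F (fun p : Fin v × Fin M => PowerSeries.coeff (p.2 : ℕ) (z p.1)) ≤ S.card := h4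
  omega



end Pool.Agent.OPN.UCL


namespace Pool.Agent.OPN

alias count := UCL.count_pr

end Pool.Agent.OPN
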