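import Pool.Agent.Lib_helper77.OPF.Defs
import Pool.Agent.Lib_helper77.KSZ.Fin4
/-!
# OPN, block UFIN: the records contradict relative strictness
-/

namespace Pool.Agent.OPN

open MvPolynomial Pool.Agent.KSS Pool.Agent.KSX Filter Topology
open scoped ENNReal

theorem ufin_term (N η q g x y : ℝ) (hN : 0 ≤ N) (hη : 0 ≤ η) (hq : 0 ≤ q) (m : ℕ)
    (h : N * (g - 3 * η * x) ≤ y) :
    N * (q ^ m * g - 3 * η * (q ^ m * |x|)) ≤ q ^ m * y := by
  have h1 : x ≤ |x| := le_abs_self _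
  have h2 : 3 * η * x ≤ 3 * η * |x| := mul_le_mul_of_nonneg_left h1 (by linarith)
  have h3 : N * (g - 3 * η * |x|) ≤ y :=
    (mul_le_mul_of_nonneg_left (by linarith) hN).trans h
  have h4 : 0 ≤ q ^ m := pow_nonneg hq m
  calc _ = q ^ m * (N * (g - 3 * η * |x|)) := by ring
    _ ≤ _ := mul_le_mul_of_nonneg_left h3 h4

theorem ufin_one {n k : ℕ} (d : Fin k → ℕ) (hd : ∀ i, 1 ≤ d i) (hF : ∑ i, d i ≤ n + k)
    (g : ℕ → ℝ) (hg0 : ∀ m, 0 ≤ g m)
    (hg : Tendsto (fun m : ℕ => g m / (m : ℝ) ^ (n + 1)) atTop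
      (𝓝 ((∏ i, d i : ℕ) / (n.factorial * (n + k + 1 - ∑ i, d i : ℕ)))))
    (h : ∀ (M0 T : ℕ) (η : ℝ), 0 < η → η < 1 → ∃ (N : ℕ) (R : Rec k), 0 < N ∧ (1 : ℝ) ≤ N * η ∧
      R.Of d (n + k + 1) ∧ (∀ j, R.g j = R.L) ∧ (T * N : ℝ) ≤ R.L ∧ R.c0 = 0 ∧
      R.cd (n + k + 1) Finset.univ ≤ N * (1 + (2 * k + 2) * η) ∧
      ∀ m ≤ M0, N * (g m - 3 * η * (NN d (n + k + 1) ∅ m : ℝ)) ≤
        R.sig d (n + k + 1) Finset.univ m)
    (ε : ℝ) (hε : 0 < ε) (T : ℝ) :
    ∃ (R : Rec k) (q : ℝ) (M0 : ℕ), R.Of d (n + k + 1) ∧ (∀ i, R.g i = R.L) ∧ R.c0 = 0 ∧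
      0 < q ∧ q < 1 ∧ 1 - q < ε ∧ T ≤ (1 - q) * M0 ∧
      0 < R.s d (n + k + 1) Finset.univ q M0 ∧
      T ≤ (1 - q) * R.L / R.s d (n + k + 1) Finset.univ q M0 ∧
      Ind d (n + k + 1) Finset.univ ≤
        R.cd (n + k + 1) Finset.univ / R.s d (n + k + 1) Finset.univ q M0 ∧
      R.cd (n + k + 1) Finset.univ / R.s d (n + k + 1) Finset.univ q M0 ≤
        Ind d (n + k + 1) Finset.univ * (1 + 2 * ε) := by
  classical
  set r : ℕ := n + k + 1 - ∑ i, d i with hr
  have hr1 : 1 ≤ r := by omega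
  have hrR : (0 : ℝ) < r := by exact_mod_cast hr1
  have hr1R : (1 : ℝ) ≤ r := by exact_mod_cast hr1
  have hInd : Ind d (n + k + 1) Finset.univ = r := by
    unfold Ind
    have h1 : r + ∑ i, d i = n + k + 1 := by omega
    have h2 : (r : ℝ) + ∑ i, (d i : ℝ) = ((n + k + 1 : ℕ) : ℝ) := by exact_mod_cast h1
    linarith
  set D : ℕ := ∏ i, d i with hD
  have hD1 : 1 ≤ D := Finset.one_le_prod' fun i _ => hd i
  have hDR : (0 : ℝ) < D := by exact_mod_cast hD1
  have hfac : (0 : ℝ) < n.factorial := by exact_mod_cast Nat.factorial_pos _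
  have hnR : (0 : ℝ) < (n : ℝ) + 1 := by positivity
  -- the constants
  set θ : ℝ := 1 / (r * (1 + ε)) with hθ
  have hθ0 : 0 < θ := by rw [hθ]; positivity
  have hθS : θ < 1 / r := by
    rw [hθ]
    apply div_lt_div_of_pos_left one_pos (by positivity)
    nlinarith
  obtain ⟨c1, hc1, hc1'⟩ := exists_between hθS
  obtain ⟨c2, hc2, hc2'⟩ := exists_between hc1'
  obtain ⟨θ', hθ', hθ''⟩ := exists_between hc1
  have hθ'0 : 0 < θ' := hθ0.trans hθ'
  have hc10 : 0 < c1 := hθ0.trans hc1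
  have hc20 : 0 < c2 := hc10.trans hc2
  -- growth
  have hgr : ∀ᶠ m : ℕ in atTop, (c2 * D / n.factorial) * (m : ℝ) ^ (n + 1) ≤ g m := by
    have h1 : c2 * D / n.factorial < (D : ℝ) / (n.factorial * (r : ℝ)) := by
      rw [div_lt_div_iff₀ hfac (by positivity)]
      have h2 : c2 * r < 1 := (lt_div_iff₀ hrR).1 hc2'
      have h3 : 0 < (D : ℝ) * n.factorial := by positivity
      nlinarith
    filter_upwards [hg.eventually (lt_mem_nhds h1), eventually_gt_atTop 0] with m hm hm0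
    have hm0' : (0 : ℝ) < (m : ℝ) ^ (n + 1) := by positivity
    exact ((lt_div_iff₀ hm0').1 hm).le
  have hab := Pool.Agent.KSF.fin_abel n g hg0 (c2 * D / n.factorial)
    (by positivity) hgr (c1 * ((n + 1) * D)) (by
      rw [Nat.factorial_succ]
      push_cast
      have h1 : c2 * (D : ℝ) / n.factorial * (((n : ℝ) + 1) * n.factorial) =
        c2 * ((n + 1) * D) := by field_simp
      rw [h1]
      exact mul_lt_mul_of_pos_right hc2 (by positivity))
  -- the denominator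
  have hcardk : (Finset.univ : Finset (Fin k)).card ≤ n + k + 1 := by
    rw [Finset.card_univ, Fintype.card_fin]; omega
  have hW := asy_W d hd (n + k + 1) Finset.univ hcardk
  have hexp : n + k + 1 - (Finset.univ : Finset (Fin k)).card + 1 = n + 2 := by
    rw [Finset.card_univ, Fintype.card_fin]; omega
  have hWlim : (((n + k + 1 : ℕ) : ℝ) - (Finset.univ : Finset (Fin k)).card) *
      ∏ i, (d i : ℝ) = (n + 1) * D := by
    rw [Finset.card_univ, Fintype.card_fin, hD]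
    push_cast
    ring
  rw [hexp, hWlim] at hW
  have hW1 : ∀ᶠ q : ℝ in 𝓝[<] 1, (1 - q) ^ (n + 2) * Wq d (n + k + 1) Finset.univ q <
      c1 / θ' * ((n + 1) * D) := by
    apply hW.eventually (gt_mem_nhds _)
    have : 1 < c1 / θ' := by rw [lt_div_iff₀ hθ'0]; linarith
    nlinarith [mul_pos hnR hDR]
  have hW0 : ∀ᶠ q : ℝ in 𝓝[<] 1, 0 < (1 - q) ^ (n + 2) * Wq d (n + k + 1) Finset.univ q :=
    hW.eventually (lt_mem_nhds (by positivity))
  have hq1 : ∀ᶠ q : ℝ in 𝓝[<] 1, q < 1 := self_mem_nhdsWithin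
  have hq0 : ∀ᶠ q : ℝ in 𝓝[<] 1, 0 < q :=
    nhdsWithin_le_nhds (Ioi_mem_nhds (show (0 : ℝ) < 1 by norm_num))
  have hqε : ∀ᶠ q : ℝ in 𝓝[<] 1, 1 - ε < q :=
    nhdsWithin_le_nhds (Ioi_mem_nhds (show 1 - ε < (1 : ℝ) by linarith))
  obtain ⟨q, h1, h2, h3, h4, h5, h6⟩ :=
    (hab.and (hW1.and (hW0.and (hq1.and (hq0.and hqε))))).exists
  have hpos : 0 < 1 - q := by linarith
  have hWpos : 0 < Wq d (n + k + 1) Finset.univ q := by
    by_contra hcon
    push Not at hcon
    have : (1 - q) ^ (n + 2) * Wq d (n + k + 1) Finset.univ q ≤ 0 :=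
      mul_nonpos_of_nonneg_of_nonpos (by positivity) hcon
    linarith
  have hM : ∀ᶠ M0 : ℕ in atTop, T ≤ (1 - q) * (M0 : ℝ) := by
    have : Tendsto (fun M0 : ℕ => (1 - q) * (M0 : ℝ)) atTop atTop :=
      tendsto_natCast_atTop_atTop.const_mul_atTop hpos
    exact this.eventually_ge_atTop T
  obtain ⟨M0, h7, h8⟩ := (h1.and hM).exists
  -- the constant `η`
  set K : ℝ := ∑ m ∈ Finset.range (M0 + 1), q ^ m * |(NN d (n + k + 1) ∅ m : ℝ)| with hK
  have hK0 : 0 ≤ K := by rw [hK]; positivity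
  set η : ℝ := min (min ((θ' - θ) * Wq d (n + k + 1) Finset.univ q / (3 * (K + 1)))
    (ε / ((2 * k + 2) * (1 + ε)))) (min (1 / (2 * k + 2)) (1 / 2)) with hη
  have hθθ : 0 < θ' - θ := by linarith
  have hη0 : 0 < η := by
    rw [hη]
    refine lt_min (lt_min (by positivity) (by positivity)) (lt_min (by positivity) (by norm_num))
  have hη1 : η ≤ (θ' - θ) * Wq d (n + k + 1) Finset.univ q / (3 * (K + 1)) :=
    (min_le_left _ _).trans (min_le_left _ _)
  have hη2 : η ≤ ε / ((2 * k + 2) * (1 + ε)) := (min_le_left _ _).trans (min_le_right _ _)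
  have hη3 : η ≤ 1 / (2 * k + 2) := (min_le_right _ _).trans (min_le_left _ _)
  have hη4 : η ≤ 1 / 2 := (min_le_right _ _).trans (min_le_right _ _)
  obtain ⟨T1, hT1⟩ := exists_nat_ge (2 * T / (1 - q))
  obtain ⟨N, R, hN, hNη, hRof, hRg, hRL, hRc, hRcd, hRsig⟩ := h M0 T1 η hη0 (by linarith)
  have hNR : (0 : ℝ) < N := by exact_mod_cast hN
  -- the codimension
  have hcd1 : (2 * (k : ℝ) + 2) * η ≤ 1 := by
    have : (0 : ℝ) < 2 * k + 2 := by positivity
    calc (2 * (k : ℝ) + 2) * η ≤ (2 * k + 2) * (1 / (2 * k + 2)) := by gcongr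
      _ = 1 := by field_simp
  have hcd2 : (1 + (2 * (k : ℝ) + 2) * η) * (1 + ε) ≤ 1 + 2 * ε := by
    have h9 : (2 * (k : ℝ) + 2) * (1 + ε) * η ≤ ε := by
      calc (2 * (k : ℝ) + 2) * (1 + ε) * η ≤
          (2 * k + 2) * (1 + ε) * (ε / ((2 * k + 2) * (1 + ε))) := by gcongr
        _ = ε := by field_simp
    linarith
  -- the slope
  have hLam : N * (θ * Wq d (n + k + 1) Finset.univ q) <
      R.Lam d (n + k + 1) Finset.univ q M0 := by
    have h9 : N * (∑ m ∈ Finset.range (M0 + 1), q ^ m * g m - 3 * η * K) ≤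
        R.Lam d (n + k + 1) Finset.univ q M0 := by
      unfold Rec.Lam
      rw [hK, Finset.mul_sum, ← Finset.sum_sub_distrib, Finset.mul_sum]
      refine Finset.sum_le_sum fun m hm => ?_
      exact ufin_term N η q (g m) _ _ hNR.le hη0.le h5.le m
        (hRsig m (by simpa [Nat.lt_succ_iff] using hm))
    have h10 : 3 * η * K < (θ' - θ) * Wq d (n + k + 1) Finset.univ q := by
      have h11 : 3 * η * (K + 1) ≤ (θ' - θ) * Wq d (n + k + 1) Finset.univ q := by
        calc 3 * η * (K + 1) ≤ 3 * ((θ' - θ) * Wq d (n + k + 1) Finset.univ q /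
            (3 * (K + 1))) * (K + 1) := by gcongr
          _ = _ := by field_simp
      have h12 : 3 * η * (K + 1) = 3 * η * K + 3 * η := by ring
      linarith
    have h11 : θ' * Wq d (n + k + 1) Finset.univ q <
        ∑ m ∈ Finset.range (M0 + 1), q ^ m * g m := by
      have h12 : θ' * ((1 - q) ^ (n + 2) * Wq d (n + k + 1) Finset.univ q) <
          c1 * ((n + 1) * D) := by
        calc θ' * ((1 - q) ^ (n + 2) * Wq d (n + k + 1) Finset.univ q)
            < θ' * (c1 / θ' * ((n + 1) * D)) := by gcongr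
          _ = c1 * ((n + 1) * D) := by field_simp
      have h13 : (1 - q) ^ (n + 2) * (θ' * Wq d (n + k + 1) Finset.univ q) <
          (1 - q) ^ (n + 2) * ∑ m ∈ Finset.range (M0 + 1), q ^ m * g m := by
        calc _ = θ' * ((1 - q) ^ (n + 2) * Wq d (n + k + 1) Finset.univ q) := by ring
          _ < _ := h12.trans_le h7
      exact lt_of_mul_lt_mul_left h13 (by positivity)
    refine lt_of_lt_of_le ?_ h9
    apply mul_lt_mul_of_pos_left _ hNR
    linarith
  set s : ℝ := R.s d (n + k + 1) Finset.univ q M0 with hs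
  have hsθ : N * θ < s := by
    rw [hs]
    unfold Rec.s
    rw [lt_div_iff₀ hWpos, mul_assoc]
    exact hLam
  have hs0 : 0 < s := lt_trans (by positivity) hsθ
  have hBsum : ∑ i ∈ (Finset.univ : Finset (Fin k)), d i < n + k + 1 := by omega
  have hKSS : (r : ℝ) * s ≤ R.cd (n + k + 1) Finset.univ := by
    have h9 := ss_exp d hd (n + k + 1) Finset.univ hBsum q h5 h4 M0 (fun _ => 0)
      (fun _ => le_rfl) r hrR.le (by rw [hInd]; simp) (by simp) R hRof (fun i _ => hRg i)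
    simpa using h9
  refine ⟨R, q, M0, hRof, hRg, hRc, h5, h4, by linarith, h8, hs0, ?_, ?_, ?_⟩
  · rw [le_div_iff₀ hs0]
    rcases le_total T 0 with hT | hT
    · have : T * s ≤ 0 := mul_nonpos_of_nonpos_of_nonneg hT hs0.le
      have : (0 : ℝ) ≤ (1 - q) * R.L := by positivity
      linarith
    · have h9 : s ≤ 2 * N := by
        have h10 : (r : ℝ) * s ≤ N * 2 := hKSS.trans (hRcd.trans (by
          apply mul_le_mul_of_nonneg_left _ hNR.le
          linarith))
        have h11 : s ≤ r * s := le_mul_of_one_le_left hs0.le hr1R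
        linarith
      have h10 : 2 * T ≤ (1 - q) * T1 := by
        rw [div_le_iff₀ hpos] at hT1
        linarith
      calc T * s ≤ T * (2 * N) := by gcongr
        _ = (2 * T) * N := by ring
        _ ≤ ((1 - q) * T1) * N := by gcongr
        _ = (1 - q) * (T1 * N) := by ring
        _ ≤ (1 - q) * R.L := by gcongr
  · rw [hInd, le_div_iff₀ hs0]
    exact hKSS
  · rw [hInd, div_le_iff₀ hs0]
    have h9 : (N : ℝ) ≤ r * (1 + ε) * s := by
      have h10 : (N : ℝ) = r * (1 + ε) * (N * θ) := by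
        rw [hθ]; field_simp
      rw [h10]
      gcongr
    have h10 : (N : ℝ) * (1 + (2 * k + 2) * η) ≤
        r * (1 + ε) * s * (1 + (2 * k + 2) * η) := by gcongr
    have h11 : r * (1 + ε) * s * (1 + (2 * k + 2) * η) =
        r * s * ((1 + (2 * (k : ℝ) + 2) * η) * (1 + ε)) := by ring
    have h12 : r * s * ((1 + (2 * (k : ℝ) + 2) * η) * (1 + ε)) ≤ r * s * (1 + 2 * ε) := by
      gcongr
    linarith

theorem fin_contra_pr {n k : ℕ} (d : Fin k → ℕ) (hd : ∀ i, 1 ≤ d i) (hF : ∑ i, d i ≤ n + k)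
    (hP : Pst d (n + k + 1) Finset.univ ∅) (g : ℕ → ℝ) (hg0 : ∀ m, 0 ≤ g m)
    (hg : Tendsto (fun m : ℕ => g m / (m : ℝ) ^ (n + 1)) atTop
      (𝓝 ((∏ i, d i : ℕ) / (n.factorial * (n + k + 1 - ∑ i, d i : ℕ)))))
    (h : ∀ (M0 T : ℕ) (η : ℝ), 0 < η → η < 1 → ∃ (N : ℕ) (R : Rec k), 0 < N ∧ (1 : ℝ) ≤ N * η ∧
      R.Of d (n + k + 1) ∧ (∀ j, R.g j = R.L) ∧ (T * N : ℝ) ≤ R.L ∧ R.c0 = 0 ∧
      R.cd (n + k + 1) Finset.univ ≤ N * (1 + (2 * k + 2) * η) ∧
      ∀ m ≤ M0, N * (g m - 3 * η * (NN d (n + k + 1) ∅ m : ℝ)) ≤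
        R.sig d (n + k + 1) Finset.univ m) : False := by
  have hstep : ∀ i : ℕ, ∃ (R : Rec k) (q : ℝ) (M0 : ℕ), R.Of d (n + k + 1) ∧
      (∀ i, R.g i = R.L) ∧ R.c0 = 0 ∧
      0 < q ∧ q < 1 ∧ 1 - q < 1 / ((i : ℝ) + 1) ∧ (i : ℝ) ≤ (1 - q) * M0 ∧
      0 < R.s d (n + k + 1) Finset.univ q M0 ∧
      (i : ℝ) ≤ (1 - q) * R.L / R.s d (n + k + 1) Finset.univ q M0 ∧
      Ind d (n + k + 1) Finset.univ ≤
        R.cd (n + k + 1) Finset.univ / R.s d (n + k + 1) Finset.univ q M0 ∧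
      R.cd (n + k + 1) Finset.univ / R.s d (n + k + 1) Finset.univ q M0 ≤
        Ind d (n + k + 1) Finset.univ * (1 + 2 * (1 / ((i : ℝ) + 1))) := by
    intro i
    have hpos : (0 : ℝ) < 1 / ((i : ℝ) + 1) := by positivity
    exact ufin_one d hd hF g hg0 hg h _ hpos i
  choose R q M0 h1 h2 h3 h4 h5 h6 h7 h8 h9 h10 h11 using hstep
  set U : Ultrafilter ℕ := Filter.hyperfilter ℕ with hU
  have hUle : (U : Filter ℕ) ≤ atTop := by
    rw [hU, ← Nat.cofinite_eq_atTop]
    exact Filter.hyperfilter_le_cofinite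
  have hinv : Tendsto (fun i : ℕ => 1 / ((i : ℝ) + 1)) atTop (𝓝 0) :=
    tendsto_one_div_add_atTop_nhds_zero_nat
  have hNE : NE d (n + k + 1) Finset.univ ∅ U R q M0 :=
    { of := Eventually.of_forall h1
      gB := Eventually.of_forall fun i j _ => h2 i j
      q01 := Eventually.of_forall fun i => ⟨h4 i, h5 i⟩
      qlim := by
        have h12 : Tendsto q atTop (𝓝 1) := by
          have h13 : Tendsto (fun i : ℕ => 1 - 1 / ((i : ℝ) + 1)) atTop (𝓝 (1 - 0)) :=
            tendsto_const_nhds.sub hinv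
          rw [sub_zero] at h13
          refine tendsto_of_tendsto_of_tendsto_of_le_of_le h13 tendsto_const_nhds
            (fun i => ?_) (fun i => (h5 i).le)
          have := h6 i
          simp only
          linarith
        exact h12.mono_left hUle
      M0lim := (tendsto_atTop_mono h7 tendsto_natCast_atTop_atTop).mono_left hUle
      spos := Eventually.of_forall h8
      Llim := (tendsto_atTop_mono h9 tendsto_natCast_atTop_atTop).mono_left hUle
      cdlim := by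
        have h12 : Tendsto (fun i : ℕ => Ind d (n + k + 1) Finset.univ *
            (1 + 2 * (1 / ((i : ℝ) + 1)))) atTop
            (𝓝 (Ind d (n + k + 1) Finset.univ * (1 + 2 * 0))) :=
          ((hinv.const_mul 2).const_add 1).const_mul _
        rw [mul_zero, add_zero, mul_one] at h12
        exact (tendsto_of_tendsto_of_tendsto_of_le_of_le tendsto_const_nhds h12 h10
          h11).mono_left hUle
      glim := by simp }
  have hlim := hP ℕ U R q M0 hNE
  have hzero : (fun i => ((R i).c0 : ℝ) / sn d (n + k + 1) Finset.univ R q M0 i) =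
      fun _ => (0 : ℝ) := by
    funext i
    rw [h3 i]
    simp
  rw [hzero] at hlim
  have := tendsto_nhds_unique hlim tendsto_const_nhds
  norm_num at this

alias fin_contra := fin_contra_pr

end Pool.Agent.OPN
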