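import Pool.Agent.Lib_helper56.KSS.J1
import Pool.Agent.Lib_helper80.KSX.Defs

/-!
# OPN (MP_2c2240_ag), block UGL: generic lift of a jet to an arc
-/

namespace Pool.Agent.OPN.UGL

open MvPolynomial Pool.Agent.KSS Pool.Agent.KSX Filter Topology
open scoped ENNReal

section

variable {F κ : Type} [Field F] [Field κ] [Algebra F κ] {v L : ℕ}

/-- the field of rational functions in the new coefficients -/
abbrev KK (κ : Type) [Field κ] (v : ℕ) : Type := FractionRing (MvPolynomial (Fin v × ℕ) κ)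

/-- the new coefficients -/
noncomputable def ee (κ : Type) [Field κ] (v : ℕ) (q : Fin v × ℕ) : KK κ v :=
  algebraMap (MvPolynomial (Fin v × ℕ) κ) (KK κ v) (X q)

/-- the generic lift -/
noncomputable def zz (x : Fin v → Fin L → κ) (j : Fin v) : PowerSeries (KK κ v) :=
  PowerSeries.mk fun μ => if h : μ < L then algebraMap κ (KK κ v) (x j ⟨μ, h⟩) else ee κ v (j, μ)

theorem coeff_zz (x : Fin v → Fin L → κ) (j : Fin v) (μ : ℕ) :
    PowerSeries.coeff μ (zz x j) =
      if h : μ < L then algebraMap κ (KK κ v) (x j ⟨μ, h⟩) else ee κ v (j, μ) := by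
  rw [zz, PowerSeries.coeff_mk]

theorem ee_ind : AlgebraicIndependent κ (ee κ v) := by
  have h1 : AlgebraicIndependent κ (X : Fin v × ℕ → MvPolynomial (Fin v × ℕ) κ) :=
    algebraicIndependent_X _ _
  exact h1.map' (f := IsScalarTower.toAlgHom κ (MvPolynomial (Fin v × ℕ) κ) (KK κ v))
    (IsFractionRing.injective (MvPolynomial (Fin v × ℕ) κ) (KK κ v))

theorem zz_sub_dvd (x : Fin v → Fin L → κ) (j : Fin v) :
    (PowerSeries.X : PowerSeries (KK κ v)) ^ L ∣
      zz x j - PowerSeries.map (algebraMap κ (KK κ v)) (arc (x j)) := by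
  rw [PowerSeries.X_pow_dvd_iff]
  intro μ hμ
  rw [map_sub, coeff_zz, PowerSeries.coeff_map, arc, PowerSeries.coeff_mk, dif_pos hμ, dif_pos hμ,
    sub_self]

theorem aeval_sub_dvd (P : MvPolynomial (Fin v) F) {A : Type} [CommRing A] [Algebra F A]
    (y z : Fin v → A) (I : Ideal A) (h : ∀ j, y j - z j ∈ I) :
    aeval y P - aeval z P ∈ I := by
  rw [← Ideal.Quotient.eq]
  have h1 : ∀ w : Fin v → A, Ideal.Quotient.mk I (aeval w P) =
      aeval (fun j => Ideal.Quotient.mkₐ F I (w j)) P := by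
    intro w
    have h2 := MvPolynomial.comp_aeval_apply (R := F) (Ideal.Quotient.mkₐ F I) P (f := w)
    exact h2
  rw [h1, h1]
  congr 1
  congr 1
  funext j
  exact Ideal.Quotient.eq.2 (h j)

theorem map_ev (x : Fin v → Fin L → κ) (P : MvPolynomial (Fin v) F) :
    PowerSeries.map (algebraMap κ (KK κ v)) (ev x P) =
      aeval (fun j => PowerSeries.map (algebraMap κ (KK κ v)) (arc (x j))) P := by
  unfold ev
  induction P using MvPolynomial.induction_on with
  | C a =>
    rw [aeval_C, aeval_C]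
    ext1 n
    rw [PowerSeries.coeff_map, PowerSeries.algebraMap_apply, PowerSeries.algebraMap_apply,
      PowerSeries.coeff_C, PowerSeries.coeff_C]
    split_ifs
    · exact (IsScalarTower.algebraMap_apply F κ (KK κ v) a).symm
    · rw [map_zero]
  | add p q hp hq => rw [map_add, map_add, map_add, hp, hq]
  | mul_X p i hp => rw [map_mul, map_mul, map_mul, hp, aeval_X, aeval_X]

theorem dvd_part (x : Fin v → Fin L → κ) (P : MvPolynomial (Fin v) F) {l : ℕ} (hl : l ≤ L)
    (h : (PowerSeries.X : PowerSeries κ) ^ l ∣ ev x P) :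
    (PowerSeries.X : PowerSeries (KK κ v)) ^ l ∣ aeval (zz x) P := by
  have h1 : (PowerSeries.X : PowerSeries (KK κ v)) ^ l ∣
      PowerSeries.map (algebraMap κ (KK κ v)) (ev x P) := by
    have h2 := map_dvd (PowerSeries.map (algebraMap κ (KK κ v))) h
    rwa [map_pow, PowerSeries.map_X] at h2
  rw [map_ev] at h1
  have h3 := aeval_sub_dvd P (zz x)
    (fun j => PowerSeries.map (algebraMap κ (KK κ v)) (arc (x j)))
    (Ideal.span {(PowerSeries.X : PowerSeries (KK κ v)) ^ l}) (fun j => by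
      rw [Ideal.mem_span_singleton]
      exact (pow_dvd_pow _ hl).trans (zz_sub_dvd x j))
  rw [Ideal.mem_span_singleton] at h3
  have h4 := dvd_add h3 h1
  rwa [sub_add_cancel] at h4

theorem tau_part (x : Fin v → Fin L → κ) {M : ℕ} (hM : L ≤ M) :
    tauJ F x + v * (M - L) ≤
      tau F (fun p : Fin v × Fin M => PowerSeries.coeff (p.2 : ℕ) (zz x p.1)) := by
  classical
  obtain ⟨S, hS1, hS2⟩ := Pool.Agent.Lib_helper56.KSS.exists_tau (K := F)
    (fun p : Fin v × Fin L => x p.1 p.2)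
  have hS1' : S.card = tauJ F x := by
    rw [hS1]
    unfold tauJ
    rw [Pool.Agent.Lib_helper56.KSS.tau_eq]
  rw [Pool.Agent.Lib_helper56.KSS.tau_eq]
  let f : (Fin v × Fin (M - L)) ⊕ S → Fin v × Fin M := Sum.elim
    (fun q => (q.1, ⟨L + q.2, by have := q.2.2; omega⟩))
    (fun s => (s.1.1, ⟨s.1.2, s.1.2.2.trans_le hM⟩))
  have hinj : Function.Injective
      (fun q : Fin v × Fin (M - L) => ((q.1, L + (q.2 : ℕ)) : Fin v × ℕ)) := by
    rintro ⟨a, b⟩ ⟨a', b'⟩ h
    simp only [Prod.mk.injEq, Nat.add_left_cancel_iff] at h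
    exact Prod.ext h.1 (Fin.ext h.2)
  have h1 : AlgebraicIndependent κ
      (fun q : Fin v × Fin (M - L) => ee κ v (q.1, L + (q.2 : ℕ))) :=
    ee_ind.comp _ hinj
  have h2 := AlgebraicIndependent.sumElim_comp (A := KK κ v) hS2 h1
  have h3 : AlgebraicIndependent F (fun j => (fun p : Fin v × Fin M =>
      PowerSeries.coeff (p.2 : ℕ) (zz x p.1)) (f j)) := by
    have h4 : (fun j => (fun p : Fin v × Fin M =>
        PowerSeries.coeff (p.2 : ℕ) (zz x p.1)) (f j)) =
        Sum.elim (fun q : Fin v × Fin (M - L) => ee κ v (q.1, L + (q.2 : ℕ)))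
          (algebraMap κ (KK κ v) ∘ fun i : S => x i.1.1 i.1.2) := by
      funext j
      rcases j with q | s
      · show PowerSeries.coeff (L + (q.2 : ℕ)) (zz x q.1) = ee κ v (q.1, L + (q.2 : ℕ))
        rw [coeff_zz, dif_neg (by omega)]
      · show PowerSeries.coeff (s.1.2 : ℕ) (zz x s.1.1) = algebraMap κ (KK κ v) (x s.1.1 s.1.2)
        rw [coeff_zz, dif_pos s.1.2.2]
    rw [h4]
    exact h2
  have h5 := Pool.Agent.Lib_helper56.KSS.card_le_tau' (K := F)
    (fun p : Fin v × Fin M => PowerSeries.coeff (p.2 : ℕ) (zz x p.1)) f h3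
  refine le_trans (le_of_eq ?_) h5
  rw [Nat.card_eq_fintype_card, Fintype.card_sum, Fintype.card_prod, Fintype.card_fin,
    Fintype.card_fin, Fintype.card_coe, hS1', add_comm]

end

theorem gen_lift_pr {F κ : Type} [Field F] [Field κ] [Algebra F κ] {v L : ℕ}
    (x : Fin v → Fin L → κ) :
    ∃ (κ' : Type) (_ : Field κ') (_ : Algebra F κ') (z : Fin v → PowerSeries κ'),
      (∀ (P : MvPolynomial (Fin v) F) (l : ℕ), l ≤ L →
        (PowerSeries.X : PowerSeries κ) ^ l ∣ ev x P →
          (PowerSeries.X : PowerSeries κ') ^ l ∣ aeval z P) ∧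
      (∀ M, L ≤ M → tauJ F x + v * (M - L) ≤
        tau F (fun p : Fin v × Fin M => PowerSeries.coeff (p.2 : ℕ) (z p.1))) ∧
      ∀ (j : Fin v) (h : 0 < L), x j ⟨0, h⟩ ≠ 0 → PowerSeries.constantCoeff (z j) ≠ 0 := by
  refine ⟨KK κ v, inferInstance, inferInstance, zz x, ?_, ?_, ?_⟩
  · intro P l hl h
    exact dvd_part x P hl h
  · intro M hM
    exact tau_part x hM
  · intro j h hx h0
    rw [← PowerSeries.coeff_zero_eq_constantCoeff_apply, coeff_zz, dif_pos h] at h0
    exact hx ((map_eq_zero _).1 h0)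

end Pool.Agent.OPN.UGL

namespace Pool.Agent.OPN

alias gen_lift := UGL.gen_lift_pr

end Pool.Agent.OPN
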