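import Pool.Agent.Lib_helper80.OPF.Defs
/-!
# OPN (MP_2c2240_ag), block ULF: lifting algebraic elements from the residue field
-/

set_option autoImplicit false

namespace Pool.Agent.OPN

open MvPolynomial

namespace ULF

open IntermediateField.algebraAdjoinAdjoin in
theorem mem_acl_iff {K E : Type} [Field K] [Field E] [Algebra K E] (s : Set E) (a : E) :
    a ∈ OPT.acl K s ↔ IsAlgebraic (Algebra.adjoin K s) a := by
  rw [IsFractionRing.isAlgebraic_iff (Algebra.adjoin K s) (IntermediateField.adjoin K s) E]
  unfold OPT.acl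
  rw [IntermediateField.mem_restrictScalars, mem_algebraicClosure_iff]

/-- elements of the relative algebraic closure of `K(x)` are roots of a polynomial over `K[x]` -/
theorem exists_poly {K k : Type} [Field K] [Field k] [Algebra K k] {I : Type} (x : I → k)
    (hx : AlgebraicIndependent K x) (β : k) (hβ : β ∈ OPT.acl K (Set.range x)) :
    ∃ Q : Polynomial (MvPolynomial I K), Q ≠ 0 ∧
      Polynomial.eval₂ (aeval x : MvPolynomial I K →ₐ[K] k).toRingHom β Q = 0 := by
  rw [mem_acl_iff] at hβ
  obtain ⟨P, hP, hPβ⟩ := hβ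
  refine ⟨P.map hx.aevalEquiv.symm.toRingEquiv.toRingHom, ?_, ?_⟩
  · rw [Polynomial.map_ne_zero_iff (RingEquiv.injective _)]
    exact hP
  · rw [Polynomial.eval₂_map]
    rw [Polynomial.aeval_def] at hPβ
    rw [← hPβ]
    congr 1
    ext a
    have h := hx.algebraMap_aevalEquiv (hx.aevalEquiv.symm a)
    rw [AlgEquiv.apply_symm_apply] at h
    exact h.symm

end ULF

/-- (LF) algebraic elements of the residue field lift to algebraic elements. -/
theorem lift_acl_pr {K E k : Type} [Field K] [Field E] [IsAlgClosed E] [Algebra K E]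
    (O : ValuationSubring E) (hK : ∀ a : K, algebraMap K E a ∈ O) [Field k] [Algebra K k]
    (π : O →+* k) (hπ : Function.Surjective π)
    (hπK : ∀ a, π ⟨algebraMap K E a, hK a⟩ = algebraMap K k a) {I : Type} (z : I → O)
    (hz : AlgebraicIndependent K fun i => π (z i)) (β : k)
    (hβ : β ∈ OPT.acl K (Set.range fun i => π (z i))) :
    ∃ b : O, π b = β ∧ (b : E) ∈ OPT.acl K (Set.range fun i => (z i : E)) := by
  classical
  obtain ⟨Q, hQ0, hQβ⟩ := ULF.exists_poly _ hz β hβ
  -- the structure map `K → O` and the evaluation `K[Y] → O`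
  set c : K →+* O := (algebraMap K E).codRestrict O.toSubring hK with hc
  set ev : MvPolynomial I K →+* O := eval₂Hom c z with hev
  have hπev : π.comp ev = (aeval (fun i => π (z i)) : MvPolynomial I K →ₐ[K] k).toRingHom := by
    apply MvPolynomial.ringHom_ext
    · intro a
      simp only [RingHom.comp_apply, hev, coe_eval₂Hom, eval₂_C]
      rw [show (aeval (fun i => π (z i)) : MvPolynomial I K →ₐ[K] k).toRingHom (C a) =
        aeval (fun i => π (z i)) (C a : MvPolynomial I K) from rfl, aeval_C]
      exact hπK a
    · intro i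
      simp only [RingHom.comp_apply, hev, coe_eval₂Hom, eval₂_X]
      rw [show (aeval (fun i => π (z i)) : MvPolynomial I K →ₐ[K] k).toRingHom (X i) =
        aeval (fun i => π (z i)) (X i : MvPolynomial I K) from rfl, aeval_X]
  have hEev : (algebraMap O E).comp ev =
      (aeval (fun i => (z i : E)) : MvPolynomial I K →ₐ[K] E).toRingHom := by
    apply MvPolynomial.ringHom_ext
    · intro a
      simp only [RingHom.comp_apply, hev, coe_eval₂Hom, eval₂_C]
      rw [show (aeval (fun i => (z i : E)) : MvPolynomial I K →ₐ[K] E).toRingHom (C a) =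
        aeval (fun i => (z i : E)) (C a : MvPolynomial I K) from rfl, aeval_C]
      rfl
    · intro i
      simp only [RingHom.comp_apply, hev, coe_eval₂Hom, eval₂_X]
      rw [show (aeval (fun i => (z i : E)) : MvPolynomial I K →ₐ[K] E).toRingHom (X i) =
        aeval (fun i => (z i : E)) (X i : MvPolynomial I K) from rfl, aeval_X]
      rfl
  have hinjE : Function.Injective (algebraMap O E) := Subtype.val_injective
  -- the leading coefficient is a unit
  have hlead : ev Q.leadingCoeff ∉ RingHom.ker π := by
    rw [RingHom.mem_ker]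
    have h1 : π (ev Q.leadingCoeff) = (π.comp ev) Q.leadingCoeff := rfl
    rw [h1, hπev]
    intro h2
    have h3 : Q.leadingCoeff = 0 := hz (by rw [map_zero]; exact h2)
    exact hQ0 (Polynomial.leadingCoeff_eq_zero.1 h3)
  have hmax : (RingHom.ker π).IsMaximal := RingHom.ker_isMaximal_of_surjective π hπ
  have hunit : IsUnit (ev Q.leadingCoeff) := by
    by_contra hnu
    apply hlead
    rw [IsLocalRing.eq_maximalIdeal hmax, IsLocalRing.mem_maximalIdeal]
    exact hnu
  obtain ⟨u, hu⟩ := hunit
  -- the monic polynomial over `O`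
  set p : Polynomial O := Polynomial.C (↑u⁻¹ : O) * Q.map ev with hp
  have hdeg : (Q.map ev).leadingCoeff = ev Q.leadingCoeff := by
    apply Polynomial.leadingCoeff_map_of_leadingCoeff_ne_zero
    rw [← hu]
    exact u.ne_zero
  have hpm : p.Monic := by
    rw [Polynomial.Monic, hp, Polynomial.leadingCoeff_mul, Polynomial.leadingCoeff_C, hdeg, ← hu]
    exact u.inv_mul
  have hpEm : (p.map (algebraMap O E)).Monic := hpm.map _
  have hroots : ∀ r ∈ (p.map (algebraMap O E)).roots, r ∈ O := by
    intro r hr
    have hr1 : Polynomial.eval₂ (algebraMap O E) r p = 0 := by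
      have := (Polynomial.mem_roots hpEm.ne_zero).1 hr
      rwa [Polynomial.IsRoot.def, Polynomial.eval_map] at this
    have hint : IsIntegral O r := ⟨p, hpm, hr1⟩
    obtain ⟨y, hy⟩ := IsIntegrallyClosed.isIntegral_iff.1 hint
    rw [← hy]
    exact y.2
  have hsplit : p.map (algebraMap O E) =
      ((p.map (algebraMap O E)).roots.map fun a => Polynomial.X - Polynomial.C a).prod :=
    (IsAlgClosed.splits _).eq_prod_roots_of_monic hpEm
  -- the multiset of roots in `O`
  obtain ⟨s, hsroots⟩ : ∃ s : Multiset O,
      s.map (algebraMap O E) = (p.map (algebraMap O E)).roots := by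
    refine ⟨(p.map (algebraMap O E)).roots.map fun r => if h : r ∈ O then ⟨r, h⟩ else 0, ?_⟩
    rw [Multiset.map_map]
    conv_rhs => rw [← Multiset.map_id (p.map (algebraMap O E)).roots]
    apply Multiset.map_congr rfl
    intro r hr
    simp only [Function.comp_apply, dif_pos (hroots r hr), id]
    rfl
  have hfac : p = (s.map fun a => Polynomial.X - Polynomial.C a).prod := by
    apply Polynomial.map_injective _ hinjE
    rw [hsplit, ← hsroots, Polynomial.map_multiset_prod, Multiset.map_map, Multiset.map_map]
    congr 1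
    apply Multiset.map_congr rfl
    intro a _
    simp
  -- apply `π`
  have hev0 : Polynomial.eval β (p.map π) = 0 := by
    rw [hp, Polynomial.map_mul, Polynomial.eval_mul, Polynomial.map_map, hπev,
      Polynomial.eval_map (aeval fun i => π (z i)).toRingHom, hQβ, mul_zero]
  have hex : ∃ b ∈ s, π b = β := by
    rw [hfac, Polynomial.map_multiset_prod, Multiset.map_map, Polynomial.eval_multiset_prod,
      Multiset.map_map, Multiset.prod_eq_zero_iff, Multiset.mem_map] at hev0
    obtain ⟨b, hb, hb0⟩ := hev0
    refine ⟨b, hb, ?_⟩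
    simp only [Function.comp_apply, Polynomial.map_sub, Polynomial.map_X, Polynomial.map_C,
      Polynomial.eval_sub, Polynomial.eval_X, Polynomial.eval_C] at hb0
    exact (sub_eq_zero.1 hb0).symm
  obtain ⟨b, hb, hbβ⟩ := hex
  refine ⟨b, hbβ, ?_⟩
  -- `b` is algebraic over `K(z)`
  have hbroot : Polynomial.eval₂ (algebraMap O E) (b : E) p = 0 := by
    have h1 : (b : E) ∈ (p.map (algebraMap O E)).roots := by
      rw [← hsroots]
      exact Multiset.mem_map_of_mem (algebraMap O E) hb
    have := (Polynomial.mem_roots hpEm.ne_zero).1 h1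
    rwa [Polynomial.IsRoot.def, Polynomial.eval_map] at this
  have hQb : Polynomial.eval₂ (aeval (fun i => (z i : E)) : MvPolynomial I K →ₐ[K] E).toRingHom
      (b : E) Q = 0 := by
    rw [hp, Polynomial.eval₂_mul, Polynomial.eval₂_C, Polynomial.eval₂_map, hEev, mul_eq_zero]
      at hbroot
    rcases hbroot with h | h
    · exfalso
      have h1 : (↑u⁻¹ : O) = 0 := hinjE (by rw [map_zero]; exact h)
      exact (u⁻¹).ne_zero h1
    · exact h
  rw [ULF.mem_acl_iff]
  -- the evaluation with values in `K[z]`
  have hmem : ∀ P : MvPolynomial I K, aeval (fun i => (z i : E)) P ∈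
      Algebra.adjoin K (Set.range fun i => (z i : E)) := by
    intro P
    rw [Algebra.adjoin_range_eq_range_aeval]
    exact ⟨P, rfl⟩
  set e2 : MvPolynomial I K →+* Algebra.adjoin K (Set.range fun i => (z i : E)) :=
    (aeval (fun i => (z i : E)) : MvPolynomial I K →ₐ[K] E).toRingHom.codRestrict
      (Algebra.adjoin K (Set.range fun i => (z i : E))) hmem with he2
  have hinj2 : e2 Q.leadingCoeff ≠ 0 := by
    intro h
    have h1 : (aeval (fun i => (z i : E)) : MvPolynomial I K →ₐ[K] E).toRingHom
        Q.leadingCoeff = 0 := congrArg Subtype.val h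
    rw [← hEev, RingHom.comp_apply, ← hu] at h1
    exact u.ne_zero (hinjE (by rw [map_zero]; exact h1))
  refine ⟨Q.map e2, ?_, ?_⟩
  · intro h
    have h1 := Polynomial.leadingCoeff_map_of_leadingCoeff_ne_zero e2 hinj2
    rw [h, Polynomial.leadingCoeff_zero] at h1
    exact hinj2 h1.symm
  · rw [Polynomial.aeval_def, Polynomial.eval₂_map]
    rw [← hQb]
    congr 1

end Pool.Agent.OPN

namespace Pool.Agent.OPN

alias lift_acl := lift_acl_pr

end Pool.Agent.OPN
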