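import Pool.Agent.Lib_helper77.OPF.UTB
import Pool.Agent.Lib_helper77.OPF.UAD
/-!
# OPN, block ULV: the records of the approximating jets over the ultraproduct
-/

namespace Pool.Agent.OPN

open MvPolynomial Pool.Agent.KSS Pool.Agent.KSX Filter Topology
open scoped ENNReal

attribute [local instance] upAlg

theorem ulv_anti {F κ : Type} [Field F] [Field κ] [Algebra F κ] {v L : ℕ}
    (x : Fin v → Fin L → κ) (m : ℕ) {l l' : ℕ} (h : l ≤ l') : Fil F x m l' ≤ Fil F x m l :=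
  fun _ hP => ⟨hP.1, (pow_dvd_pow _ h).trans hP.2⟩

/-- general form -/
theorem ulv_ad {k W : Type} [Field k] [AddCommGroup W] [Module k W] (H : Submodule k W)
    [Module.Finite k H] (D : ℕ) (hD : Module.finrank k H = D) (Fl : ℕ → Submodule k W)
    (hH : ∀ l, Fl l ≤ H) (hanti : Antitone Fl) (h0 : H ≤ Fl 0) (Λ : ℕ) :
    ∃ (b : Fin D → W) (o : Fin D → ℕ), LinearIndependent k b ∧
      (∀ j, o j ≤ Λ) ∧ (∀ j, b j ∈ Fl (o j)) ∧
      ∑ j, o j = ∑ l ∈ Finset.Icc 1 Λ, Module.finrank k (Fl l) := by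
  obtain ⟨b, o, h1, h2, h3, h4⟩ := adapted (k := k) (V := H) D hD
    (fun l => (Fl l).comap H.subtype)
    (fun l l' h => Submodule.comap_mono (hanti h)) (by
      rw [Submodule.eq_top_iff']
      intro P
      rw [Submodule.mem_comap]
      exact h0 P.2) Λ
  refine ⟨fun j => (b j : W), o, h1.map' H.subtype (Submodule.ker_subtype H), h2,
    fun j => h3 j, ?_⟩
  rw [h4]
  refine Finset.sum_congr rfl fun l _ => ?_
  exact (Submodule.comapSubtypeEquivOfLe (hH l)).finrank_eq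

/-- a basis of the forms of degree `m` adapted to the filtration of a jet -/
theorem ulv_adapted {F κ : Type} [Field F] [Field κ] [Algebra F κ] {v L : ℕ}
    (x : Fin v → Fin L → κ) (m D : ℕ)
    (hD : Module.finrank F (homogeneousSubmodule (Fin v) F m) = D) (Λ : ℕ) :
    ∃ (b : Fin D → MvPolynomial (Fin v) F) (o : Fin D → ℕ), LinearIndependent F b ∧
      (∀ j, o j ≤ Λ) ∧ (∀ j, b j ∈ Fil F x m (o j)) ∧
      ∑ j, o j = ∑ l ∈ Finset.Icc 1 Λ, Module.finrank F (Fil F x m l) := by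
  have := bas_fin F v m
  exact ulv_ad (homogeneousSubmodule (Fin v) F m) D hD (fun l => Fil F x m l)
    (fun l => bas_Fil_le F x m l) (fun l l' h => ulv_anti x m h)
    (fun P hP => ⟨hP, by rw [pow_zero]; exact one_dvd _⟩) Λ

/-- limits along the ultrafilter -/
theorem ulv_lim (U : Ultrafilter ℕ) (a : ℕ → ℝ) (c : ℝ)
    (h : ∀ᶠ i in (U : Filter ℕ), 0 ≤ a i ∧ a i ≤ c) :
    ∃ w : ℝ, 0 ≤ w ∧ w ≤ c ∧ Tendsto a (U : Filter ℕ) (𝓝 w) := by
  have h1 : Set.Icc 0 c ∈ U.map a := h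
  obtain ⟨w, hw, hw'⟩ := isCompact_Icc.ultrafilter_le_nhds (U.map a)
    (Filter.le_principal_iff.2 h1)
  exact ⟨w, hw.1, hw.2, hw'⟩

/-- counting the levels -/
theorem ulv_count (L' : ℕ) (y z : ℝ) (hyz : y ≤ z) (hL : L' = ⌊z⌋₊) :
    y - 1 ≤ (((Finset.Icc 1 L').filter fun l : ℕ => (l : ℝ) ≤ y).card : ℝ) := by
  have h1 : Finset.Icc 1 ⌊y⌋₊ ⊆ (Finset.Icc 1 L').filter fun l : ℕ => (l : ℝ) ≤ y := by
    intro l hl
    rw [Finset.mem_Icc] at hl
    rw [Finset.mem_filter, Finset.mem_Icc]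
    refine ⟨⟨hl.1, hl.2.trans (by rw [hL]; exact Nat.floor_mono hyz)⟩, ?_⟩
    exact (Nat.le_floor_iff' (by omega)).1 hl.2
  have h2 := Finset.card_le_card h1
  rw [Nat.card_Icc, Nat.add_sub_cancel] at h2
  have h3 : ((⌊y⌋₊ : ℕ) : ℝ) ≤
      (((Finset.Icc 1 L').filter fun l : ℕ => (l : ℝ) ≤ y).card : ℝ) := by exact_mod_cast h2
  have h4 := Nat.lt_floor_add_one y
  linarith

/-- double counting -/
theorem ulv_sum {D : ℕ} (L' : ℕ) (y : Fin D → ℝ) :
    ∑ l ∈ Finset.Icc 1 L', ((Finset.univ.filter fun j => (l : ℝ) ≤ y j).card : ℝ) =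
      ∑ j, (((Finset.Icc 1 L').filter fun l : ℕ => (l : ℝ) ≤ y j).card : ℝ) := by
  simp only [Finset.card_filter, Nat.cast_sum]
  rw [Finset.sum_comm]

/-- the sum over all levels is at most the sum over the levels `≤ Λ` -/
theorem ulv_cut {F κ : Type} [Field F] [Field κ] [Algebra F κ] {v L : ℕ}
    (x : Fin v → Fin L → κ) (m Λ : ℕ) (hΛ : Λ ≤ L) (ρ : ℝ)
    (h : (Module.finrank F (Fil F x m Λ) : ℝ) ≤ ρ) :
    ∑ l ∈ Finset.Icc 1 L, ((Module.finrank F (Fil F x m l) : ℝ) - ρ) ≤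
      ∑ l ∈ Finset.Icc 1 Λ, ((Module.finrank F (Fil F x m l) : ℝ) - ρ) := by
  have h1 : Finset.Icc 1 Λ ⊆ Finset.Icc 1 L := Finset.Icc_subset_Icc le_rfl hΛ
  rw [← Finset.sum_sdiff h1]
  have h2 : ∑ l ∈ Finset.Icc 1 L \ Finset.Icc 1 Λ,
      ((Module.finrank F (Fil F x m l) : ℝ) - ρ) ≤ 0 := by
    apply Finset.sum_nonpos
    intro l hl
    rw [Finset.mem_sdiff, Finset.mem_Icc, Finset.mem_Icc] at hl
    have h3 : Λ ≤ l := by omega
    have := bas_finFil F x m Λ
    have h4 : Module.finrank F (Fil F x m l) ≤ Module.finrank F (Fil F x m Λ) :=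
      Submodule.finrank_mono (ulv_anti x m h3)
    have h5 : (Module.finrank F (Fil F x m l) : ℝ) ≤ Module.finrank F (Fil F x m Λ) := by
      exact_mod_cast h4
    linarith
  linarith

theorem level_rec_pr {n k : ℕ} (d : Fin k → ℕ) (hd : ∀ i, 1 ≤ d i) (hF : ∑ i, d i ≤ n + k)
    (g : ℕ → ℝ) (U : Ultrafilter ℕ) (hU : (U : Filter ℕ) ≤ atTop) (V : ℕ → Viol n k)
    (hV : ∀ i, (V i).Ok d g i i (1 / ((i : ℝ) + 1)))
    (hgen : ∀ H : MvPolynomial (CI d (n + k + 1)) ℤ, H ≠ 0 →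
      ∀ᶠ i in (U : Filter ℕ), Hv (d := d) H (V i).f ≠ 0) (M0 : ℕ) (T : ℕ) (η : ℝ) (hη : 0 < η)
    (hη1 : η < 1) :
    ∃ (N : ℕ) (R : Rec k), 0 < N ∧ (1 : ℝ) ≤ N * η ∧ R.Of d (n + k + 1) ∧ (∀ j, R.g j = R.L) ∧
      (T * N : ℝ) ≤ R.L ∧ R.c0 = 0 ∧
      R.cd (n + k + 1) Finset.univ ≤ N * (1 + (2 * k + 2) * η) ∧
      ∀ m ≤ M0, N * (g m - 3 * η * (NN d (n + k + 1) ∅ m : ℝ)) ≤
        R.sig d (n + k + 1) Finset.univ m := by
  classical
  -- the cut-off
  choose lam0 hlam0 using fun m => tail_bound_pr d hd hF g U hU V hV hgen m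
  obtain ⟨lam, hlam⟩ : ∃ lam, lam = T + 3 + ∑ m ∈ Finset.range (M0 + 1), lam0 m := ⟨_, rfl⟩
  have hlam1 : 1 ≤ lam := by omega
  have hlamm : ∀ m ≤ M0, lam0 m ≤ lam := by
    intro m hm
    have h1 : lam0 m ≤ ∑ m ∈ Finset.range (M0 + 1), lam0 m :=
      Finset.single_le_sum (f := lam0) (fun i _ => Nat.zero_le _)
        (Finset.mem_range.2 (Nat.lt_succ_of_le hm))
    rw [hlam]
    exact h1.trans (Nat.le_add_left _ _)
  have hae : ∀ᶠ i in (U : Filter ℕ), lam ≤ i := (eventually_ge_atTop lam).filter_mono hU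
  have haeM : ∀ᶠ i in (U : Filter ℕ), M0 ≤ i := (eventually_ge_atTop M0).filter_mono hU
  have : CharZero (UP U fun i => (V i).F) := utv_char U hU V hV
  have hG := utv_gen U V hV hgen
  -- adapted bases
  let Dm : ℕ → ℕ := fun m => (NN d (n + k + 1) ∅ m).toNat
  have hDm : ∀ m (F : Type) [Field F],
      Module.finrank F (homogeneousSubmodule (Fin (n + k + 1)) F m) = Dm m := by
    intro m F _
    have h1 := finrank_hom_pr F d (n + k + 1) m
    show _ = (NN d (n + k + 1) ∅ m).toNat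
    omega
  have hDmR : ∀ m, (Dm m : ℝ) = (NN d (n + k + 1) ∅ m : ℝ) := by
    intro m
    have h1 := finrank_hom_pr ℚ d (n + k + 1) m
    rw [hDm m ℚ] at h1
    exact_mod_cast h1
  choose b o hb1 hb2 hb3 hb4 using fun i m =>
    ulv_adapted (F := (V i).F) (V i).x m (Dm m) (hDm m (V i).F) (lam * (V i).A)
  -- the limits of the orders
  have hA0 : ∀ i, (0 : ℝ) < (V i).A := fun i => by exact_mod_cast (hV i).A1
  choose w hw0 hw1 hw2 using fun (m : ℕ) (j : Fin (Dm m)) =>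
    ulv_lim U (fun i => (o i m j : ℝ) / (V i).A) lam (Eventually.of_forall fun i => by
      have h1 := hb2 i m j
      have h2 : (o i m j : ℝ) ≤ lam * (V i).A := by exact_mod_cast h1
      exact ⟨by have := hA0 i; positivity, (div_le_iff₀ (hA0 i)).2 h2⟩)
  -- the sum of the limits
  have hwsum : ∀ m ≤ M0, g m + lam * ((NN d (n + k + 1) ∅ m : ℝ) -
      (NN d (n + k + 1) Finset.univ m : ℝ)) ≤ ∑ j, w m j := by
    intro m hm
    have hlim : Tendsto (fun i => ∑ j, (o i m j : ℝ) / (V i).A) (U : Filter ℕ)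
        (𝓝 (∑ j, w m j)) := tendsto_finsetSum _ fun j _ => hw2 m j
    have hlim2 : Tendsto (fun i : ℕ => (1 - 1 / ((i : ℝ) + 1)) * g m +
        lam * ((NN d (n + k + 1) ∅ m : ℝ) - (NN d (n + k + 1) Finset.univ m : ℝ)))
        (U : Filter ℕ) (𝓝 ((1 - 0) * g m +
        lam * ((NN d (n + k + 1) ∅ m : ℝ) - (NN d (n + k + 1) Finset.univ m : ℝ)))) := by
      have h1 : Tendsto (fun i : ℕ => 1 / ((i : ℝ) + 1)) (U : Filter ℕ) (𝓝 0) :=
        (tendsto_one_div_add_atTop_nhds_zero_nat (𝕜 := ℝ)).mono_left hU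
      exact ((tendsto_const_nhds.sub h1).mul_const _).add_const _
    rw [sub_zero, one_mul] at hlim2
    refine le_of_tendsto_of_tendsto hlim2 hlim ?_
    filter_upwards [hae, haeM, hlam0 m lam (hlamm m hm)] with i hi hiM htb
    have hOk := hV i
    have hcut := ulv_cut (F := (V i).F) (V i).x m (lam * (V i).A)
      ((Nat.mul_le_mul_right _ hi).trans hOk.L_ge) _ htb
    have hlev := hOk.lev m (hm.trans hiM)
    have h1 : ∑ l ∈ Finset.Icc 1 (V i).L,
        ((Module.finrank (V i).F (Fil (V i).F (V i).x m l) : ℝ) - (NN d (n + k + 1) ∅ m : ℝ)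
          + (NN d (n + k + 1) Finset.univ m : ℝ)) =
        ∑ l ∈ Finset.Icc 1 (V i).L,
        ((Module.finrank (V i).F (Fil (V i).F (V i).x m l) : ℝ) -
          ((NN d (n + k + 1) ∅ m : ℝ) - (NN d (n + k + 1) Finset.univ m : ℝ))) :=
      Finset.sum_congr rfl fun l _ => by ring
    rw [h1] at hlev
    have h2 := hlev.trans hcut
    rw [Finset.sum_sub_distrib, Finset.sum_const, Nat.card_Icc, Nat.add_sub_cancel,
      nsmul_eq_mul] at h2
    have h3 : ∑ l ∈ Finset.Icc 1 (lam * (V i).A),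
        (Module.finrank (V i).F (Fil (V i).F (V i).x m l) : ℝ) = ∑ j, (o i m j : ℝ) := by
      have := hb4 i m
      exact_mod_cast this.symm
    rw [h3] at h2
    have h4 : ∑ j, (o i m j : ℝ) / (V i).A = (∑ j, (o i m j : ℝ)) / (V i).A :=
      (Finset.sum_div _ _ _).symm
    rw [h4, le_div_iff₀ (hA0 i)]
    push_cast at h2
    linarith
  -- the forms
  let I : Type := Fin k ⊕ (Σ m : Fin (M0 + 1), Fin (Dm m))
  let mm : I → ℕ := Sum.elim d fun q => q.1
  let ss : I → ∀ i, MvPolynomial (Fin (n + k + 1)) (V i).F :=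
    Sum.elim (fun j i => (V i).f j) (fun q i => b i q.1 q.2)
  obtain ⟨N0, hN0⟩ := exists_nat_ge ((2 * (k : ℝ) + 2) / η)
  obtain ⟨N, hN, hjet⟩ := appx_jets_pr (v := n + k + 1) (by omega) U (fun i => (V i).F)
    (fun i => (V i).κ) (fun i => (V i).A) (fun i => Lt (V i) lam) (fun i => (hV i).A1)
    (fun i => xt (V i) lam) (k * lam + 1) (by
      filter_upwards [hae] with i hi
      have h1 := (utv_all (hV i) hlam1 hi).2.2.2.1
      exact_mod_cast h1) mm ss (by
      rintro (j | q) i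
      · exact (hV i).hom j
      · exact (hb3 i q.1 q.2).1) (Sum.elim (fun _ => (lam : ℝ)) fun q => w q.1 q.2 - η / 2) (by
      rintro (j | q)
      · filter_upwards [hae] with i hi
        obtain ⟨h1, h2, h3, h4, h5⟩ := utv_all (hV i) hlam1 hi
        refine ⟨Lt (V i) lam, le_rfl, ?_, ?_⟩
        · rw [h1]
          push_cast
          exact le_rfl
        · rw [h5 _ _ le_rfl]
          exact (pow_dvd_pow _ (min_le_right _ _)).trans ((hV i).van j)
      · filter_upwards [hae, (hw2 q.1 q.2).eventually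
          (lt_mem_nhds (show w q.1 q.2 - η / 2 < w q.1 q.2 by linarith))] with i hi hlt
        obtain ⟨h1, h2, h3, h4, h5⟩ := utv_all (hV i) hlam1 hi
        have h6 : o i q.1 q.2 ≤ Lt (V i) lam := by rw [h1]; exact hb2 i q.1 q.2
        refine ⟨o i q.1 q.2, h6, ?_, ?_⟩
        · exact ((lt_div_iff₀ (hA0 i)).1 hlt).le
        · rw [h5 _ _ h6]
          exact (hb3 i q.1 q.2).2) (by
      filter_upwards [hae] with i hi
      obtain ⟨h1, h2, h3, h4, h5⟩ := utv_all (hV i) hlam1 hi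
      exact ⟨h2, h3⟩) (η / 2) (by positivity) N0
  have hN0R : (N0 : ℝ) ≤ N := by exact_mod_cast hN
  have hNη : 2 * (k : ℝ) + 2 ≤ N * η := by
    rw [div_le_iff₀ hη] at hN0
    nlinarith
  have hk0 : (0 : ℝ) ≤ k := Nat.cast_nonneg k
  have hNη1 : (1 : ℝ) ≤ N * η := by linarith
  have hNpos : 0 < N := by
    rcases Nat.eq_zero_or_pos N with h | h
    · rw [h] at hNη1
      norm_num at hNη1
    · exact h
  have hNR : (0 : ℝ) < N := by exact_mod_cast hNpos
  -- the length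
  obtain ⟨L', hL'⟩ : ∃ L' : ℕ, L' = ⌊(N : ℝ) * ((lam : ℝ) - η)⌋₊ := ⟨_, rfl⟩
  have hlamT : (T : ℝ) + 3 ≤ lam := by
    have : T + 3 ≤ lam := by omega
    exact_mod_cast this
  have hT0 : (0 : ℝ) ≤ T := Nat.cast_nonneg T
  have hL1 : (L' : ℝ) ≤ N * ((lam : ℝ) - η) := by
    rw [hL']
    apply Nat.floor_le
    apply mul_nonneg hNR.le
    linarith
  have hL2 : (N : ℝ) * ((lam : ℝ) - η) - 1 < L' := by
    have := Nat.lt_floor_add_one ((N : ℝ) * ((lam : ℝ) - η))
    rw [← hL'] at this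
    linarith
  have hL3 : (N : ℝ) * (T + 1) ≤ L' := by
    have h1 : (N : ℝ) * (T + 1) ≤ N * ((lam : ℝ) - η) - N * η := by
      have : (N : ℝ) * (T + 1) ≤ N * ((lam : ℝ) - η - η) :=
        mul_le_mul_of_nonneg_left (by linarith) hNR.le
      linarith
    linarith
  have hL0 : 0 < L' := by
    have : (0 : ℝ) < L' := lt_of_lt_of_le (by positivity) hL3
    exact_mod_cast this
  obtain ⟨κ', _, _, x', h1, h2, h3⟩ := hjet L'
  have hdvd : ∀ j, (PowerSeries.X : PowerSeries κ') ^ L' ∣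
      ev x' (uh U (F := fun i => (V i).F) (d j) fun i => (V i).f j) := by
    intro j
    refine h2 (Sum.inl j) L' le_rfl ?_
    show (L' : ℝ) ≤ N * ((lam : ℝ) - η / 2)
    refine hL1.trans (mul_le_mul_of_nonneg_left (by linarith) hNR.le)
  refine ⟨N, ⟨L', tauJ (UP U fun i => (V i).F) x', fun m l => Module.finrank
    (UP U fun i => (V i).F) (Fil (UP U fun i => (V i).F) x' m l), fun j => ordL L'
    (ev x' (uh U (F := fun i => (V i).F) (d j) fun i => (V i).f j)), c0J x'⟩, hNpos, hNη1,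
    ⟨UP U fun i => (V i).F, _, inferInstance, _, κ', _, _, x', hG, rfl, fun _ _ _ => rfl,
      fun _ => rfl, rfl⟩, ?_, ?_, h3 hL0, ?_, ?_⟩
  · intro j
    show ordL L' _ = L'
    exact le_antisymm (bas_ordL_le _ _) ((bas_dvd_iff le_rfl _).1 (hdvd j))
  · show (T * N : ℝ) ≤ L'
    linarith
  · show (((n + k + 1 : ℕ) : ℝ) - (Finset.univ : Finset (Fin k)).card) * L' -
      tauJ (UP U fun i => (V i).F) x' ≤ N * (1 + (2 * k + 2) * η)
    rw [Finset.card_univ, Fintype.card_fin]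
    have h4 : ((n + k + 1 : ℕ) : ℝ) * L' - tauJ (UP U fun i => (V i).F) x' ≤
        N * ((k * lam + 1) + η / 2) := by linarith
    have h5 : (k : ℝ) * (N * ((lam : ℝ) - η) - 1) ≤ k * L' :=
      mul_le_mul_of_nonneg_left hL2.le hk0
    have h6 : (k : ℝ) ≤ k * (N * η) := by nlinarith
    have h7 : (0 : ℝ) ≤ N * η := by positivity
    have h8 : (0 : ℝ) ≤ k * (N * η) := by positivity
    nlinarith
  · intro m hm
    show N * (g m - 3 * η * (NN d (n + k + 1) ∅ m : ℝ)) ≤
      ∑ l ∈ Finset.Icc 1 L', ((Module.finrank (UP U fun i => (V i).F)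
        (Fil (UP U fun i => (V i).F) x' m l) : ℝ) - (NN d (n + k + 1) ∅ m : ℝ) +
        (NN d (n + k + 1) Finset.univ m : ℝ))
    -- the forms over the ultraproduct
    have hlin : LinearIndependent (UP U fun i => (V i).F) fun j : Fin (Dm m) =>
        uh U (F := fun i => (V i).F) m fun i => b i m j := by
      apply uh_linInd
      · intro j i
        exact (hb3 i m j).1
      · exact Eventually.of_forall fun i => hb1 i m
    have hfil : ∀ l ∈ Finset.Icc 1 L',
        ((Finset.univ.filter fun j => (l : ℝ) ≤ N * (w m j - η)).card : ℝ) ≤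
        (Module.finrank (UP U fun i => (V i).F) (Fil (UP U fun i => (V i).F) x' m l) : ℝ) := by
      intro l hl
      rw [Finset.mem_Icc] at hl
      have := bas_finFil (UP U fun i => (V i).F) x' m l
      let t : (Finset.univ.filter fun j => (l : ℝ) ≤ N * (w m j - η)) →
          Fil (UP U fun i => (V i).F) x' m l := fun j =>
        ⟨uh U (F := fun i => (V i).F) m fun i => b i m j, uh_hom U m _, by
          have h4 := (Finset.mem_filter.1 j.2).2
          refine h2 (Sum.inr ⟨⟨m, Nat.lt_succ_of_le hm⟩, j⟩) l hl.2 ?_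
          show (l : ℝ) ≤ N * (w m j - η / 2 - η / 2)
          refine h4.trans_eq ?_
          ring⟩
      have ht : LinearIndependent (UP U fun i => (V i).F) t :=
        LinearIndependent.of_comp (Fil (UP U fun i => (V i).F) x' m l).subtype
          (hlin.comp (fun j : (Finset.univ.filter fun j => (l : ℝ) ≤ N * (w m j - η)) =>
            (j : Fin (Dm m))) Subtype.val_injective)
      have h5 := ht.fintype_card_le_finrank
      rw [Fintype.card_coe] at h5
      exact_mod_cast h5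
    have hsum := Finset.sum_le_sum hfil
    rw [ulv_sum] at hsum
    have hcnt : ∑ j : Fin (Dm m), (N * (w m j - η) - 1) ≤
        ∑ j, (((Finset.Icc 1 L').filter fun l : ℕ => (l : ℝ) ≤ N * (w m j - η)).card : ℝ) := by
      refine Finset.sum_le_sum fun j _ => ?_
      refine ulv_count L' _ (N * ((lam : ℝ) - η)) ?_ hL'
      refine mul_le_mul_of_nonneg_left ?_ hNR.le
      have := hw1 m j
      linarith
    have hcnt2 : ∑ j : Fin (Dm m), ((N : ℝ) * (w m j - η) - 1) =
        N * (∑ j, w m j) - (N * η + 1) * (NN d (n + k + 1) ∅ m : ℝ) := by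
      have h4 : ∀ j : Fin (Dm m), (N : ℝ) * (w m j - η) - 1 = N * w m j - (N * η + 1) :=
        fun j => by ring
      rw [Finset.sum_congr rfl fun j _ => h4 j, Finset.sum_sub_distrib, ← Finset.mul_sum,
        Finset.sum_const, Finset.card_univ, Fintype.card_fin, nsmul_eq_mul, hDmR]
      ring
    rw [hcnt2] at hcnt
    have hw' := hwsum m hm
    have hnn : (0 : ℝ) ≤ (NN d (n + k + 1) ∅ m : ℝ) - (NN d (n + k + 1) Finset.univ m : ℝ) := by
      exact_mod_cast utb_nonneg d hd hF m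
    have h0 : (0 : ℝ) ≤ (NN d (n + k + 1) ∅ m : ℝ) := by
      rw [← hDmR]
      positivity
    have hfin : ∑ l ∈ Finset.Icc 1 L', ((Module.finrank (UP U fun i => (V i).F)
        (Fil (UP U fun i => (V i).F) x' m l) : ℝ) - (NN d (n + k + 1) ∅ m : ℝ) +
        (NN d (n + k + 1) Finset.univ m : ℝ)) = ∑ l ∈ Finset.Icc 1 L',
        (Module.finrank (UP U fun i => (V i).F) (Fil (UP U fun i => (V i).F) x' m l) : ℝ) -
        L' * ((NN d (n + k + 1) ∅ m : ℝ) - (NN d (n + k + 1) Finset.univ m : ℝ)) := by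
      have h4 : ∀ l ∈ Finset.Icc 1 L', ((Module.finrank (UP U fun i => (V i).F)
        (Fil (UP U fun i => (V i).F) x' m l) : ℝ) - (NN d (n + k + 1) ∅ m : ℝ) +
        (NN d (n + k + 1) Finset.univ m : ℝ)) = (Module.finrank (UP U fun i => (V i).F)
        (Fil (UP U fun i => (V i).F) x' m l) : ℝ) -
        ((NN d (n + k + 1) ∅ m : ℝ) - (NN d (n + k + 1) Finset.univ m : ℝ)) :=
        fun l _ => by ring
      rw [Finset.sum_congr rfl h4, Finset.sum_sub_distrib, Finset.sum_const, Nat.card_Icc,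
        Nat.add_sub_cancel, nsmul_eq_mul]
    rw [hfin]
    generalize (NN d (n + k + 1) ∅ m : ℝ) = a0 at *
    generalize (NN d (n + k + 1) Finset.univ m : ℝ) = a1 at *
    have h5 : (L' : ℝ) * (a0 - a1) ≤ N * lam * (a0 - a1) := by
      refine mul_le_mul_of_nonneg_right ?_ hnn
      refine hL1.trans ?_
      refine mul_le_mul_of_nonneg_left (by linarith) hNR.le
    have h6 : (N : ℝ) * (g m + lam * (a0 - a1)) ≤ N * ∑ j, w m j :=
      mul_le_mul_of_nonneg_left hw' hNR.le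
    have h7 : (N * η + 1) * a0 ≤ 3 * (N * η) * a0 :=
      mul_le_mul_of_nonneg_right (by linarith) h0
    have h8 := hcnt.trans hsum
    nlinarith

alias level_rec := level_rec_pr

end Pool.Agent.OPN
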