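import Pool.Agent.Lib_helper77.OPF.UFIN
import Pool.Agent.Lib_helper77.OPF.ULV
import Pool.Agent.Lib_helper80.OPF.GM
import Pool.Agent.Lib_helper80.OPF.T1M
/-!
# OPN, block UMAIN: uniform K-stability of Zariski-general Fano complete intersections
-/

namespace Pool.Agent.OPN

open MvPolynomial Pool.Agent.KSS Pool.Agent.KSX Filter Topology
open scoped ENNReal

/-- generic forms satisfy every open condition -/
theorem umain_gen {n k : ℕ} (d : Fin k → ℕ) (f : Fin k → MvPolynomial (Fin (n + k + 1)) ℂ)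
    (hf : Gen d f) (H : MvPolynomial (CI d (n + k + 1)) ℤ) (hH : H ≠ 0) : Hv H f ≠ 0 := by
  intro h0
  have h1 : AlgebraicIndependent ℚ (fun c : CI d (n + k + 1) => (f c.1).coeff c.2.1) := hf.2
  have h2 : aeval (fun c : CI d (n + k + 1) => (f c.1).coeff c.2.1)
      (map (algebraMap ℤ ℚ) H) = 0 := by
    rw [aeval_map_algebraMap]
    exact h0
  have h3 := (algebraicIndependent_iff.1 h1) _ h2
  have h4 : Function.Injective
      (map (algebraMap ℤ ℚ) : MvPolynomial (CI d (n + k + 1)) ℤ →+* _) :=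
    map_injective _ (algebraMap ℤ ℚ).injective_int
  exact hH (h4 (by rw [h3, map_zero]))

/-- a complete intersection with a nonvanishing Jacobian minor at every point is smooth -/
theorem umain_smooth {n k : ℕ} (d : Fin k → ℕ)
    (f : Fin k → MvPolynomial (Fin (n + k + 1)) ℂ) (hf : OPT.Good d f) : SmoothCI f := by
  classical
  intro x hx h0
  obtain ⟨z, hz, hJ⟩ := hf.smooth ℂ x hx (fun i => by
    rw [MvPolynomial.aeval_eq_eval]
    exact h0 i)
  have h1 : aeval x (OPT.jac f z) =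
      (Matrix.of fun (i j : Fin k) => eval x (pderiv (z j) (f i))).det := by
    unfold OPT.jac
    rw [MvPolynomial.aeval_eq_eval]
    rw [RingHom.map_det]
    rfl
  rw [h1] at hJ
  have h2 : LinearIndependent ℂ
      (fun i : Fin k => fun j : Fin k => eval x (pderiv (z j) (f i))) := by
    have := Matrix.linearIndependent_rows_of_det_ne_zero hJ
    exact this
  have h3 : (fun i : Fin k => fun j : Fin k => eval x (pderiv (z j) (f i))) =
      (LinearMap.funLeft ℂ ℂ z) ∘ (fun i : Fin k => fun l => eval x (pderiv l (f i))) := rfl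
  rw [h3] at h2
  exact LinearIndependent.of_comp _ h2

theorem opn_main_pr (n k : ℕ) (d : Fin k → ℕ) (hd : ∀ i, 1 ≤ d i)
    (h2 : 2 ≤ (Finset.univ.filter fun i => 2 ≤ d i).card) (hF : ∑ i, d i ≤ n + k) :
    ∃ H : MvPolynomial (CI d (n + k + 1)) ℤ, H ≠ 0 ∧ ∃ ε : ℝ, 0 < ε ∧
      ∀ f : Fin k → MvPolynomial (Fin (n + k + 1)) ℂ, (∀ i, (f i).IsHomogeneous (d i)) →
        Hv (d := d) H f ≠ 0 → SmoothCI f ∧ ∀ E : DivisorOver f n,
          ENNReal.ofReal (1 + ε) * ExpVan d E ≤ (E.A : ℝ≥0∞) := by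
  classical
  obtain ⟨g, hg0, hg, H0, hH0, hT1⟩ := t1_main n k d hd hF
  obtain ⟨Hg, hHg0, hHg⟩ := OPT.good_open (v := n + k + 1) d hd (by omega)
  obtain ⟨Hs, hHs0, hHs⟩ := exists_seq (CI d (n + k + 1))
  have hP : Pst d (n + k + 1) Finset.univ ∅ := pst_ge_one d hd (n + k + 1) (by omega) h2
  by_contra hcon
  push Not at hcon
  have hstep : ∀ i : ℕ, ∃ V : Viol n k, V.Ok d g i i (1 / ((i : ℝ) + 1)) ∧
      Hv (d := d) (Hs i) V.f ≠ 0 := by
    intro i
    obtain ⟨f, hf, hHf, hbad⟩ := hcon (Hs i * H0 * Hg)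
      (mul_ne_zero (mul_ne_zero (hHs0 i) hH0) hHg0) (1 / ((i : ℝ) + 1)) (by positivity)
    have h3 : Hv (d := d) (Hs i) f ≠ 0 ∧ Hv (d := d) H0 f ≠ 0 ∧ Hv (d := d) Hg f ≠ 0 := by
      unfold Hv at hHf ⊢
      rw [map_mul, map_mul] at hHf
      exact ⟨left_ne_zero_of_mul (left_ne_zero_of_mul hHf),
        right_ne_zero_of_mul (left_ne_zero_of_mul hHf), right_ne_zero_of_mul hHf⟩
    have hgood : OPT.Good d f := hHg ℂ f hf h3.2.2
    obtain ⟨E, hE⟩ := hbad (umain_smooth d f hgood)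
    exact hT1 f hf h3.2.1 E _ (by positivity) hE (Hs i) h3.1 i i
  choose V hV hVH using hstep
  set U : Ultrafilter ℕ := Filter.hyperfilter ℕ with hU
  have hUle : (U : Filter ℕ) ≤ atTop := by
    rw [hU, ← Nat.cofinite_eq_atTop]
    exact Filter.hyperfilter_le_cofinite
  refine fin_contra d hd hF hP g hg0 hg fun M0 T η hη hη1 => ?_
  refine level_rec d hd hF g U hUle V hV ?_ M0 T η hη hη1
  intro H hH
  obtain ⟨N, hN⟩ := hHs H hH
  have h3 : ∀ᶠ i in (atTop : Filter ℕ), Hv (d := d) H (V i).f ≠ 0 := by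
    filter_upwards [eventually_ge_atTop N] with i hi
    intro h0
    apply hVH i
    obtain ⟨Q, hQ⟩ := hN i hi
    unfold Hv at h0 ⊢
    rw [hQ, map_mul, h0, zero_mul]
  exact h3.filter_mono hUle

alias opn_main := opn_main_pr

end Pool.Agent.OPN
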