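import Mathlib

/-!
# OPN (MP_2c2240_ag), part T3: ultraproducts of fields
-/

namespace Pool.Agent.OPN

open Filter Topology

section UP

variable (U : Ultrafilter ℕ) (F : ℕ → Type) [∀ i, Field (F i)]

/-- families which vanish along the ultrafilter -/
def uI : Ideal (∀ i, F i) where
  carrier := {a | ∀ᶠ i in (U : Filter ℕ), a i = 0}
  add_mem' := by
    intro a b ha hb
    filter_upwards [ha, hb] with i h1 h2
    rw [Pi.add_apply, h1, h2, add_zero]
  zero_mem' := Eventually.of_forall fun _ => rfl
  smul_mem' := by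
    intro c a ha
    filter_upwards [ha] with i h1
    rw [smul_eq_mul, Pi.mul_apply, h1, mul_zero]

theorem mem_uI {a : ∀ i, F i} : a ∈ uI U F ↔ ∀ᶠ i in (U : Filter ℕ), a i = 0 := Iff.rfl

instance uI_isMaximal : (uI U F).IsMaximal := by
  classical
  rw [Ideal.isMaximal_iff]
  constructor
  · intro h
    rw [mem_uI] at h
    have h1 : ∀ᶠ i in (U : Filter ℕ), False := by
      filter_upwards [h] with i hi
      exact one_ne_zero hi
    rw [Filter.eventually_false_iff_eq_bot] at h1
    exact U.neBot.ne h1
  · intro J a hJ ha haJ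
    rw [mem_uI, ← Ultrafilter.eventually_not] at ha
    have h1 : a * (fun i => (a i)⁻¹) ∈ J := J.mul_mem_right _ haJ
    have h2 : (1 - a * (fun i => (a i)⁻¹) : ∀ i, F i) ∈ uI U F := by
      rw [mem_uI]
      filter_upwards [ha] with i hi
      rw [Pi.sub_apply, Pi.mul_apply, Pi.one_apply, mul_inv_cancel₀ hi, sub_self]
    have h3 := J.add_mem (hJ h2) h1
    rwa [sub_add_cancel] at h3

/-- the ultraproduct of the fields `F i` -/
abbrev UP : Type := (∀ i, F i) ⧸ uI U F

noncomputable instance : Field (UP U F) := Ideal.Quotient.field _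

variable {F}

/-- the class of a family -/
def um (a : ∀ i, F i) : UP U F := Ideal.Quotient.mk (uI U F) a

theorem um_eq_zero {a : ∀ i, F i} : um U a = 0 ↔ ∀ᶠ i in (U : Filter ℕ), a i = 0 := by
  unfold um
  rw [Ideal.Quotient.eq_zero_iff_mem, mem_uI]

theorem um_surj (y : UP U F) : ∃ a : ∀ i, F i, um U a = y := Ideal.Quotient.mk_surjective y

/-- functoriality of the ultraproduct -/
noncomputable def upMap {G : ℕ → Type} [∀ i, Field (G i)] (f : ∀ i, F i →+* G i) :
    UP U F →+* UP U G :=
  Ideal.Quotient.lift (uI U F)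
    ((Ideal.Quotient.mk (uI U G)).comp (RingHom.pi fun i => (f i).comp (Pi.evalRingHom F i))) (by
      intro a ha
      rw [mem_uI] at ha
      show Ideal.Quotient.mk (uI U G) _ = 0
      rw [Ideal.Quotient.eq_zero_iff_mem, mem_uI]
      filter_upwards [ha] with i hi
      show f i (a i) = 0
      rw [hi, map_zero])

theorem upMap_um {G : ℕ → Type} [∀ i, Field (G i)] (f : ∀ i, F i →+* G i) (a : ∀ i, F i) :
    upMap U f (um U a) = um U fun i => f i (a i) := rfl

/-- the ultraproduct of extension fields is an extension of the ultraproduct -/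
@[reducible] noncomputable def upAlg (U : Ultrafilter ℕ) (F G : ℕ → Type) [∀ i, Field (F i)]
    [∀ i, Field (G i)] [∀ i, Algebra (F i) (G i)] : Algebra (UP U F) (UP U G) :=
  (upMap U fun i => algebraMap (F i) (G i)).toAlgebra

/-- the polynomial over the ultraproduct with the components `s i` (of degree `m`) -/
noncomputable def uh {v : ℕ} (m : ℕ) (s : ∀ i, MvPolynomial (Fin v) (F i)) :
    MvPolynomial (Fin v) (UP U F) :=
  ∑ α ∈ (Finset.univ : Finset (Fin v)).finsuppAntidiag m,
    MvPolynomial.monomial α (um U fun i => (s i).coeff α)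

end UP

end Pool.Agent.OPN
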