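import Pool.Agent.Lib_helper77.OPF.UTV
import Pool.Agent.Lib_helper77.OPF.UAJ
/-!
# OPN, block UTB: tail bound
-/

namespace Pool.Agent.OPN

open MvPolynomial Pool.Agent.KSS Pool.Agent.KSX Filter Topology
open scoped ENNReal

attribute [local instance] upAlg

/-- the expected dimension of the ideal is nonnegative -/
theorem utb_nonneg {n k : ℕ} (d : Fin k → ℕ) (hd : ∀ i, 1 ≤ d i) (hF : ∑ i, d i ≤ n + k)
    (m : ℕ) : 0 ≤ NN d (n + k + 1) ∅ m - NN d (n + k + 1) Finset.univ m := by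
  obtain ⟨f, hf⟩ := vg_exists (N := n + k + 1) d
  have hcard : (Finset.univ : Finset (Fin k)).card ≤ n + k + 1 := by
    rw [Finset.card_univ, Fintype.card_fin]; omega
  rw [← hilb_pr d hd (n + k + 1) Finset.univ hcard ℂ f hf m]
  positivity

/-- independent elements of the filtration -/
theorem utb_choose {F κ : Type} [Field F] [Field κ] [Algebra F κ] {v L : ℕ}
    (x : Fin v → Fin L → κ) (m l ρ : ℕ) :
    ∃ s : Fin ρ → MvPolynomial (Fin v) F, (∀ a, (s a).IsHomogeneous m) ∧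
      (ρ ≤ Module.finrank F (Fil F x m l) → LinearIndependent F s ∧
        ∀ a, (PowerSeries.X : PowerSeries κ) ^ l ∣ ev x (s a)) := by
  classical
  by_cases h : ρ ≤ Module.finrank F (Fil F x m l)
  · have := bas_finFil F x m l
    obtain ⟨s, hs⟩ := exists_linearIndependent_of_le_finrank h
    refine ⟨fun a => (s a : MvPolynomial (Fin v) F), fun a => (s a).2.1, fun _ => ⟨?_, fun a =>
      (s a).2.2⟩⟩
    exact hs.map' (Fil F x m l).subtype (Submodule.ker_subtype _)
  · exact ⟨fun _ => 0, fun _ => isHomogeneous_zero _ _ _, fun h' => absurd h' h⟩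

/-- constants do not vanish on a jet -/
theorem utb_zero {F κ : Type} [Field F] [Field κ] [Algebra F κ] {v L : ℕ}
    (x : Fin v → Fin L → κ) (l : ℕ) (hl : 1 ≤ l) : Module.finrank F (Fil F x 0 l) = 0 := by
  have h : Fil F x 0 l = ⊥ := by
    rw [Submodule.eq_bot_iff]
    rintro P ⟨h1, h2⟩
    obtain ⟨c, rfl⟩ : ∃ c, P = C c := ⟨_, (totalDegree_eq_zero_iff_eq_C.1 (by
      have := h1.totalDegree_le
      omega))⟩
    have h3 : PowerSeries.coeff 0 (ev x (C c)) = 0 := PowerSeries.X_pow_dvd_iff.1 h2 0 hl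
    unfold ev at h3
    rw [aeval_C, PowerSeries.algebraMap_apply, PowerSeries.coeff_C, if_pos rfl] at h3
    have h4 : c = 0 := (map_eq_zero (algebraMap F κ)).1 h3
    rw [h4, C_0]
  rw [h]
  simp

theorem tail_bound_pr {n k : ℕ} (d : Fin k → ℕ) (hd : ∀ i, 1 ≤ d i) (hF : ∑ i, d i ≤ n + k)
    (g : ℕ → ℝ) (U : Ultrafilter ℕ) (hU : (U : Filter ℕ) ≤ atTop) (V : ℕ → Viol n k)
    (hV : ∀ i, (V i).Ok d g i i (1 / ((i : ℝ) + 1)))
    (hgen : ∀ H : MvPolynomial (CI d (n + k + 1)) ℤ, H ≠ 0 →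
      ∀ᶠ i in (U : Filter ℕ), Hv (d := d) H (V i).f ≠ 0) (m : ℕ) :
    ∃ lam0 : ℕ, ∀ lam : ℕ, lam0 ≤ lam → ∀ᶠ i in (U : Filter ℕ),
      (Module.finrank (V i).F (Fil (V i).F (V i).x m (lam * (V i).A)) : ℝ) ≤
        (NN d (n + k + 1) ∅ m : ℝ) - (NN d (n + k + 1) Finset.univ m : ℝ) := by
  classical
  have hnn := utb_nonneg d hd hF m
  have hnnR : (0 : ℝ) ≤ (NN d (n + k + 1) ∅ m : ℝ) - (NN d (n + k + 1) Finset.univ m : ℝ) := by
    exact_mod_cast hnn
  rcases Nat.eq_zero_or_pos m with hm | hm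
  · subst hm
    refine ⟨1, fun lam hlam => Eventually.of_forall fun i => ?_⟩
    rw [utb_zero]
    · simpa using hnnR
    · exact Nat.mul_pos hlam (hV i).A1
  -- the constants
  have hBsum : ∑ i, d i < n + k + 1 := by omega
  set r : ℝ := ((n + k + 1 : ℕ) : ℝ) - ∑ i, (d i : ℝ) with hr
  have hr0 : 0 < r := by
    have : (∑ i, (d i : ℝ)) < ((n + k + 1 : ℕ) : ℝ) := by exact_mod_cast hBsum
    rw [hr]
    linarith
  set B : ℝ := m * ((NN d (n + k + 1) Finset.univ m : ℝ) + 1) with hB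
  have hh : (0 : ℝ) ≤ (NN d (n + k + 1) Finset.univ m : ℝ) := by
    exact_mod_cast nb_nonneg d hd (n + k + 1) Finset.univ hBsum.le m
  have hB0 : 0 ≤ B := by rw [hB]; positivity
  obtain ⟨l0, hl0⟩ := exists_nat_gt (B * (k + 2) / r)
  refine ⟨l0 + 1, fun lam hlam => ?_⟩
  by_contra hcon
  rw [← Ultrafilter.eventually_not] at hcon
  obtain ⟨ρ, hρ⟩ : ∃ ρ : ℕ, (ρ : ℤ) = NN d (n + k + 1) ∅ m - NN d (n + k + 1) Finset.univ m + 1 :=
    ⟨(NN d (n + k + 1) ∅ m - NN d (n + k + 1) Finset.univ m + 1).toNat, by omega⟩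
  have hρ' : ∀ i, ¬ (Module.finrank (V i).F (Fil (V i).F (V i).x m (lam * (V i).A)) : ℝ) ≤
        (NN d (n + k + 1) ∅ m : ℝ) - (NN d (n + k + 1) Finset.univ m : ℝ) →
        ρ ≤ Module.finrank (V i).F (Fil (V i).F (V i).x m (lam * (V i).A)) := by
    intro i hi
    rw [not_le] at hi
    have h1 : NN d (n + k + 1) ∅ m - NN d (n + k + 1) Finset.univ m <
        (Module.finrank (V i).F (Fil (V i).F (V i).x m (lam * (V i).A)) : ℤ) := by
      exact_mod_cast hi
    omega
  have : CharZero (UP U fun i => (V i).F) := utv_char U hU V hV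
  have hG := utv_gen U V hV hgen
  -- the forms
  choose s hs hs' using fun i => utb_choose (F := (V i).F) (V i).x m (lam * (V i).A) ρ
  let mm : Fin k ⊕ Fin ρ → ℕ := Sum.elim d fun _ => m
  let ss : Fin k ⊕ Fin ρ → ∀ i, MvPolynomial (Fin (n + k + 1)) (V i).F :=
    Sum.elim (fun j i => (V i).f j) (fun a i => s i a)
  have hlam1 : 1 ≤ lam := by omega
  have hae : ∀ᶠ i in (U : Filter ℕ), lam ≤ i := (eventually_ge_atTop lam).filter_mono hU
  obtain ⟨N, hN, hjet⟩ := appx_jets_pr (v := n + k + 1) (by omega) U (fun i => (V i).F)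
    (fun i => (V i).κ) (fun i => (V i).A) (fun i => Lt (V i) lam) (fun i => (hV i).A1)
    (fun i => xt (V i) lam) (k * lam + 1) (by
      filter_upwards [hae] with i hi
      have h1 := (utv_all (hV i) hlam1 hi).2.2.2.1
      exact_mod_cast h1) mm ss (by
      rintro (j | a) i
      · exact (hV i).hom j
      · exact hs i a) (fun _ => (lam : ℝ)) (by
      intro a
      filter_upwards [hae, hcon] with i hi hci
      obtain ⟨h1, h2, h3, h4, h5⟩ := utv_all (hV i) hlam1 hi
      refine ⟨Lt (V i) lam, le_rfl, ?_, ?_⟩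
      · rw [h1]
        push_cast
        exact le_rfl
      · rw [h5 _ _ le_rfl]
        rcases a with j | a
        · exact (pow_dvd_pow _ (min_le_right _ _)).trans ((hV i).van j)
        · rw [h1]
          exact (hs' i (hρ' i hci)).2 a) (by
      filter_upwards [hae] with i hi
      obtain ⟨h1, h2, h3, h4, h5⟩ := utv_all (hV i) hlam1 hi
      exact ⟨h2, h3⟩) 1 one_pos 1
  -- the jet over the ultraproduct
  obtain ⟨κ', _, _, x', h1, h2, -⟩ := hjet (N * (lam - 1))
  have hNR : (1 : ℝ) ≤ N := by exact_mod_cast hN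
  have hL' : ((N * (lam - 1) : ℕ) : ℝ) = N * ((lam : ℝ) - 1) := by
    push_cast [Nat.cast_sub hlam1]
    ring
  have h3 : ∀ a, (PowerSeries.X : PowerSeries κ') ^ (N * (lam - 1)) ∣
      ev x' (uh U (mm a) (ss a)) := fun a => h2 a _ le_rfl (by rw [hL'])
  have h4 := utv_level d hd hBsum _ hG _ x' (fun j => h3 (Sum.inl j)) m hm
  rw [← hr, ← hB] at h4
  -- the filtration is large
  have h5 : LinearIndependent (UP U fun i => (V i).F) fun a : Fin ρ =>
      uh U (F := fun i => (V i).F) m fun i => s i a := by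
    apply uh_linInd
    · intro a i
      exact hs i a
    · filter_upwards [hcon] with i hci
      exact (hs' i (hρ' i hci)).1
  have h6 : ∀ l ≤ N * (lam - 1), ρ ≤ Module.finrank (UP U fun i => (V i).F)
      (Fil (UP U fun i => (V i).F) x' m l) := by
    intro l hl
    have := bas_finFil (UP U fun i => (V i).F) x' m l
    let t : Fin ρ → Fil (UP U fun i => (V i).F) x' m l := fun a =>
      ⟨uh U (F := fun i => (V i).F) m fun i => s i a, uh_hom U m _,
        (pow_dvd_pow _ hl).trans (h3 (Sum.inr a))⟩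
    have ht : LinearIndependent (UP U fun i => (V i).F) t :=
      LinearIndependent.of_comp (Fil (UP U fun i => (V i).F) x' m l).subtype h5
    have := ht.fintype_card_le_finrank
    simpa using this
  have h7 : (N * (lam - 1) : ℕ) ≤ sigB (UP U fun i => (V i).F) d Finset.univ x' m := by
    unfold sigB
    have h8 : ((N * (lam - 1) : ℕ) : ℝ) = ∑ l ∈ Finset.Icc 1 (N * (lam - 1)), (1 : ℝ) := by
      simp
    rw [h8]
    refine Finset.sum_le_sum fun l hl => ?_
    rw [Finset.mem_Icc] at hl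
    have h9 := h6 l hl.2
    have h10 : ((ρ : ℤ) : ℝ) = (NN d (n + k + 1) ∅ m : ℝ) -
        (NN d (n + k + 1) Finset.univ m : ℝ) + 1 := by
      rw [hρ]
      push_cast
      ring
    have h11 : (ρ : ℝ) ≤ (Module.finrank (UP U fun i => (V i).F)
      (Fil (UP U fun i => (V i).F) x' m l) : ℝ) := by exact_mod_cast h9
    have h12 : ((ρ : ℤ) : ℝ) = (ρ : ℝ) := by push_cast; rfl
    linarith
  -- contradiction
  rw [hL'] at h7
  have h8 : (((n + k + 1 : ℕ) : ℝ) - k) * ((N * (lam - 1) : ℕ) : ℝ) -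
      tauJ (UP U fun i => (V i).F) x' ≤ N * (k + 2) := by
    have h9 : ((n + k + 1 : ℕ) : ℝ) * ((N * (lam - 1) : ℕ) : ℝ) -
      tauJ (UP U fun i => (V i).F) x' ≤ N * ((k * lam + 1) + 1) := by linarith
    have h10 : (k : ℝ) * ((N * (lam - 1) : ℕ) : ℝ) = N * (k * lam) - N * k := by
      rw [hL']
      ring
    nlinarith
  have h9 : r * (N * ((lam : ℝ) - 1)) ≤ B * (N * (k + 2)) := by
    calc r * (N * ((lam : ℝ) - 1)) ≤ r * sigB (UP U fun i => (V i).F) d Finset.univ x' m :=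
          mul_le_mul_of_nonneg_left h7 hr0.le
      _ ≤ _ := h4
      _ ≤ _ := mul_le_mul_of_nonneg_left h8 hB0
  have h10 : r * ((lam : ℝ) - 1) ≤ B * (k + 2) := by
    have h11 : (0 : ℝ) < N := by linarith
    have h12 : N * (r * ((lam : ℝ) - 1)) ≤ N * (B * (k + 2)) := by linarith
    exact le_of_mul_le_mul_left h12 h11
  have h11 : (l0 : ℝ) ≤ (lam : ℝ) - 1 := by
    have : ((l0 + 1 : ℕ) : ℝ) ≤ lam := by exact_mod_cast hlam
    push_cast at this
    linarith
  rw [div_lt_iff₀ hr0] at hl0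
  nlinarith

alias tail_bound := tail_bound_pr

end Pool.Agent.OPN
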