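import Pool.Agent.Lib_helper77.OPF.Defs
/-!
# OPN, block UTR: truncation of jets
-/

namespace Pool.Agent.OPN

open MvPolynomial Pool.Agent.KSS Pool.Agent.KSX Filter Topology
open scoped ENNReal

theorem utr_coeff {κ : Type} [Field κ] {L : ℕ} (c : Fin L → κ) (μ : Fin L) :
    PowerSeries.coeff (μ : ℕ) (arc c) = c μ := by
  unfold arc
  rw [PowerSeries.coeff_mk]
  simp

/-- a jet which does not start at the vertex -/
theorem utr_c0 {κ : Type} [Field κ] {v L : ℕ} (hv : 0 < v) (hL : 0 < L) (x : Fin v → Fin L → κ)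
    (hc0 : c0J x = 0) : ∃ q, x q ⟨0, hL⟩ ≠ 0 := by
  have : Nonempty (Fin v) := ⟨⟨0, hv⟩⟩
  have h1 : c0J x ∈ Set.range fun i => ordL L (arc (x i)) := Nat.sInf_mem (Set.range_nonempty _)
  obtain ⟨q, hq⟩ := h1
  refine ⟨q, ?_⟩
  intro h0
  simp only at hq
  rw [hc0] at hq
  have h2 : (PowerSeries.X : PowerSeries κ) ^ 1 ∣ arc (x q) := by
    rw [PowerSeries.X_pow_dvd_iff]
    intro m hm
    have : m = 0 := by omega
    subst this
    have := utr_coeff (x q) ⟨0, hL⟩
    simp only at this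
    rw [this, h0]
  rw [bas_dvd_iff (by omega : 1 ≤ L)] at h2
  omega

/-- constant coefficient of a value -/
theorem utr_aeval {F κ σ : Type} [Field F] [Field κ] [Algebra F κ] (y : σ → PowerSeries κ)
    (P : MvPolynomial σ F) :
    aeval (fun q => PowerSeries.coeff 0 (y q)) P = PowerSeries.coeff 0 (aeval y P) := by
  induction P using MvPolynomial.induction_on with
  | C a =>
    rw [aeval_C, aeval_C, PowerSeries.algebraMap_apply]
    simp
  | add f g hf hg => rw [map_add, map_add, map_add, hf, hg]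
  | mul_X f q hf =>
    rw [map_mul, map_mul, aeval_X, aeval_X, hf]
    simp

theorem trunc_cod_pr {F κ : Type} [Field F] [Field κ] [Algebra F κ] {a v L : ℕ} (hv : 0 < v)
    (f : Fin a → MvPolynomial (Fin v) F) (d : Fin a → ℕ) (hhom : ∀ j, (f j).IsHomogeneous (d j))
    (hsm : Sm f) (x : Fin v → Fin L → κ) (hc0 : c0J x = 0) (hL : 0 < L)
    (hf : ∀ j, (PowerSeries.X : PowerSeries κ) ^ L ∣ ev x (f j)) (L' : ℕ) (hL' : L' ≤ L)
    (hL0 : 0 < L') :
    tauJ F x + a * (L - L') ≤ tauJ F (fun q μ => x q (Fin.castLE hL' μ)) + v * (L - L') := by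
  classical
  have hpt : (fun q => PowerSeries.coeff 0 (arc (x q))) ≠ (0 : Fin v → κ) := by
    obtain ⟨q, hq⟩ := utr_c0 hv hL x hc0
    intro h
    apply hq
    have h1 := congrFun h q
    have h2 := utr_coeff (x q) ⟨0, hL⟩
    simp only at h1 h2
    rw [← h2]
    exact h1
  have hzero : ∀ i, aeval (fun q => PowerSeries.coeff 0 (arc (x q))) (f i) = 0 := by
    intro i
    have h1 : PowerSeries.coeff 0 (ev x (f i)) = 0 := PowerSeries.X_pow_dvd_iff.1 (hf i) 0 hL
    have h2 : aeval (fun q => PowerSeries.coeff 0 (arc (x q))) (f i) =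
        PowerSeries.coeff 0 (ev x (f i)) := utr_aeval _ _
    rw [h2, h1]
  have hlin : LinearIndependent κ (fun i => grad f (fun q => PowerSeries.coeff 0 (arc (x q))) i) :=
    hsm κ _ hpt hzero
  have h := shf_sum f (fun q => arc (x q)) Finset.univ (fun _ => L) L' hL0 (by
    intro i _ ν hν
    exact PowerSeries.X_pow_dvd_iff.1 (hf i) ν hν) (by
    intro C _
    exact hlin.comp (fun i : C => (i : Fin a)) Subtype.val_injective) L hL'
  have h1 : (fun s : Fin v × Fin L => PowerSeries.coeff (s.2 : ℕ) (arc (x s.1))) =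
      fun s : Fin v × Fin L => x s.1 s.2 := by
    funext s
    exact utr_coeff _ _
  have h2 : (fun s : Fin v × Fin L' => PowerSeries.coeff (s.2 : ℕ) (arc (x s.1))) =
      fun s : Fin v × Fin L' => x s.1 (Fin.castLE hL' s.2) := by
    funext s
    exact utr_coeff (x s.1) (Fin.castLE hL' s.2)
  have h3 : ∑ i ∈ (Finset.univ : Finset (Fin a)), (min L L - L') = a * (L - L') := by
    simp
  rw [h1, h2, h3] at h
  exact h

alias trunc_cod := trunc_cod_pr

end Pool.Agent.OPN
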