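import Pool.Agent.Lib_helper77.OPF.UP
/-!
# OPN block UU2: ultraproducts of algebraically closed fields
-/

namespace Pool.Agent.OPN.UU2

open Filter Topology Polynomial

section U

variable (U : Ultrafilter ℕ) {F : ℕ → Type} [∀ i, Field (F i)]

/-- the ultraproduct of algebraically closed fields is algebraically closed -/
theorem up_algClosed_pr [∀ i, IsAlgClosed (F i)] : IsAlgClosed (UP U F) := by
  refine IsAlgClosed.of_exists_root _ fun p hp hirr => ?_
  have hl : p ∈ lifts (Ideal.Quotient.mk (uI U F)) := by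
    rw [lifts_iff_coeff_lifts]
    intro n
    exact Ideal.Quotient.mk_surjective (p.coeff n)
  obtain ⟨q, hq, hdeg, hmon⟩ := lifts_and_natDegree_eq_and_monic hl hp
  have hpd : 0 < p.natDegree := hirr.natDegree_pos
  have hroot : ∀ i, ∃ r : F i, (q.map (Pi.evalRingHom F i)).eval r = 0 := by
    intro i
    have h1 : (q.map (Pi.evalRingHom F i)).natDegree = q.natDegree := hmon.natDegree_map _
    have h2 : (q.map (Pi.evalRingHom F i)).degree ≠ 0 := by
      intro h
      have h3 : (q.map (Pi.evalRingHom F i)).natDegree = 0 := by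
        rw [natDegree, h]
        rfl
      rw [h1, hdeg] at h3
      omega
    obtain ⟨r, hr⟩ := IsAlgClosed.exists_root _ h2
    exact ⟨r, hr⟩
  choose r hr using hroot
  refine ⟨Ideal.Quotient.mk (uI U F) r, ?_⟩
  rw [← hq, eval_map, eval₂_hom]
  have h0 : q.eval r = 0 := by
    funext i
    have h1 := hr i
    rw [eval_map] at h1
    rw [Pi.zero_apply, ← h1]
    have h2 := eval₂_hom (p := q) (Pi.evalRingHom F i) r
    exact h2.symm
  rw [h0, map_zero]

theorem up_charZero_pr (h : ∀ n : ℕ, n ≠ 0 → ∀ᶠ i in (U : Filter ℕ), (n : F i) ≠ 0) :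
    CharZero (UP U F) := by
  refine charZero_of_inj_zero fun n hn => ?_
  by_contra h0
  have h1 : um U (fun i => (n : F i)) = 0 := by
    rw [← hn]
    unfold um
    exact (map_natCast (Ideal.Quotient.mk (uI U F)) n)
  rw [um_eq_zero] at h1
  have h2 : ∀ᶠ i in (U : Filter ℕ), False := by
    filter_upwards [h1, h n h0] with i h3 h4
    exact h4 h3
  rw [Filter.eventually_false_iff_eq_bot] at h2
  exact U.neBot.ne h2

end U

end Pool.Agent.OPN.UU2

namespace Pool.Agent.OPN

alias up_algClosed := UU2.up_algClosed_pr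
alias up_charZero := UU2.up_charZero_pr

end Pool.Agent.OPN
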