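import Pool.Agent.Lib_helper77.OPF.UU3
import Pool.Agent.Lib_helper77.OPF.UU2
import Pool.Agent.Lib_helper77.OPF.UTR
/-!
# OPN: truncation of the jets of a sequence of violations
-/

namespace Pool.Agent.OPN

open MvPolynomial Pool.Agent.KSS Pool.Agent.KSX Filter Topology
open scoped ENNReal

attribute [local instance] upAlg

/-- orders on a truncated jet -/
theorem utv_dvd {F κ : Type} [Field F] [Field κ] [Algebra F κ] {v L : ℕ}
    (x : Fin v → Fin L → κ) (L' : ℕ) (hL' : L' ≤ L) (P : MvPolynomial (Fin v) F) (l : ℕ)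
    (hl : l ≤ L') :
    (PowerSeries.X : PowerSeries κ) ^ l ∣ ev (fun q μ => x q (Fin.castLE hL' μ)) P ↔
      (PowerSeries.X : PowerSeries κ) ^ l ∣ ev x P := by
  have h1 : (PowerSeries.X : PowerSeries κ) ^ L' ∣
      ev (fun q μ => x q (Fin.castLE hL' μ)) P - ev x P := by
    unfold ev
    apply shf_congr
    intro q
    rw [PowerSeries.X_pow_dvd_iff]
    intro m hm
    rw [map_sub, sub_eq_zero]
    have h2 := utr_coeff (fun μ => x q (Fin.castLE hL' μ)) ⟨m, hm⟩
    have h3 := utr_coeff (x q) ⟨m, hm.trans_le hL'⟩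
    simp only at h2 h3
    rw [h2, h3]
    rfl
  have h2 : (PowerSeries.X : PowerSeries κ) ^ l ∣
      ev (fun q μ => x q (Fin.castLE hL' μ)) P - ev x P := (pow_dvd_pow _ hl).trans h1
  constructor
  · intro h
    have := dvd_sub h h2
    rwa [sub_sub_cancel] at this
  · intro h
    have := dvd_add h2 h
    rwa [sub_add_cancel] at this

/-- a truncated jet does not start at the vertex -/
theorem utv_c0 {κ : Type} [Field κ] {v L : ℕ} (hv : 0 < v) (x : Fin v → Fin L → κ)
    (L' : ℕ) (hL' : L' ≤ L) (hL0 : 0 < L') (hc0 : c0J x = 0) :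
    c0J (fun q μ => x q (Fin.castLE hL' μ)) = 0 := by
  obtain ⟨q, hq⟩ := utr_c0 hv (hL0.trans_le hL') x hc0
  have h1 : c0J (fun q μ => x q (Fin.castLE hL' μ)) ≤
      ordL L' (arc (fun μ => x q (Fin.castLE hL' μ))) := ciInf_le (OrderBot.bddBelow _) q
  have h2 : ordL L' (arc (fun μ => x q (Fin.castLE hL' μ))) = 0 := by
    by_contra h
    have h3 : 1 ≤ ordL L' (arc (fun μ => x q (Fin.castLE hL' μ))) := by omega
    rw [← bas_dvd_iff (by omega : 1 ≤ L'), PowerSeries.X_pow_dvd_iff] at h3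
    have h4 := h3 0 one_pos
    have h5 := utr_coeff (fun μ => x q (Fin.castLE hL' μ)) ⟨0, hL0⟩
    simp only at h5
    rw [h5] at h4
    exact hq h4
  omega

/-- length of the truncation -/
def Lt {n k : ℕ} (V : Viol n k) (lam : ℕ) : ℕ := min (lam * V.A) V.L

/-- the truncated jet -/
def xt {n k : ℕ} (V : Viol n k) (lam : ℕ) : Fin (n + k + 1) → Fin (Lt V lam) → V.κ :=
  fun q μ => V.x q (Fin.castLE (min_le_right _ _) μ)

theorem utv_all {n k : ℕ} {d : Fin k → ℕ} {g : ℕ → ℝ} {M T : ℕ} {ε : ℝ} {V : Viol n k}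
    (hV : V.Ok d g M T ε) {lam : ℕ} (hlam : 1 ≤ lam) (hT : lam ≤ T) :
    Lt V lam = lam * V.A ∧ 0 < Lt V lam ∧ c0J (xt V lam) = 0 ∧
      (n + k + 1) * Lt V lam ≤ tauJ V.F (xt V lam) + (k * lam + 1) * V.A ∧
      ∀ (P : MvPolynomial (Fin (n + k + 1)) V.F) (l : ℕ), l ≤ Lt V lam →
        ((PowerSeries.X : PowerSeries V.κ) ^ l ∣ ev (xt V lam) P ↔
          (PowerSeries.X : PowerSeries V.κ) ^ l ∣ ev V.x P) := by
  have hA := hV.A1
  have h1 : lam * V.A ≤ V.L := (Nat.mul_le_mul_right _ hT).trans hV.L_ge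
  have h2 : Lt V lam = lam * V.A := min_eq_left h1
  have h3 : 0 < Lt V lam := by
    rw [h2]
    positivity
  have h4 : Lt V lam ≤ V.L := min_le_right _ _
  refine ⟨h2, h3, ?_, ?_, ?_⟩
  · exact utv_c0 (by omega) V.x (Lt V lam) h4 h3 hV.c0
  · have h5 := trunc_cod_pr (by omega : 0 < n + k + 1) V.f d hV.hom hV.sm V.x hV.c0
      (h3.trans_le h4) hV.van (Lt V lam) h4 h3
    have h6 := hV.cod
    have h7 : tauJ V.F (fun q μ => V.x q (Fin.castLE h4 μ)) = tauJ V.F (xt V lam) := rfl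
    rw [h7] at h5
    obtain ⟨e, he⟩ : ∃ e, V.L = Lt V lam + e := ⟨V.L - Lt V lam, by omega⟩
    have h8 : V.L - Lt V lam = e := by omega
    rw [h8] at h5
    have h10 : (n + 1) * (Lt V lam + e) ≤ tauJ V.F V.x + V.A := by
      have h11 : Lt V lam + e = V.L := he.symm
      rw [h11]
      exact h6
    have h9 : (k * lam + 1) * V.A = k * Lt V lam + V.A := by rw [h2]; ring
    rw [h9]
    nlinarith
  · intro P l hl
    exact utv_dvd V.x (Lt V lam) h4 P l hl

/-- the ultraproduct has characteristic zero -/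
theorem utv_char {n k : ℕ} {d : Fin k → ℕ} {g : ℕ → ℝ} (U : Ultrafilter ℕ)
    (hU : (U : Filter ℕ) ≤ atTop) (V : ℕ → Viol n k)
    (hV : ∀ i, (V i).Ok d g i i (1 / ((i : ℝ) + 1))) : CharZero (UP U fun i => (V i).F) := by
  apply up_charZero
  intro m hm
  have h1 : ∀ᶠ i in (atTop : Filter ℕ), (m : (V i).F) ≠ 0 := by
    filter_upwards [eventually_gt_atTop m] with i hi
    intro h0
    rw [CharP.cast_eq_zero_iff (V i).F (V i).p] at h0
    have h2 := Nat.le_of_dvd (Nat.pos_of_ne_zero hm) h0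
    have h3 := (hV i).p_ge
    omega
  exact h1.filter_mono hU

/-- the forms over the ultraproduct are generic -/
theorem utv_gen {n k : ℕ} {d : Fin k → ℕ} {g : ℕ → ℝ} (U : Ultrafilter ℕ) (V : ℕ → Viol n k)
    (hV : ∀ i, (V i).Ok d g i i (1 / ((i : ℝ) + 1))) [CharZero (UP U fun i => (V i).F)]
    (hgen : ∀ H : MvPolynomial (CI d (n + k + 1)) ℤ, H ≠ 0 →
      ∀ᶠ i in (U : Filter ℕ), Hv (d := d) H (V i).f ≠ 0) :
    Gen d fun j => uh U (F := fun i => (V i).F) (d j) fun i => (V i).f j :=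
  up_gen U d (fun i => (V i).f) (fun i j => (hV i).hom j) hgen

/-- the main estimate at one level -/
theorem utv_level {k v : ℕ} (d : Fin k → ℕ) (hd : ∀ i, 1 ≤ d i) (hB : ∑ i, d i < v)
    {K : Type} [Field K] [CharZero K] (G : Fin k → MvPolynomial (Fin v) K) (hG : Gen d G)
    {κ : Type} [Field κ] [Algebra K κ] (L : ℕ) (x : Fin v → Fin L → κ)
    (hx : ∀ i, (PowerSeries.X : PowerSeries κ) ^ L ∣ ev x (G i)) (m : ℕ) (hm : 1 ≤ m) :
    ((v : ℝ) - ∑ i, (d i : ℝ)) * sigB K d Finset.univ x m ≤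
      m * ((NN d v Finset.univ m : ℝ) + 1) * (((v : ℝ) - k) * L - tauJ K x) := by
  classical
  have hh : (0 : ℝ) ≤ (NN d v Finset.univ m : ℝ) := by
    exact_mod_cast nb_nonneg d hd v Finset.univ hB.le m
  have hm' : (0 : ℝ) < m := by exact_mod_cast hm
  set h : ℝ := (NN d v Finset.univ m : ℝ) with hhd
  set r : ℝ := (v : ℝ) - ∑ i, (d i : ℝ) with hr
  have hr0 : 0 < r := by
    have : (∑ i, (d i : ℝ)) < v := by exact_mod_cast hB
    rw [hr]
    linarith
  have hReg : Reg d v Finset.univ m (fun _ => 0)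
      (fun m' => if m' = m then r / (m * (h + 1)) else 0) := by
    refine ⟨fun _ => le_rfl, fun m' => ?_, ?_, fun i hi => ?_⟩
    · simp only
      split_ifs
      · positivity
      · exact le_rfl
    · rw [Finset.compl_univ, Finset.sum_empty, zero_add,
        Finset.sum_eq_single_of_mem m (Finset.self_mem_range_succ m)]
      · beta_reduce
        rw [if_pos rfl, ← hhd, ← hr, div_mul_eq_mul_div, div_le_iff₀ (by positivity)]
        have h1 : (m : ℝ) * h ≤ m * (h + 1) := by nlinarith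
        exact mul_le_mul_of_nonneg_left h1 hr0.le
      · intro m' _ hne
        beta_reduce
        rw [if_neg hne, zero_mul]
    · simp at hi
  have h1 := SS_main d hd v Finset.univ hB m _ _ hReg K G hG κ L x (fun i _ => hx i)
  rw [Finset.compl_univ, Finset.sum_empty, zero_add,
    Finset.sum_eq_single_of_mem m (Finset.self_mem_range_succ m)] at h1
  · rw [if_pos rfl, Finset.card_univ, Fintype.card_fin, div_mul_eq_mul_div,
      div_le_iff₀ (by positivity)] at h1
    linarith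
  · intro m' _ hne
    rw [if_neg hne, zero_mul]


end Pool.Agent.OPN
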