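import Pool.Agent.Lib_helper77.OPF.UP
/-!
# OPN (MP_2c2240_ag), part U, block UU1: polynomials over ultraproducts
-/

namespace Pool.Agent.OPN.UU1

open Pool.Agent.OPN
open MvPolynomial Filter Topology

attribute [local instance] upAlg

section U

variable (U : Ultrafilter ℕ) {F : ℕ → Type} [∀ i, Field (F i)]

theorem u_poly_pr {σ : Type} (P : MvPolynomial σ (∀ i, F i)) :
    map (Ideal.Quotient.mk (uI U F)) P = 0 ↔
      ∀ᶠ i in (U : Filter ℕ), map (Pi.evalRingHom F i) P = 0 := by
  classical
  constructor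
  · intro h
    have h1 : ∀ α ∈ P.support, ∀ᶠ i in (U : Filter ℕ), P.coeff α i = 0 := by
      intro α _
      have h2 : (map (Ideal.Quotient.mk (uI U F)) P).coeff α = 0 := by
        rw [h, coeff_zero]
      rw [coeff_map] at h2
      exact (um_eq_zero U).1 h2
    have h3 : ∀ᶠ i in (U : Filter ℕ), ∀ α ∈ P.support, P.coeff α i = 0 :=
      (Filter.eventually_all_finset _).2 h1
    filter_upwards [h3] with i hi
    ext α
    rw [coeff_map, coeff_zero]
    by_cases hα : α ∈ P.support
    · exact hi α hα
    · rw [notMem_support_iff.1 hα, map_zero]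
  · intro h
    ext α
    rw [coeff_map, coeff_zero]
    refine (um_eq_zero U).2 ?_
    filter_upwards [h] with i hi
    have h2 : (map (Pi.evalRingHom F i) P).coeff α = 0 := by
      rw [hi, coeff_zero]
    rw [coeff_map] at h2
    exact h2

theorem u_aeval_pr {σ : Type} {Ω : ℕ → Type} [∀ i, Field (Ω i)] [∀ i, Algebra (F i) (Ω i)]
    (ζ : σ → ∀ i, Ω i) (P : MvPolynomial σ (∀ i, F i)) :
    aeval (fun a => um U (ζ a)) (map (Ideal.Quotient.mk (uI U F)) P) =
      um U fun i => aeval (fun a => ζ a i) (map (Pi.evalRingHom F i) P) := by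
  induction P using MvPolynomial.induction_on with
  | C a =>
    rw [map_C, aeval_C]
    have h : ∀ i, aeval (fun b => ζ b i) (map (Pi.evalRingHom F i) (C a)) =
        algebraMap (F i) (Ω i) (a i) := by
      intro i
      rw [map_C, aeval_C]
      rfl
    simp_rw [h]
    exact upMap_um U (fun i => algebraMap (F i) (Ω i)) a
  | add p q hp hq =>
    rw [map_add, map_add, hp, hq]
    simp only [map_add]
    exact (map_add (Ideal.Quotient.mk (uI U Ω)) _ _).symm
  | mul_X p a hp =>
    rw [map_mul, map_mul, hp, map_X, aeval_X]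
    simp only [map_mul, map_X, aeval_X]
    exact (map_mul (Ideal.Quotient.mk (uI U Ω)) _ _).symm

theorem coeff_uh_aux {v : ℕ} (m : ℕ) (s : ∀ i, MvPolynomial (Fin v) (F i)) (α : Fin v →₀ ℕ) :
    (uh U m s).coeff α = if α.degree = m then um U (fun i => (s i).coeff α) else 0 := by
  classical
  unfold uh
  rw [coeff_sum]
  by_cases hα : α.degree = m
  · rw [if_pos hα, Finset.sum_eq_single α]
    · rw [coeff_monomial, if_pos rfl]
    · intro β _ hβ
      rw [coeff_monomial, if_neg hβ]
    · intro h
      exfalso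
      apply h
      rw [Finset.mem_finsuppAntidiag]
      refine ⟨?_, Finset.subset_univ _⟩
      rw [← hα, Finsupp.degree_eq_sum]
  · rw [if_neg hα]
    apply Finset.sum_eq_zero
    intro β hβ
    rw [coeff_monomial, if_neg]
    rintro rfl
    apply hα
    rw [Finset.mem_finsuppAntidiag] at hβ
    rw [← hβ.1, Finsupp.degree_eq_sum]

theorem coeff_hom_aux {v : ℕ} {k : Type} [CommSemiring k] (m : ℕ) (s : MvPolynomial (Fin v) k)
    (hs : s.IsHomogeneous m) (α : Fin v →₀ ℕ) (hα : α.degree ≠ m) : s.coeff α = 0 := by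
  by_contra h
  exact hα (by
    have h1 := hs h
    rw [Finsupp.degree_eq_weight_one]
    exact h1)

theorem coeff_uh_pr {v : ℕ} (m : ℕ) (s : ∀ i, MvPolynomial (Fin v) (F i))
    (hs : ∀ i, (s i).IsHomogeneous m) (α : Fin v →₀ ℕ) :
    (uh U m s).coeff α = um U fun i => (s i).coeff α := by
  rw [coeff_uh_aux]
  by_cases hα : α.degree = m
  · rw [if_pos hα]
  · rw [if_neg hα]
    symm
    refine (um_eq_zero U).2 (Eventually.of_forall fun i => ?_)
    exact coeff_hom_aux m (s i) (hs i) α hα

theorem uh_lift_pr {v : ℕ} (m : ℕ) (s : ∀ i, MvPolynomial (Fin v) (F i))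
    (hs : ∀ i, (s i).IsHomogeneous m) :
    ∃ P : MvPolynomial (Fin v) (∀ i, F i), map (Ideal.Quotient.mk (uI U F)) P = uh U m s ∧
      ∀ i, map (Pi.evalRingHom F i) P = s i := by
  classical
  have key : ∀ α : Fin v →₀ ℕ,
      (∑ β ∈ (Finset.univ : Finset (Fin v)).finsuppAntidiag m,
        monomial β (fun i => (s i).coeff β) : MvPolynomial (Fin v) (∀ i, F i)).coeff α =
        fun i => (s i).coeff α := by
    intro α
    rw [coeff_sum]
    by_cases hα : α.degree = m
    · rw [Finset.sum_eq_single α]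
      · rw [coeff_monomial, if_pos rfl]
      · intro β _ hβ
        rw [coeff_monomial, if_neg hβ]
      · intro h
        exfalso
        apply h
        rw [Finset.mem_finsuppAntidiag]
        refine ⟨?_, Finset.subset_univ _⟩
        rw [← hα, Finsupp.degree_eq_sum]
    · rw [Finset.sum_eq_zero]
      · funext i
        exact (coeff_hom_aux m (s i) (hs i) α hα).symm
      · intro β hβ
        rw [coeff_monomial, if_neg]
        rintro rfl
        apply hα
        rw [Finset.mem_finsuppAntidiag] at hβ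
        rw [← hβ.1, Finsupp.degree_eq_sum]
  refine ⟨∑ β ∈ (Finset.univ : Finset (Fin v)).finsuppAntidiag m,
        monomial β (fun i => (s i).coeff β), ?_, ?_⟩
  · ext α
    rw [coeff_map, key, coeff_uh_pr U m s hs]
    rfl
  · intro i
    ext α
    rw [coeff_map, key]
    rfl

theorem uh_hom_pr {v : ℕ} (m : ℕ) (s : ∀ i, MvPolynomial (Fin v) (F i)) :
    (uh U m s).IsHomogeneous m := by
  intro α hα
  rw [coeff_uh_aux] at hα
  by_contra h
  apply hα
  rw [if_neg]
  intro h1
  apply h
  rw [← h1, Finsupp.degree_eq_weight_one]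
  rfl

theorem uh_linInd_pr {v : ℕ} {I : Type} [Finite I] (m : ℕ) (s : I → ∀ i, MvPolynomial (Fin v) (F i))
    (hs : ∀ a i, (s a i).IsHomogeneous m)
    (h : ∀ᶠ i in (U : Filter ℕ), LinearIndependent (F i) fun a => s a i) :
    LinearIndependent (UP U F) fun a => uh U m (s a) := by
  classical
  have : Fintype I := Fintype.ofFinite I
  rw [Fintype.linearIndependent_iff]
  intro c hc
  choose γ hγ using fun a => um_surj U (c a)
  have h1 : ∀ α ∈ (Finset.univ : Finset (Fin v)).finsuppAntidiag m, ∀ᶠ i in (U : Filter ℕ),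
      ∑ a, γ a i * (s a i).coeff α = 0 := by
    intro α _
    have h2 : (∑ a, c a • uh U m (s a)).coeff α = 0 := by
      rw [hc, coeff_zero]
    rw [coeff_sum] at h2
    have h3 : um U (fun i => ∑ a, γ a i * (s a i).coeff α) = 0 := by
      rw [← h2]
      have h4 : (fun i => ∑ a, γ a i * (s a i).coeff α) =
          ∑ a, γ a * (fun i => (s a i).coeff α) := by
        funext i
        rw [Finset.sum_apply]
        rfl
      rw [h4]
      unfold um
      rw [map_sum]
      refine Finset.sum_congr rfl fun a _ => ?_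
      rw [map_mul, coeff_smul, coeff_uh_pr U m (s a) (hs a), ← hγ a, smul_eq_mul]
      rfl
    exact (um_eq_zero U).1 h3
  have h5 : ∀ᶠ i in (U : Filter ℕ), ∀ α ∈ (Finset.univ : Finset (Fin v)).finsuppAntidiag m,
      ∑ a, γ a i * (s a i).coeff α = 0 := (Filter.eventually_all_finset _).2 h1
  have h6 : ∀ᶠ i in (U : Filter ℕ), ∀ a, γ a i = 0 := by
    filter_upwards [h5, h] with i hi hli
    rw [Fintype.linearIndependent_iff] at hli
    apply hli (fun a => γ a i)
    ext α
    rw [coeff_sum, coeff_zero]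
    simp only [coeff_smul, smul_eq_mul]
    by_cases hα : α.degree = m
    · apply hi α
      rw [Finset.mem_finsuppAntidiag]
      refine ⟨?_, Finset.subset_univ _⟩
      rw [← hα, Finsupp.degree_eq_sum]
    · apply Finset.sum_eq_zero
      intro a _
      rw [coeff_hom_aux m (s a i) (hs a i) α hα, mul_zero]
  intro a
  rw [← hγ a]
  refine (um_eq_zero U).2 ?_
  filter_upwards [h6] with i hi
  exact hi a

end U

end Pool.Agent.OPN.UU1

namespace Pool.Agent.OPN

alias u_poly := UU1.u_poly_pr
alias u_aeval := UU1.u_aeval_pr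
alias coeff_uh := UU1.coeff_uh_pr
alias uh_lift := UU1.uh_lift_pr
alias uh_hom := UU1.uh_hom_pr
alias uh_linInd := UU1.uh_linInd_pr

end Pool.Agent.OPN
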