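import Pool.Agent.Lib_helper77.OPF.UU1
import Pool.Agent.Lib_helper77.OPF.Defs
/-!
# OPN, block UU3: generic forms over the ultraproduct; sequence of polynomials
-/

namespace Pool.Agent.OPN.UU3

open MvPolynomial Pool.Agent.KSS Pool.Agent.KSX Filter Topology
open scoped ENNReal

attribute [local instance] upAlg

section U

variable (U : Ultrafilter ℕ) {F : ℕ → Type} [∀ i, Field (F i)]

/-- the value of an integral polynomial at classes of families -/
theorem aeval_um {ι : Type} (x : ι → ∀ i, F i) (H : MvPolynomial ι ℤ) :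
    aeval (fun c => um U (x c)) H = um U fun i => aeval (fun c => x c i) H := by
  have h1 : aeval (fun c => um U (x c)) H = um U (aeval x H) :=
    (MvPolynomial.comp_aeval_apply x (Ideal.Quotient.mk (uI U F)).toIntAlgHom H).symm
  rw [h1]
  congr 1
  funext i
  exact MvPolynomial.comp_aeval_apply x (Pi.evalRingHom F i).toIntAlgHom H

theorem up_gen_pr {a v : ℕ} (d : Fin a → ℕ) (f : ∀ i, Fin a → MvPolynomial (Fin v) (F i))
    (hf : ∀ i j, (f i j).IsHomogeneous (d j)) [CharZero (UP U F)]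
    (h : ∀ H : MvPolynomial (CI d v) ℤ, H ≠ 0 → ∀ᶠ i in (U : Filter ℕ), Hv (d := d) H (f i) ≠ 0) :
    Gen d fun j => uh U (d j) fun i => f i j := by
  refine ⟨fun j => uh_hom U (d j) _, ?_⟩
  have hx : (fun c : Σ j : Fin a, {α : Fin v →₀ ℕ // α.degree = d j} =>
      (uh U (d c.1) fun i => f i c.1).coeff c.2.1) =
        fun c : CI d v => um U fun i => (f i c.1).coeff c.2.1 := by
    funext c
    exact coeff_uh U (d c.1) (fun i => f i c.1) (fun i => hf i c.1) c.2.1
  have key : AlgebraicIndependent ℤ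
      (fun c : CI d v => um U fun i => (f i c.1).coeff c.2.1) := by
    rw [algebraicIndependent_iff]
    intro H hH
    by_contra hne
    rw [aeval_um U (fun c : CI d v => fun i => (f i c.1).coeff c.2.1) H, um_eq_zero] at hH
    have h1 : ∀ᶠ i in (U : Filter ℕ), False := by
      filter_upwards [hH, h H hne] with i h2 h3
      exact h3 h2
    rw [Filter.eventually_false_iff_eq_bot] at h1
    exact U.neBot.ne h1
  show AlgebraicIndependent ℚ (fun c : Σ j : Fin a, {α : Fin v →₀ ℕ // α.degree = d j} =>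
      (uh U (d c.1) fun i => f i c.1).coeff c.2.1)
  rw [hx]
  have : Algebra.IsAlgebraic ℤ ℚ := IsLocalization.isAlgebraic ℚ (nonZeroDivisors ℤ)
  exact key.extendScalars ℚ

end U

theorem exists_seq_pr (σ : Type) [Countable σ] : ∃ Hs : ℕ → MvPolynomial σ ℤ, (∀ n, Hs n ≠ 0) ∧
    ∀ H : MvPolynomial σ ℤ, H ≠ 0 → ∃ N, ∀ n, N ≤ n → H ∣ Hs n := by
  classical
  have : Countable (MvPolynomial σ ℤ) := by
    rw [← Cardinal.mk_le_aleph0_iff]
    refine (MvPolynomial.cardinalMk_le_max).trans ?_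
    simp [Cardinal.mk_le_aleph0]
  have : Nonempty {H : MvPolynomial σ ℤ // H ≠ 0} := ⟨⟨1, one_ne_zero⟩⟩
  obtain ⟨e, he⟩ := exists_surjective_nat {H : MvPolynomial σ ℤ // H ≠ 0}
  refine ⟨fun n => ∏ k ∈ Finset.range (n + 1), (e k : MvPolynomial σ ℤ), fun n => ?_, fun H hH => ?_⟩
  · exact Finset.prod_ne_zero_iff.mpr fun k _ => (e k).2
  · obtain ⟨k, hk⟩ := he ⟨H, hH⟩
    refine ⟨k, fun n hn => ?_⟩
    have h1 := Finset.dvd_prod_of_mem (fun k => (e k : MvPolynomial σ ℤ))
      (Finset.mem_range.mpr (show k < n + 1 by omega))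
    rw [hk] at h1
    exact h1

end Pool.Agent.OPN.UU3

namespace Pool.Agent.OPN

alias up_gen := UU3.up_gen_pr
alias exists_seq := UU3.exists_seq_pr

end Pool.Agent.OPN
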