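import Pool.Agent.Lib_helper77.OPF.UU1
import Pool.Agent.Lib_helper77.OPF.Defs
import Pool.Agent.Lib_helper80.OPF.L0
/-!
# OPN block UUA: algebraic dependence over an ultraproduct holds almost everywhere
-/

namespace Pool.Agent.OPN.UUA

open MvPolynomial Pool.Agent.KSS Pool.Agent.KSX Filter Topology
open scoped ENNReal

/-- a nonzero polynomial relation with coefficients in a subfield -/
theorem alg_of {K E : Type} [Field K] [Field E] [Algebra K E] (L : IntermediateField K E) (N : ℕ)
    (c : ℕ → E) (hc : ∀ n, c n ∈ L) (x : E) (n0 : ℕ) (hn0 : n0 ∈ Finset.range (N + 1))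
    (h0 : c n0 ≠ 0) (hx : ∑ n ∈ Finset.range (N + 1), c n * x ^ n = 0) : IsAlgebraic L x := by
  refine ⟨∑ n ∈ Finset.range (N + 1), Polynomial.monomial n (⟨c n, hc n⟩ : L), ?_, ?_⟩
  · intro h
    have h1 := congrArg (fun q => Polynomial.coeff q n0) h
    simp only [Polynomial.finsetSum_coeff, Polynomial.coeff_monomial, Polynomial.coeff_zero,
      Finset.sum_ite_eq', hn0, if_true] at h1
    exact h0 (congrArg Subtype.val h1)
  · rw [map_sum, ← hx]
    refine Finset.sum_congr rfl fun n _ => ?_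
    rw [Polynomial.aeval_monomial]
    rfl

open scoped IntermediateField.algebraAdjoinAdjoin in
/-- clearing denominators in an algebraic relation -/
theorem rel_of {K E : Type} [Field K] [Field E] [Algebra K E] {I : Type} (z : I → E) (x : E)
    (h : IsAlgebraic (IntermediateField.adjoin K (Set.range z)) x) :
    ∃ (N : ℕ) (P : ℕ → MvPolynomial I K), aeval z (P N) ≠ 0 ∧
      ∑ n ∈ Finset.range (N + 1), aeval z (P n) * x ^ n = 0 := by
  have h2 : IsAlgebraic (Algebra.adjoin K (Set.range z)) x :=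
    (IsFractionRing.isAlgebraic_iff (Algebra.adjoin K (Set.range z))
      (IntermediateField.adjoin K (Set.range z)) E).2 h
  obtain ⟨p, hp0, hp⟩ := h2
  have h3 : ∀ n, ∃ P : MvPolynomial I K, aeval z P = (p.coeff n : E) := by
    intro n
    have h4 : ∀ y ∈ Algebra.adjoin K (Set.range z), ∃ P : MvPolynomial I K, aeval z P = y := by
      intro y hy
      rw [Algebra.adjoin_range_eq_range_aeval] at hy
      exact hy
    exact h4 _ (p.coeff n).2
  choose P hP using h3
  refine ⟨p.natDegree, P, ?_, ?_⟩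
  · rw [hP]
    intro h7
    apply hp0
    rw [← Polynomial.leadingCoeff_eq_zero]
    exact Subtype.ext h7
  · rw [Polynomial.aeval_eq_sum_range] at hp
    rw [← hp]
    refine Finset.sum_congr rfl fun n _ => ?_
    rw [hP n, Algebra.smul_def]
    rfl

attribute [local instance] upAlg

theorem u_acl_pr (U : Ultrafilter ℕ) (F Ω : ℕ → Type) [∀ i, Field (F i)] [∀ i, Field (Ω i)]
    [∀ i, Algebra (F i) (Ω i)] {I : Type} [Finite I] (ζ : I → ∀ i, Ω i) (ξ : ∀ i, Ω i)
    (h : um U ξ ∈ OPT.acl (UP U F) (Set.range fun a => um U (ζ a))) :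
    ∀ᶠ i in (U : Filter ℕ), ξ i ∈ OPT.acl (F i) (Set.range fun a => ζ a i) := by
  classical
  obtain ⟨N, Q, hQ0, hQ⟩ := rel_of (fun a => um U (ζ a)) (um U ξ) (OPT.mem_acl.1 h)
  have h3 : ∀ n, ∃ P : MvPolynomial I (∀ i, F i), map (Ideal.Quotient.mk (uI U F)) P = Q n :=
    fun n => MvPolynomial.map_surjective (Ideal.Quotient.mk (uI U F))
      Ideal.Quotient.mk_surjective (Q n)
  choose P hP using h3
  have h5 : um U (fun i => ∑ n ∈ Finset.range (N + 1),
      aeval (fun a => ζ a i) (map (Pi.evalRingHom F i) (P n)) * (ξ i) ^ n) = 0 := by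
    rw [← hQ]
    have h6 : (fun i => ∑ n ∈ Finset.range (N + 1),
        aeval (fun a => ζ a i) (map (Pi.evalRingHom F i) (P n)) * (ξ i) ^ n) =
        ∑ n ∈ Finset.range (N + 1),
          (fun i => aeval (fun a => ζ a i) (map (Pi.evalRingHom F i) (P n))) * ξ ^ n := by
      funext i
      rw [Finset.sum_apply]
      rfl
    rw [h6]
    unfold um
    rw [map_sum]
    refine Finset.sum_congr rfl fun n _ => ?_
    rw [map_mul, map_pow]
    have h7 := u_aeval U ζ (P n)
    unfold um at h7
    rw [← h7, hP]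
  rw [um_eq_zero] at h5
  have h6 : ∀ᶠ i in (U : Filter ℕ),
      aeval (fun a => ζ a i) (map (Pi.evalRingHom F i) (P N)) ≠ 0 := by
    rw [Ultrafilter.eventually_not, ← um_eq_zero, ← u_aeval, hP]
    exact hQ0
  filter_upwards [h5, h6] with i hi1 hi2
  rw [OPT.mem_acl]
  refine alg_of _ N
    (fun n => aeval (fun a => ζ a i) (map (Pi.evalRingHom F i) (P n))) (fun n => ?_) (ξ i)
    N (Finset.self_mem_range_succ _) hi2 hi1
  refine IntermediateField.algebra_adjoin_le_adjoin _ _ ?_
  rw [Algebra.adjoin_range_eq_range_aeval]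
  exact ⟨_, rfl⟩

end Pool.Agent.OPN.UUA

namespace Pool.Agent.OPN

alias u_acl := UUA.u_acl_pr

end Pool.Agent.OPN
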