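import Pool.Agent.Lib_helper77.OPF.UP
/-!
# OPN (MP_2c2240_ag), part U, block UUV: the limit valuation ring
-/

namespace Pool.Agent.OPN.UUV

open Pool.Agent.OPN
open Filter Topology

section S

variable (U : Ultrafilter ℕ) {Ω : ℕ → Type} [∀ i, Field (Ω i)]
    (w : ∀ i, AddValuation (Ω i) (WithTop ℝ)) (A : ℕ → ℕ)

/-- the lower set of the real numbers below the limit value of the family `ξ` -/
def S (ξ : ∀ i, Ω i) : Set ℝ :=
  {c : ℝ | ∀ᶠ i in (U : Filter ℕ), ((c * A i : ℝ) : WithTop ℝ) ≤ w i (ξ i)}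

theorem S_lower {ξ : ∀ i, Ω i} {c c' : ℝ} (h : c' ≤ c) (hc : c ∈ S U w A ξ) :
    c' ∈ S U w A ξ := by
  have h0 : ∀ᶠ i in (U : Filter ℕ), ((c * A i : ℝ) : WithTop ℝ) ≤ w i (ξ i) := hc
  show ∀ᶠ i in (U : Filter ℕ), ((c' * A i : ℝ) : WithTop ℝ) ≤ w i (ξ i)
  filter_upwards [h0] with i hi
  refine le_trans ?_ hi
  exact WithTop.coe_le_coe.2 (mul_le_mul_of_nonneg_right h (Nat.cast_nonneg _))

theorem S_add {ξ η : ∀ i, Ω i} {c : ℝ} (h1 : c ∈ S U w A ξ) (h2 : c ∈ S U w A η) :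
    c ∈ S U w A (ξ + η) := by
  have h3 : ∀ᶠ i in (U : Filter ℕ), ((c * A i : ℝ) : WithTop ℝ) ≤ w i (ξ i) := h1
  have h4 : ∀ᶠ i in (U : Filter ℕ), ((c * A i : ℝ) : WithTop ℝ) ≤ w i (η i) := h2
  show ∀ᶠ i in (U : Filter ℕ), ((c * A i : ℝ) : WithTop ℝ) ≤ w i (ξ i + η i)
  filter_upwards [h3, h4] with i h5 h6
  exact le_trans (le_min h5 h6) ((w i).map_add _ _)

theorem S_neg {ξ : ∀ i, Ω i} {c : ℝ} (h1 : c ∈ S U w A ξ) : c ∈ S U w A (-ξ) := by
  have h3 : ∀ᶠ i in (U : Filter ℕ), ((c * A i : ℝ) : WithTop ℝ) ≤ w i (ξ i) := h1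
  show ∀ᶠ i in (U : Filter ℕ), ((c * A i : ℝ) : WithTop ℝ) ≤ w i (-(ξ i))
  filter_upwards [h3] with i h5
  rw [(w i).map_neg]
  exact h5

theorem S_mul {ξ η : ∀ i, Ω i} {c d : ℝ} (h1 : c ∈ S U w A ξ) (h2 : d ∈ S U w A η) :
    c + d ∈ S U w A (ξ * η) := by
  have h3 : ∀ᶠ i in (U : Filter ℕ), ((c * A i : ℝ) : WithTop ℝ) ≤ w i (ξ i) := h1
  have h4 : ∀ᶠ i in (U : Filter ℕ), ((d * A i : ℝ) : WithTop ℝ) ≤ w i (η i) := h2
  show ∀ᶠ i in (U : Filter ℕ), (((c + d) * A i : ℝ) : WithTop ℝ) ≤ w i (ξ i * η i)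
  filter_upwards [h3, h4] with i h5 h6
  rw [(w i).map_mul, add_mul, WithTop.coe_add]
  exact add_le_add h5 h6

theorem S_zero {ξ : ∀ i, Ω i} (h : ∀ᶠ i in (U : Filter ℕ), ξ i = 0) (c : ℝ) :
    c ∈ S U w A ξ := by
  show ∀ᶠ i in (U : Filter ℕ), ((c * A i : ℝ) : WithTop ℝ) ≤ w i (ξ i)
  filter_upwards [h] with i hi
  rw [hi, (w i).map_zero]
  exact le_top

theorem S_one (hA : ∀ i, 1 ≤ A i) (c : ℝ) : c ∈ S U w A (1 : ∀ i, Ω i) ↔ c ≤ 0 := by
  constructor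
  · intro h
    have h1 : ∀ᶠ i in (U : Filter ℕ), ((c * A i : ℝ) : WithTop ℝ) ≤ w i 1 := h
    obtain ⟨i, hi⟩ := h1.exists
    rw [(w i).map_one] at hi
    have h2 : c * A i ≤ 0 := by
      have h3 : ((c * A i : ℝ) : WithTop ℝ) ≤ ((0 : ℝ) : WithTop ℝ) := hi
      exact WithTop.coe_le_coe.1 h3
    have h4 : (1 : ℝ) ≤ A i := by exact_mod_cast hA i
    by_contra h5
    push Not at h5
    nlinarith
  · intro h
    show ∀ᶠ i in (U : Filter ℕ), ((c * A i : ℝ) : WithTop ℝ) ≤ w i 1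
    refine Eventually.of_forall fun i => ?_
    rw [(w i).map_one]
    have h3 : ((c * A i : ℝ) : WithTop ℝ) ≤ ((0 : ℝ) : WithTop ℝ) :=
      WithTop.coe_le_coe.2 (mul_nonpos_of_nonpos_of_nonneg h (Nat.cast_nonneg _))
    exact h3

theorem S_congr {ξ η : ∀ i, Ω i} (h : um U ξ = um U η) : S U w A ξ = S U w A η := by
  have h1 : ∀ᶠ i in (U : Filter ℕ), ξ i = η i := by
    have h2 : um U (ξ - η) = 0 := by
      have h3 : um U (ξ - η) = um U ξ - um U η := map_sub _ _ _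
      rw [h3, h, sub_self]
    have h4 := (um_eq_zero U).1 h2
    filter_upwards [h4] with i hi
    rw [Pi.sub_apply] at hi
    exact sub_eq_zero.1 hi
  ext c
  constructor
  · intro hc
    have h0 : ∀ᶠ i in (U : Filter ℕ), ((c * A i : ℝ) : WithTop ℝ) ≤ w i (ξ i) := hc
    show ∀ᶠ i in (U : Filter ℕ), ((c * A i : ℝ) : WithTop ℝ) ≤ w i (η i)
    filter_upwards [h0, h1] with i h5 h6
    rw [← h6]
    exact h5
  · intro hc
    have h0 : ∀ᶠ i in (U : Filter ℕ), ((c * A i : ℝ) : WithTop ℝ) ≤ w i (η i) := hc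
    show ∀ᶠ i in (U : Filter ℕ), ((c * A i : ℝ) : WithTop ℝ) ≤ w i (ξ i)
    filter_upwards [h0, h1] with i h5 h6
    rw [h6]
    exact h5

theorem S_inv {ξ : ∀ i, Ω i} {c : ℝ} (h : c ∉ S U w A ξ) : -c ∈ S U w A (ξ⁻¹) := by
  have h1 : ∀ᶠ i in (U : Filter ℕ), ¬ ((c * A i : ℝ) : WithTop ℝ) ≤ w i (ξ i) :=
    Ultrafilter.eventually_not.2 h
  show ∀ᶠ i in (U : Filter ℕ), (((-c) * A i : ℝ) : WithTop ℝ) ≤ w i ((ξ i)⁻¹)
  filter_upwards [h1] with i hi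
  push Not at hi
  have h2 : w i (ξ i) ≠ ⊤ := ne_top_of_lt hi
  have h3 : ξ i ≠ 0 := by
    intro h4
    rw [h4, (w i).map_zero] at h2
    exact h2 rfl
  obtain ⟨r, hr⟩ := WithTop.ne_top_iff_exists.1 h2
  by_cases h5 : w i ((ξ i)⁻¹) = ⊤
  · rw [h5]
    exact le_top
  · obtain ⟨s, hs⟩ := WithTop.ne_top_iff_exists.1 h5
    have h6 : w i (ξ i) + w i ((ξ i)⁻¹) = 0 := by
      rw [← (w i).map_mul, mul_inv_cancel₀ h3, (w i).map_one]
    rw [← hr, ← hs] at h6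
    have h7 : r + s = 0 := by
      have h8 : ((r + s : ℝ) : WithTop ℝ) = ((0 : ℝ) : WithTop ℝ) := by
        rw [WithTop.coe_add]
        exact h6
      exact WithTop.coe_injective h8
    rw [← hr] at hi
    have h9 : r < c * A i := WithTop.coe_lt_coe.1 hi
    rw [← hs]
    refine WithTop.coe_le_coe.2 ?_
    linarith

/-- the lower set of an element of the ultraproduct -/
noncomputable def Sq (y : UP U Ω) : Set ℝ := S U w A (Classical.choose (um_surj U y))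

theorem Sq_um (ξ : ∀ i, Ω i) : Sq U w A (um U ξ) = S U w A ξ :=
  S_congr U w A (Classical.choose_spec (um_surj U (um U ξ)))

variable {U w A}

theorem Sq_lower {y : UP U Ω} {c c' : ℝ} (h : c' ≤ c) (hc : c ∈ Sq U w A y) :
    c' ∈ Sq U w A y := S_lower U w A h hc

theorem Sq_add {y z : UP U Ω} {c : ℝ} (h1 : c ∈ Sq U w A y) (h2 : c ∈ Sq U w A z) :
    c ∈ Sq U w A (y + z) := by
  obtain ⟨ξ, rfl⟩ := um_surj U y
  obtain ⟨η, rfl⟩ := um_surj U z
  rw [Sq_um] at h1 h2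
  have h3 : um U ξ + um U η = um U (ξ + η) := (map_add _ _ _).symm
  rw [h3, Sq_um]
  exact S_add U w A h1 h2

theorem Sq_neg {y : UP U Ω} {c : ℝ} (h1 : c ∈ Sq U w A y) : c ∈ Sq U w A (-y) := by
  obtain ⟨ξ, rfl⟩ := um_surj U y
  rw [Sq_um] at h1
  have h3 : -(um U ξ) = um U (-ξ) := (map_neg _ _).symm
  rw [h3, Sq_um]
  exact S_neg U w A h1

theorem Sq_mul {y z : UP U Ω} {c d : ℝ} (h1 : c ∈ Sq U w A y) (h2 : d ∈ Sq U w A z) :
    c + d ∈ Sq U w A (y * z) := by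
  obtain ⟨ξ, rfl⟩ := um_surj U y
  obtain ⟨η, rfl⟩ := um_surj U z
  rw [Sq_um] at h1 h2
  have h3 : um U ξ * um U η = um U (ξ * η) := (map_mul _ _ _).symm
  rw [h3, Sq_um]
  exact S_mul U w A h1 h2

theorem Sq_zero (c : ℝ) : c ∈ Sq U w A (0 : UP U Ω) := by
  have h : (0 : UP U Ω) = um U (0 : ∀ i, Ω i) := (map_zero _).symm
  rw [h, Sq_um]
  exact S_zero U w A (Eventually.of_forall fun _ => rfl) c

theorem Sq_one (hA : ∀ i, 1 ≤ A i) (c : ℝ) : c ∈ Sq U w A (1 : UP U Ω) ↔ c ≤ 0 := by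
  have h : (1 : UP U Ω) = um U (1 : ∀ i, Ω i) := (map_one _).symm
  rw [h, Sq_um]
  exact S_one U w A hA c

theorem Sq_inv {y : UP U Ω} {c : ℝ} (h : c ∉ Sq U w A y) : -c ∈ Sq U w A (y⁻¹) := by
  obtain ⟨ξ, rfl⟩ := um_surj U y
  rw [Sq_um] at h
  by_cases hy : um U ξ = 0
  · exfalso
    apply h
    exact S_zero U w A ((um_eq_zero U).1 hy) c
  · have h3 : (um U ξ)⁻¹ = um U (ξ⁻¹) := by
      refine inv_eq_of_mul_eq_one_right ?_
      have h4 : um U ξ * um U (ξ⁻¹) = um U (ξ * ξ⁻¹) := (map_mul _ _ _).symm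
      rw [h4, ← sub_eq_zero]
      have h5 : um U (ξ * ξ⁻¹) - 1 = um U (ξ * ξ⁻¹ - 1) := by
        have h6 : (1 : UP U Ω) = um U (1 : ∀ i, Ω i) := (map_one _).symm
        rw [h6]
        exact (map_sub _ _ _).symm
      rw [h5, um_eq_zero]
      have h7 : ¬ ∀ᶠ i in (U : Filter ℕ), ξ i = 0 := fun h8 => hy ((um_eq_zero U).2 h8)
      have h9 := Ultrafilter.eventually_not.2 h7
      filter_upwards [h9] with i hi
      show ξ i * (ξ i)⁻¹ - 1 = 0
      rw [mul_inv_cancel₀ hi, sub_self]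
    rw [h3, Sq_um]
    exact S_inv U w A h

variable (U w A)

/-- the limit valuation ring -/
noncomputable def Ring0 (hA : ∀ i, 1 ≤ A i) : ValuationSubring (UP U Ω) where
  carrier := {y | (Sq U w A y).Nonempty}
  mul_mem' := by
    rintro y z ⟨c, hc⟩ ⟨d, hd⟩
    exact ⟨c + d, Sq_mul hc hd⟩
  one_mem' := ⟨0, (Sq_one hA 0).2 le_rfl⟩
  add_mem' := by
    rintro y z ⟨c, hc⟩ ⟨d, hd⟩
    exact ⟨min c d, Sq_add (Sq_lower (min_le_left _ _) hc) (Sq_lower (min_le_right _ _) hd)⟩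
  zero_mem' := ⟨0, Sq_zero 0⟩
  neg_mem' := by
    rintro y ⟨c, hc⟩
    exact ⟨c, Sq_neg hc⟩
  mem_or_inv_mem' := by
    intro y
    by_cases h : (0 : ℝ) ∈ Sq U w A y
    · exact Or.inl ⟨0, h⟩
    · exact Or.inr ⟨-0, Sq_inv h⟩

theorem mem_Ring0 (hA : ∀ i, 1 ≤ A i) (y : UP U Ω) :
    y ∈ Ring0 U w A hA ↔ (Sq U w A y).Nonempty := Iff.rfl

variable {U w A}

theorem not_univ_of_inv (hA : ∀ i, 1 ≤ A i) {y : UP U Ω} (hy : y ≠ 0)
    (h : (Sq U w A (y⁻¹)).Nonempty) : ∃ c : ℝ, c ∉ Sq U w A y := by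
  obtain ⟨d, hd⟩ := h
  by_contra hc
  push Not at hc
  have h1 := Sq_mul (hc (1 - d)) hd
  rw [mul_inv_cancel₀ hy, sub_add_cancel, Sq_one hA] at h1
  exact absurd h1 (by norm_num)

theorem bdd_of_not {y : UP U Ω} {c : ℝ} (h : c ∉ Sq U w A y) : BddAbove (Sq U w A y) := by
  refine ⟨c, fun d hd => ?_⟩
  by_contra h1
  push Not at h1
  exact h (Sq_lower h1.le hd)

theorem mem_max_iff (hA : ∀ i, 1 ≤ A i) (y : Ring0 U w A hA) :
    y ∈ IsLocalRing.maximalIdeal (Ring0 U w A hA) ↔ ∀ c : ℝ, c ∈ Sq U w A (y : UP U Ω) := by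
  rw [IsLocalRing.mem_maximalIdeal, mem_nonunits_iff]
  constructor
  · intro h c
    by_contra hc
    apply h
    have h0 : (y : UP U Ω) ≠ 0 := by
      intro h1
      rw [h1] at hc
      exact hc (Sq_zero c)
    have h2 : (y : UP U Ω)⁻¹ ∈ Ring0 U w A hA := ⟨-c, Sq_inv hc⟩
    refine ⟨⟨y, ⟨(y : UP U Ω)⁻¹, h2⟩, ?_, ?_⟩, rfl⟩
    · exact Subtype.ext (mul_inv_cancel₀ h0)
    · exact Subtype.ext (inv_mul_cancel₀ h0)
  · intro h h1
    obtain ⟨u, hu⟩ := h1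
    have h2 : (y : UP U Ω) * ((u⁻¹ : (Ring0 U w A hA)ˣ) : Ring0 U w A hA) = 1 := by
      have h3 : y * ((u⁻¹ : (Ring0 U w A hA)ˣ) : Ring0 U w A hA) = 1 := by
        rw [← hu]
        exact u.mul_inv
      exact congrArg Subtype.val h3
    have h0 : (y : UP U Ω) ≠ 0 := by
      intro h1
      rw [h1, zero_mul] at h2
      exact zero_ne_one h2
    have h4 : (((u⁻¹ : (Ring0 U w A hA)ˣ) : Ring0 U w A hA) : UP U Ω) = (y : UP U Ω)⁻¹ :=
      (inv_eq_of_mul_eq_one_right h2).symm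
    have h5 : (Sq U w A ((y : UP U Ω)⁻¹)).Nonempty := by
      rw [← h4]
      exact (((u⁻¹ : (Ring0 U w A hA)ˣ) : Ring0 U w A hA)).2
    obtain ⟨c, hc⟩ := not_univ_of_inv hA h0 h5
    exact hc (h c)

open Classical in
variable (U w A) in
/-- the limit value -/
noncomputable def V0 (y : UP U Ω) : WithTop ℝ :=
  if ∀ c : ℝ, c ∈ Sq U w A y then ⊤ else ((sSup (Sq U w A y) : ℝ) : WithTop ℝ)

theorem le_V0 {y : UP U Ω} {c : ℝ} (h : c ∈ Sq U w A y) : (c : WithTop ℝ) ≤ V0 U w A y := by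
  classical
  unfold V0
  split_ifs with h1
  · exact le_top
  · push Not at h1
    obtain ⟨d, hd⟩ := h1
    exact WithTop.coe_le_coe.2 (le_csSup (bdd_of_not hd) h)

theorem lt_V0 {y : UP U Ω} (hy : (Sq U w A y).Nonempty) {c : ℝ}
    (h : (c : WithTop ℝ) < V0 U w A y) : ∃ c' : ℝ, c < c' ∧ c' ∈ Sq U w A y := by
  classical
  unfold V0 at h
  split_ifs at h with h1
  · exact ⟨c + 1, lt_add_one c, h1 _⟩
  · obtain ⟨c', h2, h3⟩ := exists_lt_of_lt_csSup hy (WithTop.coe_lt_coe.1 h)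
    exact ⟨c', h3, h2⟩

theorem V0_top {y : UP U Ω} (h : ∀ c : ℝ, c ∈ Sq U w A y) : V0 U w A y = ⊤ := by
  classical
  unfold V0
  rw [if_pos h]

theorem V0_congr {y z : UP U Ω} (h : ∀ c : ℝ, c ∈ Sq U w A (y - z)) :
    V0 U w A y = V0 U w A z := by
  have h1 : Sq U w A y = Sq U w A z := by
    ext c
    constructor
    · intro hc
      have h2 := Sq_add hc (Sq_neg (h c))
      rwa [neg_sub, add_sub_cancel] at h2
    · intro hc
      have h2 := Sq_add hc (h c)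
      rwa [add_sub_cancel] at h2
  classical
  unfold V0
  rw [h1]

theorem le_of_real {t s : WithTop ℝ} (h : ∀ c : ℝ, (c : WithTop ℝ) < t → (c : WithTop ℝ) ≤ s) :
    t ≤ s := by
  by_contra hts
  push Not at hts
  obtain ⟨r, hr⟩ := WithTop.ne_top_iff_exists.1 (ne_top_of_lt hts)
  rw [← hr] at hts h
  by_cases ht : t = ⊤
  · have h1 := h (r + 1) (by rw [ht]; exact WithTop.coe_lt_top _)
    have h2 := WithTop.coe_le_coe.1 h1
    linarith
  · obtain ⟨q, hq⟩ := WithTop.ne_top_iff_exists.1 ht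
    rw [← hq] at hts h
    have h3 := WithTop.coe_lt_coe.1 hts
    have h1 := h ((r + q) / 2) (WithTop.coe_lt_coe.2 (by linarith))
    have h2 := WithTop.coe_le_coe.1 h1
    linarith

theorem V0_add {y z : UP U Ω} (hy : (Sq U w A y).Nonempty) (hz : (Sq U w A z).Nonempty) :
    min (V0 U w A y) (V0 U w A z) ≤ V0 U w A (y + z) := by
  refine le_of_real fun c hc => ?_
  obtain ⟨c1, h1, h2⟩ := lt_V0 hy (lt_of_lt_of_le hc (min_le_left _ _))
  obtain ⟨c2, h3, h4⟩ := lt_V0 hz (lt_of_lt_of_le hc (min_le_right _ _))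
  exact le_V0 (Sq_add (Sq_lower h1.le h2) (Sq_lower h3.le h4))

theorem V0_real {y : UP U Ω} {c : ℝ} (h : c ∉ Sq U w A y) (hy : (Sq U w A y).Nonempty) :
    ∃ α : ℝ, V0 U w A y = α ∧ (∀ d : ℝ, d < α → d ∈ Sq U w A y) ∧
      (∀ d ∈ Sq U w A y, d ≤ α) := by
  classical
  have h1 : V0 U w A y = ((sSup (Sq U w A y) : ℝ) : WithTop ℝ) := by
    unfold V0
    rw [if_neg]
    intro h2
    exact h (h2 c)
  refine ⟨sSup (Sq U w A y), h1, ?_, ?_⟩
  · intro d hd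
    obtain ⟨c', h2, h3⟩ := exists_lt_of_lt_csSup hy hd
    exact Sq_lower h3.le h2
  · intro d hd
    exact le_csSup (bdd_of_not h) hd

theorem V0_mul (hA : ∀ i, 1 ≤ A i) {y z : UP U Ω} (hy : (Sq U w A y).Nonempty)
    (hz : (Sq U w A z).Nonempty) :
    V0 U w A (y * z) = V0 U w A y + V0 U w A z := by
  by_cases h1 : ∀ c : ℝ, c ∈ Sq U w A y
  · rw [V0_top h1, top_add]
    obtain ⟨d, hd⟩ := hz
    refine V0_top fun c => ?_
    have h2 := Sq_mul (h1 (c - d)) hd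
    rwa [sub_add_cancel] at h2
  by_cases h2 : ∀ c : ℝ, c ∈ Sq U w A z
  · rw [V0_top h2, add_top]
    obtain ⟨d, hd⟩ := hy
    refine V0_top fun c => ?_
    have h3 := Sq_mul hd (h2 (c - d))
    rwa [add_sub_cancel] at h3
  push Not at h1 h2
  obtain ⟨c1, hc1⟩ := h1
  obtain ⟨c2, hc2⟩ := h2
  have hy0 : y ≠ 0 := by
    intro h
    rw [h] at hc1
    exact hc1 (Sq_zero c1)
  have hz0 : z ≠ 0 := by
    intro h
    rw [h] at hc2
    exact hc2 (Sq_zero c2)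
  have hyz : (Sq U w A (y * z)).Nonempty := by
    obtain ⟨a, ha⟩ := hy
    obtain ⟨b, hb⟩ := hz
    exact ⟨a + b, Sq_mul ha hb⟩
  have hyz' : (Sq U w A ((y * z)⁻¹)).Nonempty := by
    refine ⟨-c1 + -c2, ?_⟩
    rw [mul_inv]
    exact Sq_mul (Sq_inv hc1) (Sq_inv hc2)
  obtain ⟨c3, hc3⟩ := not_univ_of_inv hA (mul_ne_zero hy0 hz0) hyz'
  obtain ⟨α, hα, hα1, hα2⟩ := V0_real hc1 hy
  obtain ⟨β, hβ, hβ1, hβ2⟩ := V0_real hc2 hz
  obtain ⟨γ, hγ, hγ1, hγ2⟩ := V0_real hc3 hyz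
  rw [hα, hβ, hγ, ← WithTop.coe_add]
  congr 1
  refine le_antisymm ?_ ?_
  · -- `γ ≤ α + β`
    refine le_of_forall_pos_le_add fun ε hε => ?_
    have h4 : α + ε / 2 ∉ Sq U w A y := fun h => by
      have := hα2 _ h
      linarith
    have h5 := Sq_mul (Sq_inv h4) (hγ1 (γ - ε / 2) (by linarith))
    have h6 : y⁻¹ * (y * z) = z := by
      rw [← mul_assoc, inv_mul_cancel₀ hy0, one_mul]
    rw [h6] at h5
    have h7 := hβ2 _ h5
    linarith
  · refine le_of_forall_pos_le_add fun ε hε => ?_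
    have h5 := Sq_mul (hα1 (α - ε / 2) (by linarith)) (hβ1 (β - ε / 2) (by linarith))
    have h7 := hγ2 _ h5
    linarith

theorem V0_one (hA : ∀ i, 1 ≤ A i) : V0 U w A (1 : UP U Ω) = 0 := by
  have h1 : (1 : ℝ) ∉ Sq U w A (1 : UP U Ω) := by
    rw [Sq_one hA]
    norm_num
  have h0 : (0 : ℝ) ∈ Sq U w A (1 : UP U Ω) := (Sq_one hA 0).2 le_rfl
  obtain ⟨α, hα, hα1, hα2⟩ := V0_real h1 ⟨0, h0⟩
  have h2 : α = 0 := by
    refine le_antisymm ?_ (hα2 0 h0)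
    by_contra h3
    push Not at h3
    have h4 := hα1 (α / 2) (by linarith)
    rw [Sq_one hA] at h4
    linarith
  rw [hα, h2]
  rfl

variable (U w A) in
/-- the limit value on the residue field -/
noncomputable def W0 (hA : ∀ i, 1 ≤ A i) (x : IsLocalRing.ResidueField (Ring0 U w A hA)) :
    WithTop ℝ :=
  V0 U w A (Classical.choose (IsLocalRing.residue_surjective (R := Ring0 U w A hA) x) :
    Ring0 U w A hA)

theorem W0_residue (hA : ∀ i, 1 ≤ A i) (y : Ring0 U w A hA) :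
    W0 U w A hA (IsLocalRing.residue _ y) = V0 U w A (y : UP U Ω) := by
  unfold W0
  set z := Classical.choose (IsLocalRing.residue_surjective (R := Ring0 U w A hA)
    (IsLocalRing.residue _ y)) with hz
  have h1 : IsLocalRing.residue _ z = IsLocalRing.residue _ y :=
    Classical.choose_spec (IsLocalRing.residue_surjective (R := Ring0 U w A hA)
      (IsLocalRing.residue _ y))
  have h2 : z - y ∈ IsLocalRing.maximalIdeal (Ring0 U w A hA) := by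
    rw [← IsLocalRing.residue_eq_zero_iff, map_sub, h1, sub_self]
  rw [mem_max_iff] at h2
  exact V0_congr h2

end S

theorem uval_pr (U : Ultrafilter ℕ) (Ω : ℕ → Type) [∀ i, Field (Ω i)]
    (w : ∀ i, AddValuation (Ω i) (WithTop ℝ)) (A : ℕ → ℕ) (hA : ∀ i, 1 ≤ A i) :
    ∃ (O : ValuationSubring (UP U Ω))
      (W : AddValuation (IsLocalRing.ResidueField O) (WithTop ℝ)),
      (∀ ξ : ∀ i, Ω i, um U ξ ∈ O ↔
        ∃ c : ℝ, ∀ᶠ i in (U : Filter ℕ), ((c * A i : ℝ) : WithTop ℝ) ≤ w i (ξ i)) ∧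
      ∀ (ξ : ∀ i, Ω i) (h : um U ξ ∈ O) (c : ℝ),
        ((∀ᶠ i in (U : Filter ℕ), ((c * A i : ℝ) : WithTop ℝ) ≤ w i (ξ i)) →
          (c : WithTop ℝ) ≤ W (IsLocalRing.residue O ⟨um U ξ, h⟩)) ∧
        ((c : WithTop ℝ) < W (IsLocalRing.residue O ⟨um U ξ, h⟩) →
          ∀ᶠ i in (U : Filter ℕ), ((c * A i : ℝ) : WithTop ℝ) < w i (ξ i)) := by
  have hsurj := IsLocalRing.residue_surjective (R := Ring0 U w A hA)
  refine ⟨Ring0 U w A hA, AddValuation.of (W0 U w A hA) ?_ ?_ ?_ ?_, ?_, ?_⟩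
  · have h := W0_residue hA (0 : Ring0 U w A hA)
    rw [map_zero] at h
    rw [h]
    exact V0_top fun c => Sq_zero c
  · have h := W0_residue hA (1 : Ring0 U w A hA)
    rw [map_one] at h
    rw [h]
    exact V0_one hA
  · intro x y
    obtain ⟨a, rfl⟩ := hsurj x
    obtain ⟨b, rfl⟩ := hsurj y
    rw [← map_add, W0_residue, W0_residue, W0_residue]
    exact V0_add a.2 b.2
  · intro x y
    obtain ⟨a, rfl⟩ := hsurj x
    obtain ⟨b, rfl⟩ := hsurj y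
    rw [← map_mul, W0_residue, W0_residue, W0_residue]
    exact V0_mul hA a.2 b.2
  · intro ξ
    rw [mem_Ring0, Sq_um]
    rfl
  · intro ξ h c
    rw [AddValuation.of_apply, W0_residue]
    constructor
    · intro hc
      refine le_V0 ?_
      show c ∈ Sq U w A (um U ξ)
      rw [Sq_um]
      exact hc
    · intro hc
      obtain ⟨c', h1, h2⟩ := lt_V0 h hc
      have h3 : c' ∈ Sq U w A (um U ξ) := h2
      rw [Sq_um] at h3
      have h4 : ∀ᶠ i in (U : Filter ℕ), ((c' * A i : ℝ) : WithTop ℝ) ≤ w i (ξ i) := h3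
      filter_upwards [h4] with i hi
      refine lt_of_lt_of_le ?_ hi
      refine WithTop.coe_lt_coe.2 ?_
      have h5 : (0 : ℝ) < A i := by exact_mod_cast hA i
      exact mul_lt_mul_of_pos_right h1 h5

end Pool.Agent.OPN.UUV

namespace Pool.Agent.OPN

alias uval := UUV.uval_pr

end Pool.Agent.OPN
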