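import Pool.Agent.Lib_helper77.OPF.UU2
import Pool.Agent.Lib_helper77.OPF.UU3
import Pool.Agent.Lib_helper77.OPF.UGL
import Pool.Agent.Lib_helper77.OPF.UCL
import Pool.Agent.Lib_helper77.OPF.UAF
import Pool.Agent.Lib_helper77.OPF.UUA
import Pool.Agent.Lib_helper77.OPF.UUV
import Pool.Agent.Lib_helper77.OPF.ULF
import Pool.Agent.Lib_helper77.OPF.UTR
import Pool.Agent.Lib_helper80.OPF.M1b
/-!
# OPN, block UVL: the limit valuation of a sequence of jets
-/

namespace Pool.Agent.OPN

open MvPolynomial Pool.Agent.KSS Pool.Agent.KSX Filter Topology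
open scoped ENNReal

attribute [local instance] upAlg

/-- algebraic independence from one coordinate at a time -/
theorem uvl_ind {K E : Type} [Field K] [Field E] [Algebra K E] {v : ℕ} (z : Fin v → E)
    (h : ∀ j : Fin v, AlgebraicIndependent K (fun l : {l : Fin v | (l : ℕ) < j} => z l) →
      z j ∉ OPT.acl K (z '' {l : Fin v | (l : ℕ) < j})) : AlgebraicIndependent K z := by
  have key : ∀ j : ℕ, j ≤ v →
      AlgebraicIndependent K (fun l : {l : Fin v | (l : ℕ) < j} => z l) := by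
    intro j
    induction j with
    | zero =>
      intro _
      have : IsEmpty {l : Fin v | (l : ℕ) < 0} := ⟨fun l => absurd l.2 (Nat.not_lt_zero _)⟩
      rw [algebraicIndependent_empty_type_iff]
      exact (algebraMap K E).injective
    | succ j ih =>
      intro hj
      have h1 := ih (by omega)
      have h2 := h ⟨j, by omega⟩ h1
      have hset : {l : Fin v | (l : ℕ) < j + 1} =
          insert (⟨j, by omega⟩ : Fin v) {l : Fin v | (l : ℕ) < j} := by
        ext l
        rw [Set.mem_ofPred_eq, Set.mem_insert_iff, Set.mem_ofPred_eq, Fin.ext_iff]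
        show (l : ℕ) < j + 1 ↔ (l : ℕ) = j ∨ (l : ℕ) < j
        omega
      rw [hset]
      refine (AlgebraicIndepOn.insert_iff (x := z) ?_).2 ⟨h1, ?_⟩
      · intro h3
        exact lt_irrefl j h3
      · intro h3
        apply h2
        rw [OPT.mem_acl]
        obtain ⟨P, hP, hP'⟩ := h3
        let φ : Algebra.adjoin K (z '' {l : Fin v | (l : ℕ) < j}) →+*
            IntermediateField.adjoin K (z '' {l : Fin v | (l : ℕ) < j}) :=
          (Subalgebra.inclusion (IntermediateField.algebra_adjoin_le_adjoin K _)).toRingHom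
        refine ⟨P.map φ, ?_, ?_⟩
        · rw [Polynomial.map_ne_zero_iff (Subalgebra.inclusion_injective _)]
          exact hP
        · rw [Polynomial.aeval_def, Polynomial.eval₂_map]
          rw [Polynomial.aeval_def] at hP'
          exact hP'
  have h1 := key v le_rfl
  have h2 : AlgebraicIndependent K
      ((fun l : {l : Fin v | (l : ℕ) < v} => z l) ∘ fun l : Fin v => ⟨l, l.2⟩) :=
    h1.comp _ (fun a b hab => by simpa using hab)
  exact h2

/-- distances add up to at most the codimension -/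
theorem uvl_K {v : ℕ} (U : Ultrafilter ℕ) (F κ Ω : ℕ → Type) [∀ i, Field (F i)]
    [∀ i, Field (κ i)] [∀ i, Algebra (F i) (κ i)] [∀ i, Field (Ω i)]
    [∀ i, Algebra (F i) (Ω i)] (ι : ∀ i, PowerSeries (κ i) →+* Ω i)
    (hι : ∀ i (a : F i), ι i (PowerSeries.C (algebraMap (F i) (κ i) a)) =
      algebraMap (F i) (Ω i) a)
    (w : ∀ i, AddValuation (Ω i) (WithTop ℝ)) (hw : ∀ i f, w i (ι i f) = OPT.oR f)
    (A L c : ℕ → ℕ) (hA : ∀ i, 1 ≤ A i) (z : ∀ i, Fin v → PowerSeries (κ i))
    (hz : ∀ i M, L i ≤ M → v * M ≤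
      tau (F i) (fun p : Fin v × Fin M => PowerSeries.coeff (p.2 : ℕ) (z i p.1)) + c i)
    (C : ℝ) (hc : ∀ᶠ i in (U : Filter ℕ), (c i : ℝ) ≤ C * A i)
    (b : Fin v → ∀ i, Ω i)
    (hb : ∀ j : Fin v, um U (b j) ∈ OPT.Om (UP U F) (fun l => um U fun i => ι i (z i l)) j)
    (r : Fin v → ℝ)
    (hr : ∀ j, ∀ᶠ i in (U : Filter ℕ), ((r j * A i : ℝ) : WithTop ℝ) <
      w i (ι i (z i j) - b j i)) : ∑ j, r j ≤ C := by
  classical
  have h1 : ∀ j : Fin v, ∀ᶠ i in (U : Filter ℕ),
      b j i ∈ OPT.Om (F i) (fun l => ι i (z i l)) j := by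
    intro j
    have h2 := u_acl U F Ω (I := {l : Fin v // (l : ℕ) < j})
      (fun l i => ι i (z i l)) (b j) (by
        have h3 := hb j
        unfold OPT.Om at h3
        rw [Set.image_eq_range] at h3
        exact h3)
    filter_upwards [h2] with i hi
    unfold OPT.Om
    rw [Set.image_eq_range]
    exact hi
  obtain ⟨i, hi1, hi2, hi3⟩ := ((Filter.eventually_all.2 h1).and
    ((Filter.eventually_all.2 hr).and hc)).exists
  have h2 := count (F := F i) (κ := κ i) (Ω := Ω i) (ι i) (hι i) (w i) (hw i) (z i) (hz i)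
    (fun j => b j i) hi1 (fun j => ⌈r j * A i⌉₊) (by
      intro j μ hμ
      rw [Nat.lt_ceil] at hμ
      exact lt_trans (WithTop.coe_lt_coe.2 hμ) (hi2 j))
  have hA' : (0 : ℝ) < A i := by exact_mod_cast hA i
  have h3 : (∑ j, r j) * A i ≤ C * A i := by
    calc (∑ j, r j) * A i = ∑ j, r j * A i := Finset.sum_mul _ _ _
      _ ≤ ∑ j, ((⌈r j * A i⌉₊ : ℕ) : ℝ) := Finset.sum_le_sum fun j _ => Nat.le_ceil _
      _ = ((∑ j, ⌈r j * A i⌉₊ : ℕ) : ℝ) := by push_cast; rfl
      _ ≤ (c i : ℝ) := by exact_mod_cast h2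
      _ ≤ C * A i := hi3
  exact le_of_mul_le_mul_right h3 hA'

/-- sums of values -/
theorem uvl_sum {v : ℕ} (W : Fin v → WithTop ℝ) (C : ℝ)
    (h : ∀ r : Fin v → ℝ, (∀ j, (r j : WithTop ℝ) < W j) → ∑ j, r j ≤ C) :
    ∑ j, W j ≤ (C : WithTop ℝ) := by
  classical
  -- all values are finite
  have hex : ∀ j, ∃ r : ℝ, (r : WithTop ℝ) < W j := by
    intro j
    rcases hj : W j with _ | a
    · exact ⟨0, WithTop.coe_lt_top 0⟩
    · exact ⟨a - 1, WithTop.coe_lt_coe.2 (by linarith)⟩
  choose r0 hr0 using hex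
  have hfin : ∀ j, W j ≠ ⊤ := by
    intro j hj
    have h1 := h (Function.update r0 j (C + 1 - ∑ l ∈ Finset.univ.erase j, r0 l)) (by
      intro l
      by_cases hl : l = j
      · subst hl
        rw [hj]
        exact WithTop.coe_lt_top _
      · rw [Function.update_of_ne hl]
        exact hr0 l)
    rw [← Finset.add_sum_erase _ _ (Finset.mem_univ j), Function.update_self] at h1
    have h2 : ∑ l ∈ Finset.univ.erase j,
        Function.update r0 j (C + 1 - ∑ l ∈ Finset.univ.erase j, r0 l) l =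
        ∑ l ∈ Finset.univ.erase j, r0 l :=
      Finset.sum_congr rfl fun l hl => Function.update_of_ne (Finset.ne_of_mem_erase hl) _ _
    rw [h2] at h1
    linarith
  choose a ha using fun j => WithTop.ne_top_iff_exists.1 (hfin j)
  have h1 : ∑ j, a j ≤ C := by
    refine le_of_forall_pos_le_add fun ε hε => ?_
    have h2 := h (fun j => a j - ε / (v + 1)) (fun j => by
      rw [← ha j]
      apply WithTop.coe_lt_coe.2
      have : 0 < ε / (v + 1) := by positivity
      linarith)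
    rw [Finset.sum_sub_distrib, Finset.sum_const, Finset.card_univ, Fintype.card_fin,
      nsmul_eq_mul] at h2
    have h3 : (v : ℝ) * (ε / (v + 1)) ≤ ε := by
      rw [mul_div_assoc', div_le_iff₀ (by positivity)]
      nlinarith
    linarith
  have h2 : ∑ j, W j = ((∑ j, a j : ℝ) : WithTop ℝ) := by
    rw [WithTop.coe_sum]
    exact Finset.sum_congr rfl fun j _ => (ha j).symm
  rw [h2]
  exact WithTop.coe_le_coe.2 h1

theorem uvl_oR_ge {κ : Type} [Field κ] (f : PowerSeries κ) (l : ℕ)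
    (h : (PowerSeries.X : PowerSeries κ) ^ l ∣ f) : ((l : ℝ) : WithTop ℝ) ≤ OPT.oR f := by
  have h1 : (l : ℕ∞) ≤ f.order := by
    apply PowerSeries.le_order
    intro i hi
    exact (PowerSeries.X_pow_dvd_iff.1 h) i (by exact_mod_cast hi)
  unfold OPT.oR
  rcases hf : (f.order : WithTop ℕ) with _ | n
  · exact le_top
  · have h2 : (l : ℕ∞) ≤ (n : ℕ∞) := by
      have h3 : f.order = (n : ℕ∞) := hf
      rw [← h3]
      exact h1
    have h3 : l ≤ n := by exact_mod_cast h2
    show ((l : ℝ) : WithTop ℝ) ≤ ((n : ℝ) : WithTop ℝ)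
    exact WithTop.coe_le_coe.2 (by exact_mod_cast h3)

theorem uvl_oR_nonneg {κ : Type} [Field κ] (f : PowerSeries κ) : (0 : WithTop ℝ) ≤ OPT.oR f := by
  have h := uvl_oR_ge f 0 (by rw [pow_zero]; exact one_dvd f)
  simpa using h

theorem uvl_oR_zero {κ : Type} [Field κ] (f : PowerSeries κ)
    (h : PowerSeries.constantCoeff f ≠ 0) : OPT.oR f = 0 := by
  have h1 : f.order = ((0 : ℕ) : ℕ∞) := by
    apply le_antisymm
    · apply PowerSeries.order_le
      rwa [PowerSeries.coeff_zero_eq_constantCoeff_apply]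
    · exact zero_le
  unfold OPT.oR
  rw [h1]
  show (((0 : ℕ) : ℝ) : WithTop ℝ) = 0
  rw [Nat.cast_zero]
  rfl

theorem uvl_aeval {F κ Ω σ : Type} [Field F] [Field κ] [Algebra F κ] [Field Ω] [Algebra F Ω]
    (ι : PowerSeries κ →+* Ω)
    (hι : ∀ a : F, ι (PowerSeries.C (algebraMap F κ a)) = algebraMap F Ω a)
    (z : σ → PowerSeries κ) (P : MvPolynomial σ F) :
    aeval (fun j => ι (z j)) P = ι (aeval z P) := by
  induction P using MvPolynomial.induction_on with
  | C a =>
    rw [aeval_C, aeval_C, PowerSeries.algebraMap_apply, hι]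
  | add f g hf hg => rw [map_add, map_add, map_add, hf, hg]
  | mul_X f q hf => rw [map_mul, map_mul, map_mul, aeval_X, aeval_X, hf]

/-- the core of the block -/
theorem uvl_core {v : ℕ} (U : Ultrafilter ℕ) (F κ Ω : ℕ → Type) [∀ i, Field (F i)]
    [∀ i, Field (κ i)] [∀ i, Algebra (F i) (κ i)] [∀ i, Field (Ω i)] [∀ i, IsAlgClosed (Ω i)]
    [∀ i, Algebra (F i) (Ω i)] (ι : ∀ i, PowerSeries (κ i) →+* Ω i)
    (hι : ∀ i (a : F i), ι i (PowerSeries.C (algebraMap (F i) (κ i) a)) =
      algebraMap (F i) (Ω i) a)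
    (w : ∀ i, AddValuation (Ω i) (WithTop ℝ)) (hw : ∀ i f, w i (ι i f) = OPT.oR f)
    (A L c : ℕ → ℕ) (hA : ∀ i, 1 ≤ A i) (z : ∀ i, Fin v → PowerSeries (κ i))
    (hz : ∀ i M, L i ≤ M → v * M ≤
      tau (F i) (fun p : Fin v × Fin M => PowerSeries.coeff (p.2 : ℕ) (z i p.1)) + c i)
    (C : ℝ) (hc : ∀ᶠ i in (U : Filter ℕ), (c i : ℝ) ≤ C * A i) :
    ∃ (Ω' : Type) (_ : Field Ω') (_ : IsAlgClosed Ω') (_ : Algebra (UP U F) Ω')
      (zz : Fin v → Ω') (W : AddValuation Ω' (WithTop ℝ)),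
      (∀ a : UP U F, a ≠ 0 → W (algebraMap (UP U F) Ω' a) = 0) ∧
      AlgebraicIndependent (UP U F) zz ∧
      (∀ β : Fin v → Ω', (∀ j : Fin v, β j ∈ OPT.Om (UP U F) zz j) →
        ∑ j, W (zz j - β j) ≤ (C : WithTop ℝ)) ∧
      (∀ j, 0 ≤ W (zz j)) ∧
      (∀ (m : ℕ) (s : ∀ i, MvPolynomial (Fin v) (F i)) (lam : ℝ),
        (∀ i, (s i).IsHomogeneous m) →
        (∀ᶠ i in (U : Filter ℕ), ∃ l : ℕ, lam * A i ≤ l ∧
          (PowerSeries.X : PowerSeries (κ i)) ^ l ∣ aeval (z i) (s i)) →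
        (lam : WithTop ℝ) ≤ W (aeval zz (uh U m s))) ∧
      ∀ j, (∀ᶠ i in (U : Filter ℕ), PowerSeries.constantCoeff (z i j) ≠ 0) → W (zz j) = 0 := by
  classical
  have hE : IsAlgClosed (UP U Ω) := up_algClosed U
  obtain ⟨O, W, hO, hW⟩ := uval U Ω w A hA
  have hk : IsAlgClosed (IsLocalRing.ResidueField O) := OPT.resid_closed O
  have hmem0 : ∀ ξ : ∀ i, Ω i, (∀ i, 0 ≤ w i (ξ i)) → um U ξ ∈ O := by
    intro ξ hξ
    refine (hO ξ).2 ⟨0, Eventually.of_forall fun i => ?_⟩
    rw [zero_mul]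
    exact hξ i
  have hge : ∀ (ξ : ∀ i, Ω i) (h : um U ξ ∈ O) (lam : ℝ),
      (∀ᶠ i in (U : Filter ℕ), ((lam * A i : ℝ) : WithTop ℝ) ≤ w i (ξ i)) →
      (lam : WithTop ℝ) ≤ W (IsLocalRing.residue O ⟨um U ξ, h⟩) := fun ξ h lam =>
    (hW ξ h lam).1
  have hzero : ∀ (ξ : ∀ i, Ω i) (h : um U ξ ∈ O),
      (∀ᶠ i in (U : Filter ℕ), w i (ξ i) = 0) → W (IsLocalRing.residue O ⟨um U ξ, h⟩) = 0 := by
    intro ξ h h0
    apply le_antisymm
    · by_contra hcon
      rw [not_le] at hcon
      have h1 := (hW ξ h 0).2 hcon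
      obtain ⟨i, hi1, hi2⟩ := (h1.and h0).exists
      rw [hi2, zero_mul] at hi1
      exact lt_irrefl _ hi1
    · refine hge ξ h 0 ?_
      filter_upwards [h0] with i hi
      rw [hi, zero_mul]
      exact le_rfl
  -- constants
  have hcst : ∀ i (a : F i), algebraMap (F i) (Ω i) a = ι i (PowerSeries.C (algebraMap (F i) (κ i) a)) :=
    fun i a => (hι i a).symm
  have hK : ∀ a : UP U F, algebraMap (UP U F) (UP U Ω) a ∈ O := by
    intro a
    obtain ⟨α, rfl⟩ := um_surj U a
    show um U (fun i => algebraMap (F i) (Ω i) (α i)) ∈ O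
    refine hmem0 _ fun i => ?_
    rw [hcst, hw]
    exact uvl_oR_nonneg _
  let φ : UP U F →+* O := (algebraMap (UP U F) (UP U Ω)).codRestrict O.toSubring hK
  let alg : Algebra (UP U F) (IsLocalRing.ResidueField O) :=
    ((IsLocalRing.residue O).comp φ).toAlgebra
  -- coordinates
  have hzO : ∀ j, um U (fun i => ι i (z i j)) ∈ O := fun j =>
    hmem0 _ fun i => by rw [hw]; exact uvl_oR_nonneg _
  let zt : Fin v → O := fun j => ⟨um U fun i => ι i (z i j), hzO j⟩
  let zz : Fin v → IsLocalRing.ResidueField O := fun j => IsLocalRing.residue O (zt j)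
  -- the key inequality
  have hKey : ∀ (β : Fin v → O),
      (∀ j : Fin v, (β j : UP U Ω) ∈ OPT.Om (UP U F) (fun l => (zt l : UP U Ω)) j) →
      ∀ r : Fin v → ℝ, (∀ j, (r j : WithTop ℝ) < W (zz j - IsLocalRing.residue O (β j))) →
      ∑ j, r j ≤ C := by
    intro β hβ r hr
    choose b hb using fun j => um_surj U (β j : UP U Ω)
    refine uvl_K U F κ Ω ι hι w hw A L c hA z hz C hc b (fun j => ?_) r (fun j => ?_)
    · rw [hb j]
      exact hβ j
    · have h1 : um U (fun i => ι i (z i j) - b j i) = (zt j : UP U Ω) - β j := by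
        rw [← hb j]
        rfl
      have h2 : um U (fun i => ι i (z i j) - b j i) ∈ O := by
        rw [h1]
        exact O.sub_mem (zt j).2 (β j).2
      refine (hW _ h2 (r j)).2 ?_
      have h3 : (⟨um U (fun i => ι i (z i j) - b j i), h2⟩ : O) = zt j - β j :=
        Subtype.ext h1
      rw [h3, map_sub]
      exact hr j
  -- lifting
  have hlift : ∀ (j : Fin v), AlgebraicIndependent (UP U F)
      (fun l : {l : Fin v | (l : ℕ) < j} => zz l) → ∀ β ∈ OPT.Om (UP U F) zz j,
      ∃ b : O, IsLocalRing.residue O b = β ∧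
        (b : UP U Ω) ∈ OPT.Om (UP U F) (fun l => (zt l : UP U Ω)) j := by
    intro j hj β hβ
    unfold OPT.Om at hβ ⊢
    rw [Set.image_eq_range] at hβ ⊢
    exact lift_acl O hK (IsLocalRing.residue O) Ideal.Quotient.mk_surjective (fun a => rfl)
      (fun l : {l : Fin v | (l : ℕ) < j} => zt l) hj β hβ
  have hzeroOm : ∀ j : Fin v, ((0 : O) : UP U Ω) ∈
      OPT.Om (UP U F) (fun l => (zt l : UP U Ω)) j := fun j => by
    have : ((0 : O) : UP U Ω) = 0 := rfl
    rw [this]
    exact (OPT.Om (UP U F) (fun l => (zt l : UP U Ω)) j).zero_mem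
  have hW0 : ∀ j, 0 ≤ W (zz j) := by
    intro j
    refine hge _ (hzO j) 0 (Eventually.of_forall fun i => ?_)
    rw [zero_mul, hw]
    exact uvl_oR_nonneg _
  -- independence
  have hind : AlgebraicIndependent (UP U F) zz := by
    apply uvl_ind
    intro j hj hmem
    obtain ⟨b, hb1, hb2⟩ := hlift j hj (zz j) hmem
    have h1 := hKey (Function.update (fun _ => 0) j b) (fun l => by
      by_cases hl : l = j
      · subst hl
        rw [Function.update_self]
        exact hb2
      · rw [Function.update_of_ne hl]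
        exact hzeroOm l)
      (fun l => if l = j then C + v + 1 else -1) (fun l => by
      by_cases hl : l = j
      · subst hl
        rw [Function.update_self, if_pos rfl, hb1, sub_self, AddValuation.map_zero]
        exact WithTop.coe_lt_top _
      · rw [Function.update_of_ne hl, if_neg hl, map_zero, sub_zero]
        exact lt_of_lt_of_le (WithTop.coe_lt_coe.2 (by norm_num : (-1 : ℝ) < 0)) (hW0 l))
    rw [← Finset.add_sum_erase _ _ (Finset.mem_univ j), if_pos rfl] at h1
    have h2 : ∑ l ∈ Finset.univ.erase j, (if l = j then C + v + 1 else -1 : ℝ) =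
        ∑ l ∈ Finset.univ.erase j, (-1 : ℝ) :=
      Finset.sum_congr rfl fun l hl => if_neg (Finset.ne_of_mem_erase hl)
    rw [h2, Finset.sum_const, nsmul_eq_mul] at h1
    have h3 : (((Finset.univ : Finset (Fin v)).erase j).card : ℝ) ≤ v := by
      have := Finset.card_erase_le (s := (Finset.univ : Finset (Fin v))) (a := j)
      rw [Finset.card_univ, Fintype.card_fin] at this
      exact_mod_cast this
    linarith
  refine ⟨IsLocalRing.ResidueField O, _, hk, alg, zz, W, ?_, hind, ?_, hW0, ?_, ?_⟩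
  · intro a ha
    obtain ⟨α, rfl⟩ := um_surj U a
    have hα : ∀ᶠ i in (U : Filter ℕ), α i ≠ 0 := by
      rw [Ne, um_eq_zero, ← Ultrafilter.eventually_not] at ha
      exact ha
    refine hzero (fun i => algebraMap (F i) (Ω i) (α i)) (hK (um U α)) ?_
    filter_upwards [hα] with i hi
    rw [hcst, hw]
    apply uvl_oR_zero
    rw [PowerSeries.constantCoeff_C]
    exact (map_ne_zero _).2 hi
  · intro β hβ
    choose b hb1 hb2 using fun j => hlift j (hind.comp _ Subtype.val_injective) (β j) (hβ j)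
    apply uvl_sum
    intro r hr
    refine hKey b hb2 r fun j => ?_
    rw [hb1 j]
    exact hr j
  · intro m s lam hs hord
    obtain ⟨P, hP1, hP2⟩ := uh_lift U m s hs
    have h1 := u_aeval U (fun j i => ι i (z i j)) P
    have h2 : ∀ i, aeval (fun j => ι i (z i j)) (map (Pi.evalRingHom F i) P) =
        ι i (aeval (z i) (s i)) := by
      intro i
      rw [hP2 i]
      exact uvl_aeval (ι i) (hι i) (z i) (s i)
    have h3 : um U (fun i => ι i (aeval (z i) (s i))) ∈ O :=
      hmem0 _ fun i => by rw [hw]; exact uvl_oR_nonneg _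
    have h4 : aeval zz (uh U m s) =
        IsLocalRing.residue O ⟨um U fun i => ι i (aeval (z i) (s i)), h3⟩ := by
      have h5 : ∀ Q : MvPolynomial (Fin v) (UP U F), ∃ y : O,
          (y : UP U Ω) = aeval (fun j => (zt j : UP U Ω)) Q ∧
          IsLocalRing.residue O y = aeval zz Q := by
        intro Q
        induction Q using MvPolynomial.induction_on with
        | C a =>
          refine ⟨φ a, ?_, ?_⟩
          · rw [aeval_C]
            rfl
          · rw [aeval_C]
            rfl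
        | add f g hf hg =>
          obtain ⟨y1, h6, h7⟩ := hf
          obtain ⟨y2, h8, h9⟩ := hg
          refine ⟨y1 + y2, ?_, ?_⟩
          · rw [map_add, ← h6, ← h8]
            rfl
          · rw [map_add, map_add, h7, h9]
        | mul_X f q hf =>
          obtain ⟨y1, h6, h7⟩ := hf
          refine ⟨y1 * zt q, ?_, ?_⟩
          · rw [map_mul, aeval_X, ← h6]
            rfl
          · rw [map_mul, map_mul, aeval_X, h7]
      obtain ⟨y, h6, h7⟩ := h5 (uh U m s)
      rw [← h7]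
      congr 1
      apply Subtype.ext
      rw [h6]
      rw [← hP1]
      refine h1.trans ?_
      show um U _ = um U _
      congr 1
      funext i
      exact h2 i
    rw [h4]
    refine hge _ h3 lam ?_
    filter_upwards [hord] with i hi
    obtain ⟨l, hl1, hl2⟩ := hi
    rw [hw]
    exact (WithTop.coe_le_coe.2 hl1).trans (uvl_oR_ge _ l hl2)
  · intro j hj
    refine hzero _ (hzO j) ?_
    filter_upwards [hj] with i hi
    rw [hw]
    exact uvl_oR_zero _ hi

theorem vlim_pr {v : ℕ} (U : Ultrafilter ℕ) (F κ : ℕ → Type) [∀ i, Field (F i)]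
    [∀ i, Field (κ i)] [∀ i, Algebra (F i) (κ i)] (A L : ℕ → ℕ) (hA : ∀ i, 1 ≤ A i)
    (x : ∀ i, Fin v → Fin (L i) → κ i) (C : ℝ)
    (hC : ∀ᶠ i in (U : Filter ℕ), (v * L i : ℝ) ≤ tauJ (F i) (x i) + C * A i) :
    ∃ (Ω : Type) (_ : Field Ω) (_ : IsAlgClosed Ω) (_ : Algebra (UP U F) Ω) (z : Fin v → Ω)
      (w : AddValuation Ω (WithTop ℝ)),
      (∀ a : UP U F, a ≠ 0 → w (algebraMap (UP U F) Ω a) = 0) ∧
      AlgebraicIndependent (UP U F) z ∧
      (∀ β : Fin v → Ω, (∀ j : Fin v, β j ∈ OPT.Om (UP U F) z j) →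
        ∑ j, w (z j - β j) ≤ (C : WithTop ℝ)) ∧
      (∀ j, 0 ≤ w (z j)) ∧
      (∀ (m : ℕ) (s : ∀ i, MvPolynomial (Fin v) (F i)) (lam : ℝ),
        (∀ i, (s i).IsHomogeneous m) →
        (∀ᶠ i in (U : Filter ℕ), ∃ l : ℕ, l ≤ L i ∧ lam * A i ≤ l ∧
          (PowerSeries.X : PowerSeries (κ i)) ^ l ∣ ev (x i) (s i)) →
        (lam : WithTop ℝ) ≤ w (aeval z (uh U m s))) ∧
      (0 < v → (∀ᶠ i in (U : Filter ℕ), 0 < L i ∧ c0J (x i) = 0) → ∃ j, w (z j) = 0) := by
  classical
  choose κ' iF' iA' z h1 h2 h3 using fun i => gen_lift (F := F i) (κ := κ i) (x i)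
  choose Ω iΩ iC ι w hw using fun i => arc_field (κ' i)
  let iA : ∀ i, Algebra (F i) (Ω i) := fun i =>
    ((ι i).comp ((PowerSeries.C (R := κ' i)).comp (algebraMap (F i) (κ' i)))).toAlgebra
  have hτ : ∀ i, tauJ (F i) (x i) ≤ v * L i := by
    intro i
    have h4 := lcr_tau_le (k := F i) (fun p : Fin v × Fin (L i) => x i p.1 p.2)
      Finset.univ (fun j _ => Finset.mem_univ j)
    rw [Finset.card_univ, Fintype.card_prod, Fintype.card_fin, Fintype.card_fin] at h4
    exact h4
  obtain ⟨Ω', i1, i2, i3, zz, W, g1, g2, g3, g4, g5, g6⟩ := uvl_core U F κ' Ω ι (fun i a => rfl)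
    w hw A L (fun i => v * L i - tauJ (F i) (x i)) hA z (fun i M hM => by
      have h4 := h2 i M hM
      have h5 := hτ i
      obtain ⟨e, rfl⟩ := Nat.exists_eq_add_of_le hM
      rw [Nat.add_sub_cancel_left] at h4
      have h6 : v * (L i + e) = v * L i + v * e := by ring
      have h7 : tauJ (F i) (x i) + v * e ≤
        tau (F i) (fun p : Fin v × Fin (L i + e) => PowerSeries.coeff (p.2 : ℕ) (z i p.1)) := h4
      omega) C (by
      filter_upwards [hC] with i hi
      rw [Nat.cast_sub (hτ i)]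
      push_cast
      linarith)
  refine ⟨Ω', i1, i2, i3, zz, W, g1, g2, g3, g4, ?_, ?_⟩
  · intro m s lam hs hord
    refine g5 m s lam hs ?_
    filter_upwards [hord] with i hi
    obtain ⟨l, hl1, hl2, hl3⟩ := hi
    exact ⟨l, hl2, h1 i (s i) l hl1 hl3⟩
  · intro hv hc
    have h4 : ∀ᶠ i in (U : Filter ℕ), ∃ j, PowerSeries.constantCoeff (z i j) ≠ 0 := by
      filter_upwards [hc] with i hi
      obtain ⟨q, hq⟩ := utr_c0 hv hi.1 (x i) hi.2
      exact ⟨q, h3 i q hi.1 hq⟩
    rw [Ultrafilter.eventually_exists_iff] at h4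
    obtain ⟨j, hj⟩ := h4
    exact ⟨j, g6 j hj⟩

alias vlim := vlim_pr

end Pool.Agent.OPN
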